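import Mathlib

/-!
# The order type of the first uncountable ordinal
-/

namespace Pool.Agent.SSN.W

open Cardinal Ordinal Set

/-- the first uncountable ordinal -/
abbrev W1 : Type := (ω₁ : Ordinal.{0}).ToType

theorem mk_W1 : #W1 = ℵ₁ := by
  have h := Cardinal.mk_ord_toType (ℵ₁ : Cardinal.{0})
  rw [Cardinal.ord_aleph] at h
  exact h

theorem bdd (C : Set W1) (hC : C.Countable) : ∃ β, ∀ γ ∈ C, γ < β := by
  by_contra hcon
  push Not at hcon
  have h1 : IsCofinal C := fun β => by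
    obtain ⟨γ, h1, h2⟩ := hcon β
    exact ⟨γ, h1, h2⟩
  have h2 : Order.cof W1 ≤ #C := Order.cof_le h1
  rw [Ordinal.cof_toType] at h2
  have h3 : (ω₁ : Ordinal.{0}).cof = ℵ₁ := by
    have h4 := Cardinal.isRegular_aleph_one.cof_eq
    rw [Cardinal.ord_aleph] at h4
    exact h4
  rw [h3] at h2
  have h5 : #C ≤ ℵ₀ := Cardinal.le_aleph0_iff_set_countable.2 hC
  exact absurd (h2.trans h5) (not_le.2 Cardinal.aleph0_lt_aleph_one)

theorem big : ¬ #(Set W1) ≤ ℵ₁ := by
  rw [Cardinal.mk_set, mk_W1, not_le]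
  exact Cardinal.cantor _

theorem exists_notMem {B : W1 → Set (Set W1)} (h : ∀ β, #(B β) ≤ ℵ₁) : ∃ i, ∀ β, i ∉ B β := by
  by_contra hcon
  push Not at hcon
  apply big
  have h1 : (⋃ β, B β) = Set.univ := by
    ext i
    simp [hcon i]
  rw [← Cardinal.mk_univ, ← h1]
  refine (Cardinal.mk_iUnion_le_sum_mk).trans ?_
  refine (Cardinal.sum_le_sum _ (fun _ => ℵ₁) h).trans ?_
  rw [Cardinal.sum_const', mk_W1]
  exact le_of_eq (Cardinal.mul_eq_self (Cardinal.aleph0_le_aleph 1))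

end Pool.Agent.SSN.W
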