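import Pool.Agent.SSN.Q2G
import Pool.Agent.SSN.W1

/-!
# A model of ZFC with `cov(M) < ss_c`
-/

namespace Pool.Agent.SSN.Q2

open Set Filter Cardinal Pool.Agent.SSM Pool.Agent.SSL Pool.Agent.Helper79.ZF Pool.Agent.Helper79.Kurepa
  Pool.Agent.Helper79.Ssc

theorem prefix_getD {l l' : List ℕ} (h : l <+: l') {n : ℕ} (hn : n < l.length) : l'.getD n 0 = l.getD n 0 := by
  obtain ⟨m, rfl⟩ := h
  rw [List.getD_append _ _ _ _ hn]

section
variable {I Ω : Type} [LinearOrder Ω] [WellFoundedLT Ω] {ch : Ch I Ω} {𝓜 : Set (OB I Ω)} {N : Type}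
  [Membership N N] [ZFModel N] {j : XT I Ω → N} {G : Set (PT I Ω)} (h : GG ch 𝓜 N j G)

include h

/-- members of the filter force what is true -/
theorem GG.fo {R : RT I Ω} (hR : Ob.r2 R ∈ 𝓜) {x y : XT I Ω} (hx : Ob.x x ∈ 𝓜) (hy : Ob.x y ∈ 𝓜) :
    (∃ p ∈ G, Fo R p x y) ↔ ∃ p ∈ G, (p, x, y) ∈ R := by
  constructor
  · rintro ⟨p, hp, hF⟩
    obtain ⟨p', h1, h2, h3⟩ := h.c.up (h.g.Gsub p hp) hR hx hy hF
    exact ⟨p', h.g.up p hp p' h1 h3, h2⟩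
  · rintro ⟨p, hp, hR'⟩
    exact ⟨p, hp, p, le_rfl, hR'⟩

theorem GG.rel {R : RT I Ω} (hR : Ob.r2 R ∈ 𝓜) : ∃ t : N, ∀ x y, Ob.x x ∈ 𝓜 → Ob.x y ∈ 𝓜 →
    (opair (j x) (j y) ∈ t ↔ ∃ p ∈ G, (p, x, y) ∈ R) := by
  obtain ⟨t, ht⟩ := h.g.rel R hR
  refine ⟨t, fun x y hx hy => ?_⟩
  rw [ht]
  constructor
  · rintro ⟨x', y', hx', hy', h1, h2⟩
    rw [opair_inj] at h1
    rw [h.g.inj x x' hx hx' h1.1, h.g.inj y y' hy hy' h1.2]
    exact h2
  · intro h1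
    exact ⟨x, y, hx, hy, rfl, h1⟩

theorem GG.dat : ∃ E K1 K2 : N, Fam.Dat (fun n => j (nn n)) E K1 K2 := by
  obtain ⟨E, hE⟩ := h.g.conv
  obtain ⟨K1, h1⟩ := h.g.rel _ h.c.k1
  obtain ⟨K2, h2⟩ := h.g.rel _ h.c.k2
  obtain ⟨p0, hp0⟩ := h.g.ne
  refine ⟨E, K1, K2, fun m n hmn => nn_inj (h.g.inj _ _ (h.g.nm m) (h.g.nm n) hmn), hE, fun z => ?_, fun z => ?_⟩
  · rw [h1]
    constructor
    · rintro ⟨x, y, -, -, rfl, p, -, n, hn⟩
      simp only [Prod.mk.injEq] at hn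
      exact ⟨n, by rw [hn.1, hn.2]⟩
    · rintro ⟨n, rfl⟩
      exact ⟨_, _, h.g.nm n, h.g.nm _, rfl, p0, hp0, n, rfl⟩
  · rw [h2]
    constructor
    · rintro ⟨x, y, -, -, rfl, p, -, n, hn⟩
      simp only [Prod.mk.injEq] at hn
      exact ⟨n, by rw [hn.1, hn.2]⟩
    · rintro ⟨n, rfl⟩
      exact ⟨_, _, h.g.nm n, h.g.nm _, rfl, p0, hp0, n, rfl⟩

/-- the generic function at the coordinate `β` -/
theorem GG.exists_stem {β : Ω} (hβ : Ob.x (wp β : XT I Ω) ∈ 𝓜) : ∃ g : ℕ → ℕ,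
    (∀ p ∈ G, ∀ n < ((un p).σ β).length, ((un p).σ β).getD n 0 = g n) ∧
    ∀ n m, (∃ p ∈ G, (p, wp β, nn (Nat.pair n m)) ∈ (RG : RT I Ω)) ↔ m = g n := by
  have h1 : ∀ n, ∃ p ∈ G, p ∈ DLen β n := fun n => h.g.gen _ (h.c.len hβ n) (DLen_dense β n)
  choose p hp hn using h1
  have key : ∀ q ∈ G, ∀ n < ((un q).σ β).length, ((un q).σ β).getD n 0 = ((un (p n)).σ β).getD n 0 := by
    intro q hq n hqn
    obtain ⟨r, -, h2, h3⟩ := h.g.dir q hq (p n) (hp n)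
    rw [← prefix_getD (h2.σ β) hqn, ← prefix_getD (h3.σ β) (hn n)]
  refine ⟨fun n => ((un (p n)).σ β).getD n 0, key, fun n m => ?_⟩
  constructor
  · rintro ⟨q, hq, β', k, h2, h3, h4⟩
    simp only [Prod.mk.injEq] at h2
    have e1 := wp_inj h2.1
    have e2 := nn_inj h2.2
    subst e1
    subst e2
    rw [Nat.unpair_pair] at h3 h4
    simp only at h3 h4
    rw [← h4]
    exact key q hq n h3
  · rintro rfl
    refine ⟨p n, hp n, β, _, rfl, ?_, ?_⟩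
    · rw [Nat.unpair_pair]
      exact hn n
    · rw [Nat.unpair_pair]

/-- the generic functions are eventually different from all functions of the model -/
theorem GG.evd {f : N} (hf : MFn f) : ∃ β, Ob.x (wp β : XT I Ω) ∈ 𝓜 ∧ ∀ g : ℕ → ℕ,
    (∀ p ∈ G, ∀ n < ((un p).σ β).length, ((un p).σ β).getD n 0 = g n) → ∀ᶠ n in atTop, decF f n ≠ g n := by
  obtain ⟨E, K1, K2, D⟩ := h.dat
  obtain ⟨R, hR, h1⟩ := h.g.rname (Fam.encF E f)
  have h2 : ∀ n m, (∃ p ∈ G, Fo R p (nn n) (nn m)) ↔ decF f n = m := by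
    intro n m
    rw [h.fo hR (h.g.nm n) (h.g.nm m), ← h1 _ _ (h.g.nm n) (h.g.nm m), ← Fam.decF_iff h.g.omega hf]
    exact D.mem_encF
  have h3 : ∀ n, ∃ p ∈ G, Lst R p n (decF f n) := by
    intro n
    obtain ⟨p, hp, h4⟩ := h.g.gen _ (h.c.lst hR n) (DLst_dense R n)
    rcases h4 with ⟨b, hb⟩ | h4
    · have h5 := (h2 n b).1 ⟨p, hp, hb.1⟩
      rw [h5]
      exact ⟨p, hp, hb⟩
    · exfalso
      obtain ⟨q, hq, h5⟩ := (h2 n _).2 rfl
      obtain ⟨r, -, h6, h7⟩ := h.g.dir p hp q hq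
      exact h4 _ r h6 (h5.mono h7)
  refine ⟨ch.b R, h.c.b hR, fun g hg => ?_⟩
  obtain ⟨p1, hp1, h4⟩ := h.g.gen _ (h.c.add hR) (DAdd_dense (ch.hφ R))
  rw [eventually_atTop]
  refine ⟨((un p1).σ (ch.b R)).length, fun n hn => ?_⟩
  obtain ⟨p2, hp2, h5⟩ := h.g.gen _ (h.c.dec hR n) (DDec_dense (ch.hφ R) n)
  obtain ⟨p3, hp3, h6⟩ := h3 n
  obtain ⟨r, hr, h7, h8⟩ := h.g.dir p1 hp1 p2 hp2
  obtain ⟨r', hr', h9, h10⟩ := h.g.dir r hr p3 hp3
  have h11 := stem_ne h4 hn h5 (h9.trans h7) (h9.trans h8) (h6.mono h10)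
  have h12 : n < ((un r').σ (ch.b R)).length :=
    lt_of_lt_of_le h5.1 (le_trans (b := r) h9 h8 |>.σ (ch.b R)).length_le
  rw [hg r' hr' n h12] at h11
  exact fun hc => h11 hc.symm

/-- the Cohen functions -/
theorem GG.exists_cohen {i : I} (hi : Ob.x (ip i : XT I Ω) ∈ 𝓜) : ∃ c : ℕ → ℕ, (∀ p ∈ G, ∀ n a, (i, n, a) ∈ (un p).c → a = c n) ∧
    ∀ n, ∃ p ∈ G, ∀ k ≤ n, (i, k, c k) ∈ (un p).c := by
  have h1 : ∀ n, ∃ p ∈ G, p ∈ DC i n := fun n => h.g.gen _ (h.c.dc hi n) (DC_dense i n)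
  choose p hp hn using h1
  choose c hc using hn
  have key : ∀ q ∈ G, ∀ n a, (i, n, a) ∈ (un q).c → a = c n n := by
    intro q hq n a hqn
    obtain ⟨r, -, h2, h3⟩ := h.g.dir q hq (p n) (hp n)
    exact (un r).fn i n _ _ (h2.c hqn) (h3.c (hc n n le_rfl))
  refine ⟨fun n => c n n, key, fun n => ⟨p n, hp n, fun k hk => ?_⟩⟩
  have h2 := key (p n) (hp n) k _ (hc n k hk)
  beta_reduce
  rw [← h2]
  exact hc n k hk

theorem GG.series {R : RT I Ω} (hR : Ob.r2 R ∈ 𝓜) : ∃ f : N, MFn f ∧ CondConv (fun n => rat (decF f n)) ∧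
    ∀ β, Ob.x (wp β : XT I Ω) ∈ 𝓜 → ∀ A : Set ℕ, (∀ n, n ∈ A ↔ ∃ p ∈ G, (p, wp β, nn n) ∈ R) →
      A.Infinite → Aᶜ.Infinite → ¬ SubConv A (fun n => rat (decF f n)) := by
  obtain ⟨E, K1, K2, D⟩ := h.dat
  set i := ch.i R with hi
  have hiM : Ob.x (ip i : XT I Ω) ∈ 𝓜 := h.c.i hR
  obtain ⟨c, hc1, hc2⟩ := h.exists_cohen hiM
  obtain ⟨t, ht⟩ := h.rel (h.c.rs hiM)
  have h1 : ∀ n m, opair (j (nn n)) (j (nn m)) ∈ t ↔ m = cdr (ser c n) := by
    intro n m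
    rw [ht _ _ (h.g.nm n) (h.g.nm m)]
    constructor
    · rintro ⟨p, hp, n', c', h2, h3⟩
      simp only [Prod.mk.injEq] at h2
      have e1 := nn_inj h2.1
      have e2 := nn_inj h2.2
      subst e1
      rw [e2, ser_congr (c := c') (c' := c) (n := n) (fun k hk => hc1 p hp k _ (h3 k hk))]
    · rintro rfl
      obtain ⟨p, hp, h2⟩ := hc2 n
      exact ⟨p, hp, n, c, rfl, h2⟩
  obtain ⟨f, hf, h2⟩ := D.exists_fn h.g.omega h1
  have h3 : (fun n => rat (decF f n)) = ser c := by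
    funext n
    rw [h2, rat_cdr]
  have hfl : ∀ M, ∃ n, M ≤ flg c n := by
    intro M
    obtain ⟨p, hp, n, c', h4, h5⟩ := h.g.gen _ (h.c.dflg hiM M) (DFlg_dense i M)
    refine ⟨n, ?_⟩
    have h6 : flg c' n = flg c n := by
      unfold flg
      congr 1
      apply Finset.filter_congr
      intro k hk
      rw [hc1 p hp k _ (h4 k (by rw [Finset.mem_range] at hk; omega))]
    rw [← h6]
    exact h5
  have hsum : ∀ M : ℕ, ∃ n, (M : ℚ) ≤ ∑ k ∈ Finset.range n, |ser c k| := by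
    intro M
    obtain ⟨p, hp, n, c', h4, h5⟩ := h.g.gen _ (h.c.dsum hiM M) (DSum_dense i M)
    refine ⟨n, ?_⟩
    have h6 : ∑ k ∈ Finset.range n, |ser c' k| = ∑ k ∈ Finset.range n, |ser c k| := by
      apply Finset.sum_congr rfl
      intro k hk
      rw [Finset.mem_range] at hk
      rw [ser_congr (c := c') (c' := c) (n := k) (fun m hm => hc1 p hp m _ (h4 m (by omega)))]
    rw [← h6]
    exact h5
  refine ⟨f, hf, ?_, ?_⟩
  · rw [h3]
    exact ser_cond hfl hsum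
  · rw [h3]
    intro β hβ A hA hA1 hA2 hs
    classical
    set x : ℕ → ℕ := fun n => if n ∈ A then 1 else 0 with hx
    have hxA : {n | x n = 1} = A := by
      ext n
      simp [hx]
    rw [← hxA] at hs hA1
    obtain ⟨N0, hN0⟩ := sub_small hfl hA1 hs
    rw [hxA] at hs hA1
    have hA' : ∀ n, n ∈ A ↔ ∃ p ∈ G, Fo R p (wp β) (nn n) := fun n => by
      rw [hA, h.fo hR hβ (h.g.nm n)]
    -- what is forced is true
    have htrue : ∀ p ∈ G, ∀ n b, FX R β (un p) n b → b = x n := by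
      intro p hp n b hF
      rw [FX_iff] at hF
      rcases hF with ⟨h4, h5⟩ | ⟨h4, h5⟩
      · have h6 : n ∈ A := (hA' n).2 ⟨p, hp, h5⟩
        rw [h4, hx]
        simp [h6]
      · have h6 : n ∉ A := by
          intro hn
          obtain ⟨q, hq, h7⟩ := (hA' n).1 hn
          obtain ⟨r, -, h8, h9⟩ := h.g.dir p hp q hq
          exact h5 r h8 (h7.mono h9)
        rw [h4, hx]
        simp [h6]
    have hforce : ∀ n, ∃ p ∈ G, FX R β (un p) n (x n) := by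
      intro n
      obtain ⟨p, hp, b, h4⟩ := h.g.gen _ (h.c.tot hR hβ n) (DTot_dense n)
      rw [← htrue p hp n b h4]
      exact ⟨p, hp, h4⟩
    have hinf : ∀ b, (∀ M, ∃ n ≥ M, x n = b) → ∃ p ∈ G, ∀ M, ∀ q ≤ p, ∃ q' ≤ q, ∃ n ≥ M, FX R β (un q') n b := by
      intro b hb
      obtain ⟨p, hp, h4⟩ := h.g.gen _ (h.c.inf hR hβ b) (DInf_dense b)
      rcases h4 with h4 | ⟨M, h4⟩
      · exact ⟨p, hp, h4⟩
      · exfalso
        obtain ⟨n, hn, h5⟩ := hb M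
        obtain ⟨q, hq, h6⟩ := hforce n
        rw [h5] at h6
        obtain ⟨r, -, h8, h9⟩ := h.g.dir p hp q hq
        exact h4 r h8 n hn (FX_mono' h9 h6)
    obtain ⟨p1, hp1, h4⟩ := hinf 1 (fun M => by
      obtain ⟨n, hn, hn'⟩ := hA1.exists_gt M
      exact ⟨n, hn'.le, by simp [hx, hn]⟩)
    obtain ⟨p0, hp0, h5⟩ := hinf 0 (fun M => by
      obtain ⟨n, hn, hn'⟩ := hA2.exists_gt M
      have hn2 : n ∉ A := hn
      exact ⟨n, hn'.le, by simp [hx, hn2]⟩)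
    have h6 : ∃ p ∈ G, ∀ q ≤ p, Ok R β i N0 q := by
      obtain ⟨p, hp, h6⟩ := h.g.gen _ (h.c.bd hR hβ hiM N0) (DBd_dense i N0)
      rcases h6 with h6 | h6
      · exact ⟨p, hp, h6⟩
      · exfalso
        apply h6
        intro u v hu huv x' c' hx' hc'
        have e : ∑ n ∈ Finset.Ico u v, eps c' n * sgn (c' n) * eta x' n =
            ∑ n ∈ Finset.Ico u v, eps c n * sgn (c n) * eta x n := by
          apply Finset.sum_congr rfl
          intro n hn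
          rw [Finset.mem_Ico] at hn
          have e1 : c' n = c n := hc1 p hp n _ (hc' n hn.2)
          have e2 : eps c' n = eps c n := by
            unfold eps
            congr 2
            unfold flg
            congr 2
            apply Finset.filter_congr
            intro k hk
            rw [Finset.mem_range] at hk
            rw [hc1 p hp k _ (hc' k (by omega))]
          have e3 : eta x' n = eta x n := by
            unfold eta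
            rw [htrue p hp n _ (hx' n (by omega)), htrue p hp (n + 1) _ (hx' (n + 1) (by omega))]
          rw [e1, e2, e3]
        rw [e]
        exact hN0 u v hu huv
    obtain ⟨p2, hp2, h7⟩ := h6
    obtain ⟨r, hr, h8, h9⟩ := h.g.dir p1 hp1 p0 hp0
    obtain ⟨r', hr', h10, h11⟩ := h.g.dir r hr p2 hp2
    refine ch.hi R β (mem_Bad (N0 := N0) (p := r') ?_ ?_ ?_)
    · intro M q hq
      exact h4 M q ((hq.trans h10).trans h8)
    · intro M q hq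
      exact h5 M q ((hq.trans h10).trans h9)
    · intro q hq
      exact h7 q (hq.trans h11)

theorem GG.covM_lt_ssc : CovMLtSsc N := by
  haveI hz : ZFCM N := { toZFModel := h.g.zfc.1, ac := h.g.zfc.2 }
  obtain ⟨E, K1, K2, D⟩ := h.dat
  obtain ⟨WP, hWP⟩ := h.g.points _ h.c.wps
  obtain ⟨t, ht⟩ := h.rel h.c.rg
  have hWP' : ∀ z : N, z ∈ WP → ∃ β : Ω, Ob.x (wp β : XT I Ω) ∈ 𝓜 ∧ z = j (wp β) := by
    intro z hz
    obtain ⟨x, ⟨β, rfl⟩, h2, h3⟩ := (hWP z).1 hz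
    exact ⟨β, h2, h3⟩
  have hrow : ∀ β : Ω, Ob.x (wp β : XT I Ω) ∈ 𝓜 → ∃ g : ℕ → ℕ,
      (∀ p ∈ G, ∀ n < ((un p).σ β).length, ((un p).σ β).getD n 0 = g n) ∧
      MFn (Fam.row E K1 K2 t (j (wp β))) ∧ ∀ n, decF (Fam.row E K1 K2 t (j (wp β))) n = g n := by
    intro β hβ
    obtain ⟨g, h1, h2⟩ := h.exists_stem hβ
    refine ⟨g, h1, D.row_fn h.g.omega fun n m => ?_⟩
    rw [ht _ _ hβ (h.g.nm _)]
    exact h2 n m
  obtain ⟨C, hC, hle⟩ := exists_MCovM h.g.zfc h.g.omega (C0 := repS WP (Fam.row E K1 K2 t))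
    (fun c hc => by
      rw [mem_repS (Fam.row_def E K1 K2 t)] at hc
      obtain ⟨w, hw, rfl⟩ := hc
      obtain ⟨β, hβ, rfl⟩ := hWP' w hw
      obtain ⟨g, -, h1, -⟩ := hrow β hβ
      exact h1)
    (fun f hf => by
      obtain ⟨β, hβ, h1⟩ := h.evd hf
      obtain ⟨g, h2, h3, h4⟩ := hrow β hβ
      refine ⟨_, (mem_repS (Fam.row_def E K1 K2 t)).2 ⟨j (wp β), (hWP _).2 ⟨wp β, ⟨β, rfl⟩, hβ, rfl⟩, rfl⟩, ?_⟩
      filter_upwards [h1 g h2] with n hn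
      rw [h4]
      exact hn)
  refine ⟨C, hC, fun F hF hFC => ?_⟩
  have hFW : Le F WP := (hFC.trans hle).trans (le_repS (Fam.row_def E K1 K2 t))
  obtain ⟨tF, htF⟩ := D.exists_enum hFW
  obtain ⟨R, hR, hR'⟩ := h.g.rname tF
  obtain ⟨f, hf, h1, h2⟩ := h.series hR
  obtain ⟨X, hX, h3⟩ := hF.2 f hf h1
  obtain ⟨w, hw, h4⟩ := htF X hX
  obtain ⟨β, hβ, rfl⟩ := hWP' w hw
  obtain ⟨-, h5, h6⟩ := hF.1 X hX
  refine h2 β hβ (decS X) (fun n => ?_) h5 h6 h3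
  rw [Fam.mem_decS, ← h4 n, hR' _ _ hβ (h.g.nm n)]

end

/-- **There is a model of ZFC in which `cov(M) < ss_c`.** -/
theorem exists_covM_lt_ssc : ∃ (N : Type) (_ : Membership N N), ZFCModel N ∧ OmegaModel N ∧ CovMLtSsc N := by
  obtain ⟨ch⟩ := exists_Ch (I := Set W.W1) (Ω := W.W1) (le_of_eq W.mk_W1) W.bdd (fun B hB => W.exists_notMem hB)
  haveI : Nonempty (PT (Set W.W1) W.W1) := by
    refine ⟨mk ⟨∅, ∅, fun _ => [], fun _ _ _ => ∅, by simp, by simp, by simp⟩ ?_⟩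
    intro γ hγ
    simp at hγ
  obtain ⟨𝓜, N, m, z, j, G, h⟩ := exists_GG ch
  exact ⟨N, m, h.g.zfc, h.g.omega, h.covM_lt_ssc⟩

end Pool.Agent.SSN.Q2
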