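import Pool.Agent.SSN.Gen

/-!
# The statement in the model
-/

namespace Pool.Agent.SSN

open Set Filter Pool.Agent.SSL Pool.Agent.Helper79.ZF Pool.Agent.Helper79.Kurepa Pool.Agent.Helper79.Ssc

section
variable {N : Type} [Membership N N] [ZFModel N]

theorem mval_iff {f : N} {n m : ℕ} : MVal f n m ↔ opair (nu N n) (nu N m) ∈ f := by
  unfold MVal
  simp only [num_iff, isPair_iff]
  constructor
  · rintro ⟨x, y, p, rfl, rfl, h, rfl⟩
    exact h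
  · intro h
    exact ⟨_, _, _, rfl, rfl, h, rfl⟩

theorem mem_decS {X : N} {n : ℕ} : n ∈ decS X ↔ nu N n ∈ X := by
  unfold decS
  simp only [mem_ofPred_eq, num_iff]
  constructor
  · rintro ⟨z, rfl, h⟩
    exact h
  · intro h
    exact ⟨_, rfl, h⟩

theorem mfn_val (hN : OmegaModel N) {f : N} (hf : MFn f) (n m : ℕ) : MVal f n m ↔ decF f n = m := by
  obtain ⟨y, hy, h⟩ := (hf (om N) (isOmega_iff.2 rfl)).2 (nu N n) (nu_mem_om n)
  obtain ⟨k, rfl⟩ := (mem_om_iff hN).1 hy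
  have h1 : ∀ m, MVal f n m ↔ m = k := by
    intro m
    rw [mval_iff]
    have h2 := h (nu N m)
    simp only [isPair_iff] at h2
    constructor
    · intro h3
      exact nu_inj (h2.1 ⟨_, h3, rfl⟩)
    · rintro rfl
      obtain ⟨p, hp, rfl⟩ := h2.2 rfl
      exact hp
  have h3 : decF f n = k := by
    unfold decF
    have h4 : ∃ m, MVal f n m := ⟨k, (h1 k).2 rfl⟩
    rw [dif_pos h4]
    exact (h1 _).1 h4.choose_spec
  rw [h1, h3]
  exact eq_comm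

end

variable {W : Type} [LinearOrder W] [WellFoundedLT W] {D : Set W}
variable {𝓜 : Set (Ob (Po D) (Pt W))} {N : Type} [Membership N N] [ZFModel N] {j : Pt W → N} {G : Set (Po D)}

/-- the union of the blocks -/
def blocks (X Y : ℕ → ℕ) : Set ℕ := {n | ∃ i, X i ≤ n ∧ n < Y i}

theorem blocks_inf {X Y : ℕ → ℕ} (h : ∀ i, X i < Y i) (h' : ∀ i, Y i < X (i + 1)) :
    (blocks X Y).Infinite ∧ (blocks X Y)ᶜ.Infinite := by
  have hX : StrictMono X := strictMono_nat_of_lt_succ (fun i => (h i).trans (h' i))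
  have hY : StrictMono Y := strictMono_nat_of_lt_succ (fun i => (h' i).trans (h (i + 1)))
  constructor
  · exact (infinite_range_of_injective hX.injective).mono (by rintro _ ⟨i, rfl⟩; exact ⟨i, le_rfl, h i⟩)
  · refine (infinite_range_of_injective hY.injective).mono ?_
    rintro _ ⟨i, rfl⟩ ⟨k, h1, h2⟩
    rcases lt_or_ge i k with h3 | h3
    · have := hX.monotone (Nat.succ_le_of_lt h3)
      have := h' i
      simp only [Nat.succ_eq_add_one] at *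
      omega
    · have h4 : Y k ≤ Y i := hY.monotone h3
      omega

theorem main_int (A : Ge D 𝓜 N j G) (hD : ∀ F : D → W, (∀ k, F k ∉ D) → ∃ ξ, ¬ {k | F k = ξ}.Countable)
    (hcof : ∀ A : Set W, A.Countable → ∃ ξ, ξ ∉ D ∧ ∀ a ∈ A, a < ξ) : SscLtD N := by
  have hN : OmegaModel N := A.omega
  have hnm : ∀ n, Ob.x (pn n) ∈ 𝓜 := A.nm
  obtain ⟨E, hE⟩ := A.conv
  obtain ⟨tI, htI⟩ := A.points {x | ∃ ξ, ξ ∉ D ∧ x = pw ξ} (A.clo0 (0, 0))
  obtain ⟨tP, htP⟩ := A.points {x | ∃ ξ n, ξ ∉ D ∧ x = pp ξ n} (A.clo0 (1, 0))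
  obtain ⟨tN, htN⟩ := A.points {x | ∃ n, x = pn n} (A.clo0 (2, 0))
  obtain ⟨RX, hRX⟩ := A.rel (nX D) (A.clo0 (3, 0))
  obtain ⟨t1, ht1⟩ := A.rel (n1 D) (A.clo0 (4, 0))
  obtain ⟨t2, ht2⟩ := A.rel (n2 D) (A.clo0 (5, 0))
  obtain ⟨g0, hg0⟩ := A.ne
  have hjn : ∀ m n, j (pn m) = j (pn n) → m = n := fun m n h => pn_inj (A.inj _ _ (hnm m) (hnm n) h)
  have hE' : ∀ n : ℕ, ∀ u : N, opair (j (pn n)) u ∈ E ↔ u = nu N n := by
    intro n u
    rw [hE]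
    constructor
    · rintro ⟨m, h⟩
      rw [opair_inj] at h
      rw [hjn _ _ h.1]
      exact h.2
    · rintro rfl
      exact ⟨n, rfl⟩
  have hE'' : ∀ a : N, ∀ n : ℕ, opair a (nu N n) ∈ E ↔ a = j (pn n) := by
    intro a n
    rw [hE]
    constructor
    · rintro ⟨m, h⟩
      rw [opair_inj] at h
      rw [nu_inj h.2]
      exact h.1
    · rintro rfl
      exact ⟨n, rfl⟩
  have hN' : ∀ n, j (pn n) ∈ tN := fun n => (htN _).2 ⟨_, ⟨n, rfl⟩, hnm n, rfl⟩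
  -- the sets `X_ξ`
  let Xs : N → N := fun z => sepS (om N) (fun w => ∃ a : N, opair a w ∈ E ∧ opair z a ∈ RX)
  have hXs : DefF N Xs := by
    show DefF N (fun z => sepS (om N) (fun w => ∃ a : N, opair a w ∈ E ∧ opair z a ∈ RX))
    fun_prop
  have mXs : ∀ ξ, ξ ∉ D → Ob.x (pw ξ) ∈ 𝓜 → ∀ X Y : ℕ → ℕ, (∀ i : ℕ, ∃ g ∈ G, ((rep g).s ξ)[i]? = some (X i, Y i)) →
      (∀ g ∈ G, ∀ i x y : ℕ, ((rep g).s ξ)[i]? = some (x, y) → x = X i ∧ y = Y i) →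
      ∀ w, w ∈ Xs (j (pw ξ)) ↔ ∃ n ∈ blocks X Y, w = nu N n := by
    intro ξ hξ hξM X Y h1 h2 w
    show w ∈ sepS (om N) (fun w => ∃ a : N, opair a w ∈ E ∧ opair (j (pw ξ)) a ∈ RX) ↔ _
    rw [mem_sepS (by fun_prop)]
    constructor
    · rintro ⟨hw, a, ha, hRa⟩
      obtain ⟨n, rfl⟩ := (mem_om_iff hN).1 hw
      rw [hE''] at ha
      subst ha
      obtain ⟨x, y, hx, hy, hxy, p, hp, ξ', n', h3, -, i, a, b, h4, h5, h6⟩ := (hRX _).1 hRa
      rw [opair_inj] at hxy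
      simp only [Prod.mk.injEq] at h3
      obtain ⟨rfl, rfl⟩ := h3
      have h7 := A.inj _ _ hξM hx hxy.1
      have h8 := hjn _ _ hxy.2
      have h9 : ξ = ξ' := by
        have := h7
        simp only [pw, Sum.inr.injEq, Sum.inl.injEq] at this
        exact this
      subst h8 h9
      obtain ⟨rfl, rfl⟩ := h2 p hp i a b h4
      exact ⟨n, ⟨i, h5, h6⟩, rfl⟩
    · rintro ⟨n, ⟨i, h5, h6⟩, rfl⟩
      refine ⟨nu_mem_om n, j (pn n), (hE'' _ _).2 rfl, (hRX _).2 ?_⟩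
      obtain ⟨g, hg, h3⟩ := h1 i
      exact ⟨pw ξ, pn n, hξM, hnm n, rfl, g, hg, ξ, n, rfl, hξ, i, X i, Y i, h3, h5, h6⟩
  have hdec : ∀ ξ, ξ ∉ D → Ob.x (pw ξ) ∈ 𝓜 → ∀ X Y : ℕ → ℕ, (∀ i : ℕ, ∃ g ∈ G, ((rep g).s ξ)[i]? = some (X i, Y i)) →
      (∀ g ∈ G, ∀ i x y : ℕ, ((rep g).s ξ)[i]? = some (x, y) → x = X i ∧ y = Y i) →
      decS (Xs (j (pw ξ))) = blocks X Y := by
    intro ξ hξ hξM X Y h1 h2
    ext n
    rw [mem_decS, mXs ξ hξ hξM X Y h1 h2]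
    constructor
    · rintro ⟨m, hm, h⟩
      rw [nu_inj h]; exact hm
    · intro h
      exact ⟨n, h, rfl⟩
  -- the family
  have hF : ∀ w : N, w ∈ repS tI Xs ↔ ∃ ξ, ξ ∉ D ∧ Ob.x (pw ξ) ∈ 𝓜 ∧ w = Xs (j (pw ξ)) := by
    intro w
    rw [mem_repS hXs]
    constructor
    · rintro ⟨z, hz, rfl⟩
      obtain ⟨x, ⟨ξ, hξ, rfl⟩, hx, rfl⟩ := (htI z).1 hz
      exact ⟨ξ, hξ, hx, rfl⟩
    · rintro ⟨ξ, hξ, hx, rfl⟩
      exact ⟨_, (htI _).2 ⟨_, ⟨ξ, hξ, rfl⟩, hx, rfl⟩, rfl⟩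
  refine ⟨repS tI Xs, ⟨?_, ?_⟩, ?_⟩
  · intro w hw
    obtain ⟨ξ, hξ, hξM, rfl⟩ := (hF w).1 hw
    obtain ⟨X, Y, h1, h2, h3, h4⟩ := A.seq hξM
    rw [hdec ξ hξ hξM X Y h1 h2]
    refine ⟨?_, blocks_inf h3 h4⟩
    intro W' hW' z hz
    rw [isOmega_iff.1 hW']
    obtain ⟨n, -, rfl⟩ := (mXs ξ hξ hξM X Y h1 h2 z).1 hz
    exact nu_mem_om n
  · intro f hf hconv
    -- the relation on the points
    let t' : N := sepS (prodS tN tN) (fun z => ∃ a b u w : N, z = opair a b ∧ opair a u ∈ E ∧ opair b w ∈ E ∧ opair u w ∈ f)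
    have ht' : ∀ n m, opair (j (pn n)) (j (pn m)) ∈ t' ↔ decF f n = m := by
      intro n m
      show opair (j (pn n)) (j (pn m)) ∈ sepS (prodS tN tN) (fun z => ∃ a b u w : N, z = opair a b ∧ opair a u ∈ E ∧
        opair b w ∈ E ∧ opair u w ∈ f) ↔ _
      rw [mem_sepS (by fun_prop), ← mfn_val hN hf, mval_iff]
      constructor
      · rintro ⟨-, a, b, u, w, hab, ha, hb, h⟩
        rw [opair_inj] at hab
        obtain ⟨rfl, rfl⟩ := hab
        rw [hE'] at ha hb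
        rw [← ha, ← hb]
        exact h
      · intro h
        exact ⟨opair_mem_prodS.2 ⟨hN' n, hN' m⟩, _, _, _, _, rfl, (hE' _ _).2 rfl, (hE' _ _).2 rfl, h⟩
    obtain ⟨R, hR, hR'⟩ := A.rname t'
    have hf' : ∀ n m, (∃ s ∈ G, (s, pn n, pn m) ∈ R) ↔ decF f n = m := by
      intro n m
      rw [← hR' _ _ (hnm n) (hnm m), ht']
    obtain ⟨ξ, hξ, hξM, hcap⟩ := A.capture hcof hR hf'
    obtain ⟨X, Y, h1, h2, h3, h4⟩ := A.seq hξM
    refine ⟨_, (hF _).2 ⟨ξ, hξ, hξM, rfl⟩, ?_⟩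
    rw [hdec ξ hξ hξM X Y h1 h2]
    exact subConv_of_col (decF f) hconv.1 X Y h3 h4 (hcap X Y h1)
  · intro D' hD' hLe
    obtain ⟨Fn, hFn, hFn1, hFn2⟩ := hLe.fn
    let t' : N := sepS (prodS tP tN) (fun z => ∃ pt b zz a u w g : N, z = opair pt b ∧ opair pt zz ∈ t1 ∧
      opair pt a ∈ t2 ∧ opair a u ∈ E ∧ opair b w ∈ E ∧ g ∈ D' ∧ Fn g = Xs zz ∧ opair u w ∈ g)
    have hdef : DefP N (fun z => ∃ pt b zz a u w g : N, z = opair pt b ∧ opair pt zz ∈ t1 ∧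
      opair pt a ∈ t2 ∧ opair a u ∈ E ∧ opair b w ∈ E ∧ g ∈ D' ∧ Fn g = Xs zz ∧ opair u w ∈ g) := by
      fun_prop
    have ht' : ∀ ξ n m, ξ ∉ D → Ob.x (pw ξ) ∈ 𝓜 → (opair (j (pp ξ n)) (j (pn m)) ∈ t' ↔
        ∃ g ∈ D', Fn g = Xs (j (pw ξ)) ∧ opair (nu N n) (nu N m) ∈ g) := by
      intro ξ n m hξ hξM
      have hpM := A.pp_mem hξM n
      show opair (j (pp ξ n)) (j (pn m)) ∈ sepS (prodS tP tN) _ ↔ _
      rw [mem_sepS hdef]
      constructor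
      · rintro ⟨-, pt, b, zz, a, u, w, g, hab, h1, h2, h3, h4, h5, h6, h7⟩
        rw [opair_inj] at hab
        obtain ⟨rfl, rfl⟩ := hab
        obtain ⟨x, y, hx, hy, hxy, p, hp, ξ', n', -, h8⟩ := (ht1 _).1 h1
        rw [opair_inj] at hxy
        simp only [Prod.mk.injEq] at h8
        obtain ⟨rfl, rfl⟩ := h8
        have h9 := A.inj _ _ hpM hx hxy.1
        simp only [pp, Sum.inr.injEq, Prod.mk.injEq] at h9
        obtain ⟨rfl, rfl⟩ := h9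
        obtain ⟨x, y, hx, hy, hxy', p, hp, ξ', n', -, h8⟩ := (ht2 _).1 h2
        rw [opair_inj] at hxy'
        simp only [Prod.mk.injEq] at h8
        obtain ⟨rfl, rfl⟩ := h8
        have h9 := A.inj _ _ hpM hx hxy'.1
        simp only [pp, Sum.inr.injEq, Prod.mk.injEq] at h9
        obtain ⟨rfl, rfl⟩ := h9
        rw [hxy'.2, hE'] at h3
        rw [hE'] at h4
        rw [hxy.2] at h6
        rw [h3, h4] at h7
        exact ⟨g, h5, h6, h7⟩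
      · rintro ⟨g, h5, h6, h7⟩
        refine ⟨opair_mem_prodS.2 ⟨(htP _).2 ⟨_, ⟨ξ, n, hξ, rfl⟩, hpM, rfl⟩, hN' m⟩, _, _, j (pw ξ), j (pn n), nu N n, nu N m, g, rfl,
          (ht1 _).2 ?_, (ht2 _).2 ?_, (hE' _ _).2 rfl, (hE' _ _).2 rfl, h5, h6, h7⟩
        · exact ⟨pp ξ n, pw ξ, hpM, hξM, rfl, g0, hg0, ξ, n, hξ, rfl⟩
        · exact ⟨pp ξ n, pn n, hpM, hnm n, rfl, g0, hg0, ξ, n, hξ, rfl⟩
    obtain ⟨R, hR, hR'⟩ := A.rname t'
    obtain ⟨k, hkM, hk⟩ := A.undominated hD hR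
    obtain ⟨X, Y, h1, h2, h3, h4⟩ := A.seq hkM
    obtain ⟨RC, hRC⟩ := A.rel (nC D k) (A.nC_mem hkM)
    -- the Cohen real in the model
    let fC : N := sepS (prodS (om N) (om N)) (fun z => ∃ a b u w : N, z = opair u w ∧ opair a u ∈ E ∧ opair b w ∈ E ∧ opair a b ∈ RC)
    have hfC : ∀ z : N, z ∈ fC ↔ ∃ i, z = opair (nu N i) (nu N (X i)) := by
      intro z
      show z ∈ sepS (prodS (om N) (om N)) (fun z => ∃ a b u w : N, z = opair u w ∧ opair a u ∈ E ∧ opair b w ∈ E ∧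
        opair a b ∈ RC) ↔ _
      rw [mem_sepS (by fun_prop)]
      constructor
      · rintro ⟨hz, a, b, u, w, rfl, ha, hb, h⟩
        rw [opair_mem_prodS] at hz
        obtain ⟨i, rfl⟩ := (mem_om_iff hN).1 hz.1
        obtain ⟨m, rfl⟩ := (mem_om_iff hN).1 hz.2
        rw [hE''] at ha hb
        subst ha hb
        obtain ⟨x, y, hx, hy, hxy, p, hp, i', x', y', h8, h9⟩ := (hRC _).1 h
        rw [opair_inj] at hxy
        simp only [Prod.mk.injEq] at h8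
        obtain ⟨rfl, rfl⟩ := h8
        have e1 := hjn _ _ hxy.1
        have e2 := hjn _ _ hxy.2
        subst e1 e2
        obtain ⟨rfl, -⟩ := h2 p hp i m y' h9
        exact ⟨i, rfl⟩
      · rintro ⟨i, rfl⟩
        refine ⟨opair_mem_prodS.2 ⟨nu_mem_om _, nu_mem_om _⟩, j (pn i), j (pn (X i)), _, _, rfl, (hE' _ _).2 rfl, (hE' _ _).2 rfl,
          (hRC _).2 ?_⟩
        obtain ⟨g, hg, h5⟩ := h1 i
        exact ⟨_, _, hnm i, hnm (X i), rfl, g, hg, i, X i, Y i, rfl, h5⟩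
    have hfCn : MFn fC := by
      intro W' hW'
      rw [isOmega_iff.1 hW']
      constructor
      · intro z hz
        obtain ⟨i, rfl⟩ := (hfC z).1 hz
        exact ⟨_, _, nu_mem_om _, nu_mem_om _, isPair_iff.2 rfl⟩
      · intro x hx
        obtain ⟨i, rfl⟩ := (mem_om_iff hN).1 hx
        refine ⟨nu N (X i), nu_mem_om _, fun y' => ?_⟩
        simp only [isPair_iff]
        constructor
        · rintro ⟨p, hp, rfl⟩
          obtain ⟨i', h⟩ := (hfC _).1 hp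
          rw [opair_inj] at h
          rw [h.2, nu_inj h.1]
        · rintro rfl
          exact ⟨_, (hfC _).2 ⟨i, rfl⟩, rfl⟩
    have hfCv : ∀ i, decF fC i = X i := by
      intro i
      rw [← mfn_val hN hfCn, mval_iff]
      exact (hfC _).2 ⟨i, rfl⟩
    obtain ⟨g, hg, hev⟩ := hD'.2 fC hfCn
    obtain ⟨ξ, hξ, hξM, hgξ⟩ := (hF _).1 (hFn1 g hg)
    have hgn := hD'.1 g hg
    have hh : ∀ n m, (∃ s ∈ G, (s, pp ξ n, pn m) ∈ R) ↔ decF g n = m := by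
      intro n m
      rw [← hR' _ _ (A.pp_mem hξM n) (hnm m), ht' ξ n m hξ hξM, ← mfn_val hN hgn, mval_iff]
      constructor
      · rintro ⟨g', hg', h5, h6⟩
        rw [hFn2 g g' hg hg' (hgξ.trans h5.symm)]
        exact h6
      · intro h
        exact ⟨g, hg, hgξ, h⟩
    obtain ⟨N0, hN0⟩ := eventually_atTop.1 hev
    obtain ⟨i, hi, x, y, q, hq, h5, h6⟩ := hk ξ hξ hξM (decF g) hh N0
    have h7 := hN0 i hi
    rw [hfCv, ← (h2 q hq i x y h5).1] at h7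
    omega

end Pool.Agent.SSN
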