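import Pool.Agent.SSN.MDefs

/-!
# Colours of partial sums, and the convergence of the subseries
-/

namespace Pool.Agent.SSN

open Set Filter Topology Pool.Agent.Helper79.Ssc

/-- partial sums -/
def psum (a : ℕ → ℕ) (x : ℕ) : ℚ := ∑ j ∈ Finset.range x, rat (a j)

/-- the colour of the rational number `y` at level `i` -/
def col (i : ℕ) (y : ℚ) : ℕ := min (⌊2 ^ i * y⌋ + 4 ^ i).toNat (2 * 4 ^ i)

private theorem col_close (i : ℕ) (a b : ℚ) (ha : |a| ≤ 2 ^ i) (hb : |b| ≤ 2 ^ i)
    (h : col i a = col i b) : |a - b| ≤ (1 / 2) ^ i := by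
  have h2 : (0 : ℚ) < 2 ^ i := by positivity
  have h4 : (4 : ℚ) ^ i = 2 ^ i * 2 ^ i := by
    rw [← mul_pow]; norm_num
  have key : ∀ c : ℚ, |c| ≤ 2 ^ i → 0 ≤ ⌊2 ^ i * c⌋ + 4 ^ i ∧
      (⌊2 ^ i * c⌋ + 4 ^ i).toNat ≤ 2 * 4 ^ i := by
    intro c hc
    obtain ⟨hc1, hc2⟩ := abs_le.1 hc
    constructor
    · have : (-(4 ^ i : ℤ)) ≤ ⌊2 ^ i * c⌋ := by
        rw [Int.le_floor]
        push_cast
        rw [h4]
        nlinarith
      omega
    · have : ⌊2 ^ i * c⌋ ≤ 4 ^ i := by
        have h5 : ((⌊2 ^ i * c⌋ : ℤ) : ℚ) ≤ ((4 ^ i : ℤ) : ℚ) := by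
          refine (Int.floor_le _).trans ?_
          push_cast
          rw [h4]
          nlinarith
        exact_mod_cast h5
      rw [Int.toNat_le]
      push_cast
      omega
  obtain ⟨a1, a2⟩ := key a ha
  obtain ⟨b1, b2⟩ := key b hb
  unfold col at h
  rw [min_eq_left a2, min_eq_left b2] at h
  have hfl : ⌊2 ^ i * a⌋ = ⌊2 ^ i * b⌋ := by omega
  have h6 := Int.abs_sub_lt_one_of_floor_eq_floor hfl
  rw [← mul_sub, abs_mul, abs_of_pos h2] at h6
  rw [one_div, inv_pow, ← one_div, le_div_iff₀ h2, mul_comm]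
  exact h6.le

/-- sums over the elements of a set below a bound -/
private theorem col_nth_sum (P : ℕ → Prop) [DecidablePred P] (hP : (setOf P).Infinite) (g : ℕ → ℝ)
    (n : ℕ) : ∑ k ∈ Finset.range n, g (Nat.nth P k)
      = ∑ j ∈ Finset.range (Nat.nth P n), if P j then g j else 0 := by
  induction n with
  | zero =>
    rw [Finset.sum_range_zero]
    symm
    refine Finset.sum_eq_zero fun j hj => ?_
    rw [if_neg]
    intro hPj
    have h1 : j ∈ Set.range (Nat.nth P) := by
      rw [Nat.range_nth_of_infinite hP]; exact hPj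
    obtain ⟨k, rfl⟩ := h1
    exact absurd (Finset.mem_range.1 hj) (not_lt.2 ((Nat.nth_monotone hP) (Nat.zero_le k)))
  | succ n ih =>
    rw [Finset.sum_range_succ, ih, ← Finset.sum_filter, ← Finset.sum_filter,
      Nat.filter_range_nth_eq_insert_of_infinite hP, Finset.sum_insert, add_comm]
    simp

/-- if the two ends of the block number `i` have the same colour of level `i` for each `i`, then the subseries
along the union of the blocks converges -/
theorem subConv_of_col (f : ℕ → ℕ) (hf : SeriesConv (fun n => (rat (f n) : ℝ))) (x y : ℕ → ℕ)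
    (hxy : ∀ i, x i < y i) (hyx : ∀ i, y i < x (i + 1)) (hcol : ∀ i, col i (psum f (x i)) = col i (psum f (y i))) :
    SubConv {n | ∃ i, x i ≤ n ∧ n < y i} (fun n => rat (f n)) := by
  classical
  set r : ℕ → ℝ := fun n => (rat (f n) : ℝ) with hr
  obtain ⟨l, hl⟩ := hf
  set S : ℕ → ℝ := fun n => ∑ i ∈ Finset.range n, r i with hS
  have hSl : Tendsto S atTop (𝓝 l) := hl
  have hSp : ∀ n, S n = ((psum f n : ℚ) : ℝ) := by
    intro n
    simp only [hS, hr, psum]
    push_cast
    rfl
  have hx : StrictMono x := strictMono_nat_of_lt_succ fun i => (hxy i).trans (hyx i)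
  have hxi : ∀ i, i ≤ x i := fun i => hx.le_apply
  set X : Set ℕ := {n | ∃ i, x i ≤ n ∧ n < y i} with hX
  have hXinf : X.Infinite := by
    refine Set.infinite_of_injective_forall_mem hx.injective fun i => ?_
    exact ⟨i, le_rfl, hxy i⟩
  -- closeness of the ends
  obtain ⟨B, hB⟩ := hSl.abs.bddAbove_range
  have hB' : ∀ n, |S n| ≤ B := fun n => hB ⟨n, rfl⟩
  obtain ⟨I, hI⟩ := pow_unbounded_of_one_lt B (one_lt_two : (1 : ℝ) < 2)
  have hclose : ∀ i, I ≤ i → |S (y i) - S (x i)| ≤ (1 / 2) ^ i := by
    intro i hi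
    have hb : ∀ n, |psum f n| ≤ 2 ^ i := by
      intro n
      have h1 : |S n| ≤ 2 ^ i := (hB' n).trans (hI.le.trans (pow_le_pow_right₀ one_le_two hi))
      rw [hSp] at h1
      exact_mod_cast h1
    have h2 := col_close i _ _ (hb (y i)) (hb (x i)) (hcol i).symm
    rw [hSp, hSp]
    have h3 : ((|psum f (y i) - psum f (x i)| : ℚ) : ℝ) ≤ (((1 / 2) ^ i : ℚ) : ℝ) :=
      Rat.cast_le.2 h2
    push_cast at h3
    exact h3
  -- partial sums of the subseries
  set U : ℕ → ℝ := fun m => ∑ j ∈ Finset.range m, if j ∈ X then r j else 0 with hU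
  have hUs : ∀ m, U (m + 1) = U m + if m ∈ X then r m else 0 := fun m => Finset.sum_range_succ _ _
  have hSs : ∀ m, S (m + 1) = S m + r m := fun m => Finset.sum_range_succ _ _
  have hblock : ∀ i m, x i ≤ m → m ≤ x (i + 1) → U m = U (x i) + (S (min m (y i)) - S (x i)) := by
    intro i m hm
    induction m, hm using Nat.le_induction with
    | base =>
      intro _
      rw [min_eq_left (hxy i).le, sub_self, add_zero]
    | succ m hm ih =>
      intro hm'
      rw [hUs, ih (Nat.le_of_succ_le hm')]
      by_cases h : m < y i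
      · rw [if_pos ⟨i, hm, h⟩, min_eq_left h.le, min_eq_left (Nat.succ_le_of_lt h), hSs]
        ring
      · have hmX : m ∉ X := by
          rintro ⟨j, hj1, hj2⟩
          have hji : j < i + 1 := by
            by_contra hcon
            have := hx.monotone (not_lt.1 hcon)
            omega
          rcases Nat.lt_succ_iff_lt_or_eq.1 hji with h1 | h1
          · have h2 := hyx j
            have h3 := hx.monotone (Nat.succ_le_of_lt h1)
            have h4 : x (j + 1) ≤ x i := h3
            omega
          · rw [h1] at hj2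
            exact h hj2
        rw [if_neg hmX, add_zero, min_eq_right (not_lt.1 h), min_eq_right (by omega)]
  -- the block sums
  have hsum : Summable (fun i => S (y i) - S (x i)) := by
    refine Summable.of_norm_bounded_eventually_nat (g := fun i => (1 / 2 : ℝ) ^ i)
      (summable_geometric_of_lt_one (by norm_num) (by norm_num)) ?_
    filter_upwards [eventually_ge_atTop I] with i hi
    exact hclose i hi
  have hV : ∀ i, U (x i) = U (x 0) + ∑ j ∈ Finset.range i, (S (y j) - S (x j)) := by
    intro i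
    induction i with
    | zero => simp
    | succ i ih =>
      rw [hblock i (x (i + 1)) (hx.monotone (Nat.le_succ i)) le_rfl, min_eq_right (hyx i).le, ih,
        Finset.sum_range_succ]
      ring
  have hVlim : Tendsto (fun i => U (x i)) atTop
      (𝓝 (U (x 0) + ∑' i, (S (y i) - S (x i)))) := by
    exact (tendsto_const_nhds.add hsum.hasSum.tendsto_sum_nat).congr fun i => (hV i).symm
  -- the index of the block
  set idx : ℕ → ℕ := fun m => Nat.findGreatest (fun i => x i ≤ m) m with hidx
  have hidx1 : ∀ m, x 0 ≤ m → x (idx m) ≤ m := fun m hm =>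
    Nat.findGreatest_spec (P := fun i => x i ≤ m) (Nat.zero_le m) hm
  have hidx2 : ∀ m, m < x (idx m + 1) := by
    intro m
    by_contra hcon
    have h1 := not_lt.1 hcon
    have h2 : idx m + 1 ≤ idx m :=
      Nat.le_findGreatest (P := fun i => x i ≤ m) ((hxi _).trans h1) h1
    omega
  have hidx3 : Tendsto idx atTop atTop := by
    refine tendsto_atTop.2 fun i => ?_
    filter_upwards [eventually_ge_atTop (x i)] with m hm
    exact Nat.le_findGreatest (P := fun i => x i ≤ m) ((hxi i).trans hm) hm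
  have hUlim : Tendsto U atTop (𝓝 (U (x 0) + ∑' i, (S (y i) - S (x i)))) := by
    have h1 : Tendsto (fun m => U (x (idx m)) + (S (min m (y (idx m))) - S (x (idx m)))) atTop
        (𝓝 (U (x 0) + ∑' i, (S (y i) - S (x i)) + (l - l))) := by
      refine (hVlim.comp hidx3).add (Tendsto.sub ?_ ?_)
      · refine hSl.comp ?_
        refine tendsto_atTop_mono' atTop ?_ hidx3
        filter_upwards [eventually_ge_atTop (x 0)] with m hm
        refine le_min ((hxi _).trans (hidx1 m hm)) ((hxi _).trans (hxy _).le)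
      · exact hSl.comp (hx.tendsto_atTop.comp hidx3)
    rw [sub_self, add_zero] at h1
    refine h1.congr' ?_
    filter_upwards [eventually_ge_atTop (x 0)] with m hm
    exact (hblock (idx m) m (hidx1 m hm) (hidx2 m).le).symm
  refine ⟨U (x 0) + ∑' i, (S (y i) - S (x i)), ?_⟩
  have h2 := hUlim.comp (Nat.nth_strictMono hXinf).tendsto_atTop
  refine h2.congr fun n => ?_
  exact (col_nth_sum (fun i => i ∈ X) hXinf r n).symm

end Pool.Agent.SSN
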