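import Pool.Agent.SSN.Valid

/-!
# Adding a pair, adding a name
-/

namespace Pool.Agent.SSN

open Set

variable {W : Type} [LinearOrder W] [WellFoundedLT W] {D : Set W}

open Classical in
/-- append `L` at the coordinate `ξ` -/
noncomputable def apnd (p : Cond W) (ξ : W) (L : List (ℕ × ℕ)) : Cond W :=
  .mk (fun η => if η = ξ then p.s η ++ L else p.s η) p.l p.T p.v

omit [WellFoundedLT W] in
private theorem apnd_s_self (p : Cond W) (ξ : W) (L : List (ℕ × ℕ)) :
    (apnd p ξ L).s ξ = p.s ξ ++ L := by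
  classical
  exact if_pos rfl

omit [WellFoundedLT W] in
private theorem apnd_s_ne (p : Cond W) {ξ η : W} (h : η ≠ ξ) (L : List (ℕ × ℕ)) :
    (apnd p ξ L).s η = p.s η := by
  classical
  exact if_neg h

omit [WellFoundedLT W] in
private theorem apnd_l (p : Cond W) (ξ η : W) (L : List (ℕ × ℕ)) : (apnd p ξ L).l η = p.l η := rfl
omit [WellFoundedLT W] in
private theorem apnd_T (p : Cond W) (ξ η : W) (L : List (ℕ × ℕ)) : (apnd p ξ L).T η = p.T η := rfl
omit [WellFoundedLT W] in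
private theorem apnd_v (p : Cond W) (ξ η : W) (L : List (ℕ × ℕ)) : (apnd p ξ L).v η = p.v η := rfl

omit [WellFoundedLT W] in
private theorem apnd_res (p : Cond W) (ξ : W) (L : List (ℕ × ℕ)) : (apnd p ξ L).res ξ = p.res ξ := by
  unfold Cond.res
  congr 1
  funext η
  by_cases h : η < ξ
  · rw [if_pos h, if_pos h, apnd_s_ne p h.ne]
  · rw [if_neg h, if_neg h]

theorem apnd_mem {p : Cond W} {ξ : W} {L : List (ℕ × ℕ)} (hp : p ∈ PP D) (h : Inc (p.s ξ ++ L)) : apnd p ξ L ∈ PP D := by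
  refine ⟨⟨?_, fun η => ?_, fun η hη => hp.1.nD η hη⟩, fun η t ht => hp.2 η t ht⟩
  · refine (hp.1.fin.union (finite_singleton ξ)).subset ?_
    intro η hη
    by_cases h1 : η = ξ
    · exact Or.inr h1
    · left
      simp only [supp, mem_ofPred_eq, apnd_s_ne p h1, apnd_l] at hη ⊢
      exact hη
  · by_cases h1 : η = ξ
    · subst h1
      rw [apnd_s_self]
      exact h
    · rw [apnd_s_ne p h1]
      exact hp.1.inc η

omit [WellFoundedLT W] in
theorem apnd_ext {p : Cond W} {ξ : W} {L : List (ℕ × ℕ)}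
    (h : ∀ t < p.l ξ, ∀ i x y, (p.s ξ).length ≤ i → (p.s ξ ++ L)[i]? = some (x, y) →
      ∃ n m, p.v ξ t (Nat.pair i x) n = p.v ξ t (Nat.pair i y) m ∧
        Ext (p.T ξ t (Nat.pair i x) n) (p.res ξ) ∧ Ext (p.T ξ t (Nat.pair i y) m) (p.res ξ)) : Ext p (apnd p ξ L) := by
  rw [Ext_iff]
  refine ⟨fun η => ?_, fun η t ht => ⟨t, ht, rfl, rfl⟩, fun η t ht i x y hi hxy => ?_⟩
  · by_cases h1 : η = ξ
    · subst h1
      rw [apnd_s_self]
      exact List.prefix_append _ _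
    · rw [apnd_s_ne p h1]
  · by_cases h1 : η = ξ
    · subst h1
      rw [apnd_s_self] at hxy
      rw [apnd_res]
      exact h t ht i x y hi hxy
    · rw [apnd_s_ne p h1] at hxy
      obtain ⟨h2, -⟩ := List.getElem?_eq_some_iff.1 hxy
      omega

/-- deciding finitely many values of the names at `ξ` -/
theorem exists_decide {p : Cond W} (hp : p ∈ PP D) (ξ : W) {r : Cond W} (hr : r ∈ Val D ξ) (h : Ext (p.res ξ) r) (N : ℕ) :
    ∃ r' ∈ Val D ξ, Ext r r' ∧ ∀ t < p.l ξ, ∀ e < N, ∃ n, Ext (p.T ξ t e n) r' := by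
  have key : ∀ S : Finset (ℕ × ℕ), (∀ x ∈ S, x.1 < p.l ξ) →
      ∃ r' ∈ Val D ξ, Ext r r' ∧ ∀ x ∈ S, ∃ n, Ext (p.T ξ x.1 x.2 n) r' := by
    intro S
    induction S using Finset.induction_on with
    | empty => exact fun _ => ⟨r, hr, Ext.refl r, fun x hx => absurd hx (Finset.notMem_empty x)⟩
    | insert a S _ ih =>
      intro hS
      obtain ⟨r', hr', h1, h2⟩ := ih fun x hx => hS x (Finset.mem_insert_of_mem hx)
      obtain ⟨r'', hr'', h3, n, h4⟩ := (PP.leg hp (hS a (Finset.mem_insert_self _ _))).dense a.2 r' hr'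
      refine ⟨r'', hr'', h1.trans h3, fun x hx => ?_⟩
      rcases Finset.mem_insert.1 hx with rfl | hx
      · exact ⟨n, h4⟩
      · obtain ⟨m, hm⟩ := h2 x hx
        exact ⟨m, hm.trans h3⟩
  obtain ⟨r', hr', h1, h2⟩ := key (Finset.range (p.l ξ) ×ˢ Finset.range N) fun x hx =>
    Finset.mem_range.1 (Finset.mem_product.1 hx).1
  exact ⟨r', hr', h1, fun t ht e he =>
    h2 (t, e) (Finset.mem_product.2 ⟨Finset.mem_range.2 ht, Finset.mem_range.2 he⟩)⟩

private theorem step_inc {S : List (ℕ × ℕ)} (h : Inc S) {x y : ℕ} (hxy : x < y)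
    (hS : ∀ z ∈ S, z.2 < x) : Inc (S ++ [(x, y)]) := by
  have hlen : (S ++ [(x, y)]).length = S.length + 1 := by simp
  have hlast : ∀ i a b : ℕ, S.length ≤ i → (S ++ [(x, y)])[i]? = some (a, b) →
      i = S.length ∧ a = x ∧ b = y := by
    intro i a b hi hab
    obtain ⟨h1, -⟩ := List.getElem?_eq_some_iff.1 hab
    rw [hlen] at h1
    obtain rfl : i = S.length := by omega
    rw [List.getElem?_append_right le_rfl, Nat.sub_self] at hab
    simp only [List.getElem?_cons_zero, Option.some.injEq, Prod.mk.injEq] at hab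
    exact ⟨rfl, hab.1.symm, hab.2.symm⟩
  have hinit : ∀ i a b : ℕ, i < S.length → (S ++ [(x, y)])[i]? = some (a, b) →
      S[i]? = some (a, b) := by
    intro i a b hi hab
    rwa [List.getElem?_append_left hi] at hab
  constructor
  · intro i a b hab
    rcases Nat.lt_or_ge i S.length with hi | hi
    · exact h.1 i a b (hinit i a b hi hab)
    · obtain ⟨-, rfl, rfl⟩ := hlast i a b hi hab
      exact hxy
  · intro i a b a' b' hab hab'
    rcases Nat.lt_or_ge (i + 1) S.length with hi | hi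
    · exact h.2 i a b a' b' (hinit i a b (by omega) hab) (hinit _ _ _ hi hab')
    · obtain ⟨h1, rfl, rfl⟩ := hlast _ a' b' hi hab'
      exact hS (a, b) (List.mem_of_getElem? (hinit i a b (by omega) hab))

/-- another pair, as far out as we like -/
theorem exists_step {p : Cond W} (hp : p ∈ PP D) (ξ : W) (N : ℕ) :
    ∃ q ∈ PP D, Ext p q ∧ ∃ x y, N ≤ x ∧ q.s ξ = p.s ξ ++ [(x, y)] := by
  classical
  obtain ⟨N', hN', hN⟩ : ∃ N' : ℕ, (∀ z ∈ p.s ξ, z.2 < N') ∧ N ≤ N' := by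
    refine ⟨max N ((p.s ξ).toFinset.sup Prod.snd + 1), fun z hz => ?_, le_max_left _ _⟩
    have h1 : z.2 ≤ (p.s ξ).toFinset.sup Prod.snd :=
      Finset.le_sup (f := Prod.snd) (List.mem_toFinset.2 hz)
    exact lt_of_lt_of_le (Nat.lt_succ_of_le h1) (le_max_right _ _)
  obtain ⟨i, hi⟩ : ∃ i, i = (p.s ξ).length := ⟨_, rfl⟩
  let M : ℕ := Fintype.card (Fin (p.l ξ) → Fin (2 * 4 ^ i + 1))
  let e : Fin (M + 1) → ℕ := fun k => Nat.pair i (N' + k)
  obtain ⟨r, hr, hpr, hd⟩ := exists_decide hp ξ (res_mem hp ξ) (Ext.refl _)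
    ((Finset.univ : Finset (Fin (M + 1))).sup e + 1)
  have he : ∀ k, e k < (Finset.univ : Finset (Fin (M + 1))).sup e + 1 := fun k =>
    Nat.lt_succ_of_le (Finset.le_sup (f := e) (Finset.mem_univ k))
  choose n hn using fun (t : Fin (p.l ξ)) (k : Fin (M + 1)) => hd t t.2 (e k) (he k)
  have hv : ∀ (t : Fin (p.l ξ)) (k : Fin (M + 1)), p.v ξ t (e k) (n t k) < 2 * 4 ^ i + 1 := by
    intro t k
    have h1 := (PP.leg hp t.2).lt (e k) (n t k)
    have h2 : bnd (e k) = 2 * 4 ^ i + 1 := by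
      unfold bnd
      rw [Nat.unpair_pair]
    rwa [h2] at h1
  let g : Fin (M + 1) → (Fin (p.l ξ) → Fin (2 * 4 ^ i + 1)) := fun k t => ⟨_, hv t k⟩
  obtain ⟨k, k', hkk, hg⟩ : ∃ k k' : Fin (M + 1), k < k' ∧ g k = g k' := by
    obtain ⟨k, k', hne, hg⟩ := Fintype.exists_ne_map_eq_of_card_lt g (by
      rw [Fintype.card_fin]
      exact Nat.lt_succ_self _)
    rcases lt_or_gt_of_ne hne with h | h
    · exact ⟨k, k', h, hg⟩
    · exact ⟨k', k, h, hg.symm⟩
  have hgs : (glue p ξ r).s ξ = p.s ξ := by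
    rw [glue_s, if_neg (lt_irrefl ξ)]
  have hgl : (glue p ξ r).l ξ = p.l ξ := by
    rw [glue_l, if_neg (lt_irrefl ξ)]
  have hgT : (glue p ξ r).T ξ = p.T ξ := by
    rw [glue_T, if_neg (lt_irrefl ξ)]
  have hgv : (glue p ξ r).v ξ = p.v ξ := by
    rw [glue_v, if_neg (lt_irrefl ξ)]
  refine ⟨apnd (glue p ξ r) ξ [(N' + (k : ℕ), N' + (k' : ℕ))], apnd_mem (glue_mem hp hr) ?_,
    (glue_ext hpr).trans (apnd_ext ?_), N' + k, N' + k', by omega, ?_⟩
  · rw [hgs]
    refine step_inc (hp.1.inc ξ) ?_ fun z hz => lt_of_lt_of_le (hN' z hz) (Nat.le_add_right _ _)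
    have : (k : ℕ) < (k' : ℕ) := hkk
    omega
  · intro t ht j x y hj hxy
    rw [hgl] at ht
    rw [hgs] at hj hxy
    obtain ⟨h1, -⟩ := List.getElem?_eq_some_iff.1 hxy
    rw [List.length_append, List.length_singleton] at h1
    obtain rfl : j = i := by omega
    rw [hi, List.getElem?_append_right le_rfl, Nat.sub_self] at hxy
    simp only [List.getElem?_cons_zero, Option.some.injEq, Prod.mk.injEq] at hxy
    obtain ⟨rfl, rfl⟩ := hxy
    rw [hgT, hgv, glue_res p r ξ le_rfl]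
    refine ⟨n ⟨t, ht⟩ k, n ⟨t, ht⟩ k', ?_, ?_, ?_⟩
    · have h2 := congrArg Fin.val (congrFun hg ⟨t, ht⟩)
      exact h2
    · exact Ext.res_of_val ((PP.leg hp ht).mem _ _) (hn ⟨t, ht⟩ k)
    · exact Ext.res_of_val ((PP.leg hp ht).mem _ _) (hn ⟨t, ht⟩ k')
  · rw [apnd_s_self, hgs]

/-- another name -/
theorem exists_add {p : Cond W} (hp : p ∈ PP D) {ξ : W} (hξ : ξ ∉ D) {T : ℕ → ℕ → Cond W} {v : ℕ → ℕ → ℕ}
    (h : Legit (Val D ξ) T v) :
    ∃ q ∈ PP D, Ext p q ∧ q.s = p.s ∧ ∃ t < q.l ξ, q.T ξ t = T ∧ q.v ξ t = v := by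
  classical
  obtain ⟨q, hqs, hql, hqT, hqv⟩ : ∃ q : Cond W, q.s = p.s ∧
      (q.l = fun η => if η = ξ then p.l η + 1 else p.l η) ∧
      (q.T = fun η t => if η = ξ ∧ t = p.l ξ then T else p.T η t) ∧
      (q.v = fun η t => if η = ξ ∧ t = p.l ξ then v else p.v η t) :=
    ⟨.mk p.s (fun η => if η = ξ then p.l η + 1 else p.l η)
      (fun η t => if η = ξ ∧ t = p.l ξ then T else p.T η t)
      (fun η t => if η = ξ ∧ t = p.l ξ then v else p.v η t), rfl, rfl, rfl, rfl⟩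
  have hT : ∀ η t, t < p.l η → q.T η t = p.T η t := by
    intro η t ht
    rw [hqT]
    refine if_neg ?_
    rintro ⟨rfl, rfl⟩
    exact lt_irrefl _ ht
  have hv : ∀ η t, t < p.l η → q.v η t = p.v η t := by
    intro η t ht
    rw [hqv]
    refine if_neg ?_
    rintro ⟨rfl, rfl⟩
    exact lt_irrefl _ ht
  have hl : ∀ η, η ≠ ξ → q.l η = p.l η := fun η hη => by rw [hql]; exact if_neg hη
  have hlξ : q.l ξ = p.l ξ + 1 := by rw [hql]; exact if_pos rfl
  have hle : ∀ η, p.l η ≤ q.l η := by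
    intro η
    by_cases h1 : η = ξ
    · subst h1
      omega
    · rw [hl η h1]
  refine ⟨q, ⟨⟨?_, ?_, ?_⟩, ?_⟩, ?_, hqs, p.l ξ, by omega, ?_, ?_⟩
  · refine (hp.1.fin.union (finite_singleton ξ)).subset ?_
    intro η hη
    by_cases h1 : η = ξ
    · exact Or.inr h1
    · left
      simp only [supp, mem_ofPred_eq, hqs, hl η h1] at hη ⊢
      exact hη
  · intro η
    rw [hqs]
    exact hp.1.inc η
  · intro η hη
    rw [hl η (fun h1 => hξ (h1 ▸ hη))]
    exact hp.1.nD η hη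
  · intro η t ht
    rcases Nat.lt_or_ge t (p.l η) with h1 | h1
    · rw [hT η t h1, hv η t h1]
      exact hp.2 η t h1
    · have h2 : η = ξ := by
        by_contra h2
        rw [hl η h2] at ht
        omega
      subst h2
      obtain rfl : t = p.l η := by omega
      rw [hqT, hqv]
      simpa using h
  · rw [Ext_iff]
    refine ⟨fun η => by rw [hqs], fun η t ht => ⟨t, lt_of_lt_of_le ht (hle η), (hT η t ht).symm,
      (hv η t ht).symm⟩, fun η t ht i x y hi hxy => ?_⟩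
    rw [hqs] at hxy
    obtain ⟨h2, -⟩ := List.getElem?_eq_some_iff.1 hxy
    omega
  · rw [hqT]
    simp
  · rw [hqv]
    simp

end Pool.Agent.SSN
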