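import Pool.Agent.SSN.Ccc
import Pool.Agent.SSN.Step
import Pool.Agent.SSN.Col

/-!
# A name of a series is captured by a name of a colouring
-/

namespace Pool.Agent.SSN

open Set

variable {W : Type} [LinearOrder W] [WellFoundedLT W] {D : Set W}

private theorem cap_mem_Val {ξ : W} {a : Cond W} (ha : a ∈ PP D) (h : ∀ η ∈ supp a, η < ξ) : a ∈ Val D ξ := by
  refine mem_Val_iff.2 ⟨ha, fun η hη => ?_⟩
  by_contra hcon
  have : η ∈ supp a := by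
    simp only [supp, mem_ofPred_eq]
    by_contra h'
    simp only [not_or, not_not] at h'
    exact hcon h'
  exact absurd (h η this) (not_lt.2 hη)

private theorem cap_col_lt (e : ℕ) (y : ℚ) : col (Nat.unpair e).1 y < bnd e := by
  unfold col bnd
  exact lt_of_le_of_lt (min_le_right _ _) (Nat.lt_succ_self _)

private theorem cap_iterate {ξ : W} {R : ℕ → ℕ → Set (Cond W)}
    (hop : ∀ n m, ∀ r ∈ PP D, ∀ r' ∈ PP D, r ∈ R n m → Ext r r' → r' ∈ R n m) {p : Cond W}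
    (key : ∀ n, ∀ r ∈ Val D ξ, Ext p r → ∃ r' ∈ Val D ξ, Ext r r' ∧ ∃ m, r' ∈ R n m) (x : ℕ) :
    ∀ r ∈ Val D ξ, Ext p r → ∃ r' ∈ Val D ξ, Ext r r' ∧ ∃ a : ℕ → ℕ, ∀ j < x, r' ∈ R j (a j) := by
  induction x with
  | zero => exact fun r hr _ => ⟨r, hr, Ext.refl r, fun _ => 0, fun j hj => by omega⟩
  | succ x ih =>
    intro r hr hpr
    obtain ⟨r1, hr1, h1, a, ha⟩ := ih r hr hpr
    obtain ⟨r2, hr2, h2, m, hm⟩ := key x r1 hr1 (hpr.trans h1)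
    refine ⟨r2, hr2, h1.trans h2, fun j => if j = x then m else a j, fun j hj => ?_⟩
    by_cases hjx : j = x
    · subst hjx
      simpa using hm
    · simp only [hjx, if_false]
      exact hop j (a j) r1 (Val.pp hr1) r2 (Val.pp hr2) (ha j (by omega)) h2

/-- `R n m` is the set of conditions which force `f(n) = m`; below `p` all values are decided densely -/
theorem exists_capture (hcof : ∀ A : Set W, A.Countable → ∃ ξ, ξ ∉ D ∧ ∀ a ∈ A, a < ξ)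
    (R : ℕ → ℕ → Set (Cond W))
    (hop : ∀ n m, ∀ r ∈ PP D, ∀ r' ∈ PP D, r ∈ R n m → Ext r r' → r' ∈ R n m)
    (hcoh : ∀ n m m', ∀ r ∈ PP D, r ∈ R n m → r ∈ R n m' → m = m')
    {p : Cond W} (hp : p ∈ PP D) (hdec : ∀ r ∈ PP D, Ext p r → ∀ n, ∃ r' ∈ PP D, Ext r r' ∧ ∃ m, r' ∈ R n m) :
    ∃ ξ, ξ ∉ D ∧ ∃ q ∈ PP D, Ext p q ∧ q.s ξ = [] ∧ ∃ t < q.l ξ, ∀ e k, ¬ Compat (PP D) p (q.T ξ t e k) ∨
      ∃ a : ℕ → ℕ, (∀ j < (Nat.unpair e).2, q.T ξ t e k ∈ R j (a j)) ∧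
        q.v ξ t e k = col (Nat.unpair e).1 (psum a (Nat.unpair e).2) := by
  -- the antichains
  have hAn : ∀ n : ℕ, ∃ A ⊆ {r : Cond W | r ∈ PP D ∧ Ext p r ∧ ∃ m, r ∈ R n m}, A.Countable ∧
      ∀ r ∈ {r : Cond W | r ∈ PP D ∧ Ext p r ∧ ∃ m, r ∈ R n m}, ∃ a ∈ A, Compat (PP D) a r :=
    fun n => exists_antichain _ (fun r hr => hr.1)
  choose A hA hAc hAm using hAn
  -- the coordinate
  have hcount : (supp p ∪ ⋃ n, ⋃ a ∈ A n, supp a).Countable := by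
    refine hp.1.fin.countable.union (countable_iUnion fun n => (hAc n).biUnion fun a ha => ?_)
    exact (hA n ha).1.1.fin.countable
  obtain ⟨ξ, hξ, hlt⟩ := hcof _ hcount
  have hpV : p ∈ Val D ξ := cap_mem_Val hp (fun η hη => hlt η (Or.inl hη))
  have haV : ∀ n, ∀ a ∈ A n, a ∈ Val D ξ := fun n a ha => cap_mem_Val (hA n ha).1 (fun η hη =>
    hlt η (Or.inr (mem_iUnion.2 ⟨n, mem_iUnion₂.2 ⟨a, ha, hη⟩⟩)))
  -- deciding one value
  have key : ∀ n, ∀ r ∈ Val D ξ, Ext p r → ∃ r' ∈ Val D ξ, Ext r r' ∧ ∃ m, r' ∈ R n m := by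
    intro n r hr hpr
    obtain ⟨r', hr', h1, m, hm⟩ := hdec r (Val.pp hr) hpr n
    obtain ⟨a, ha, c, hc, h2, h3⟩ := hAm n r' ⟨hr', hpr.trans h1, m, hm⟩
    obtain ⟨haP, -, m', hm'⟩ := hA n ha
    refine ⟨c.res ξ, res_mem hc ξ, (h1.trans h3).res_of_val hr, m', ?_⟩
    exact hop n m' a haP _ (Val.pp (res_mem hc ξ)) hm' (h2.res_of_val (haV n a ha))
  have iter := fun x => cap_iterate (D := D) (ξ := ξ) hop key x
  -- the open sets
  let O : ℕ → ℕ → Set (Cond W) := fun e c => {r | r ∈ Val D ξ ∧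
    ((Ext p r ∧ ∃ a : ℕ → ℕ, (∀ j < (Nat.unpair e).2, r ∈ R j (a j)) ∧
      c = col (Nat.unpair e).1 (psum a (Nat.unpair e).2)) ∨ (¬ Compat (PP D) p r ∧ c = 0))}
  obtain ⟨T, v, hleg, hT⟩ := exists_nice (D := D) ξ O (fun e w r hr => hr.1)
    (by
      rintro e w r ⟨hr, h⟩ r' hr' hrr'
      refine ⟨hr', ?_⟩
      rcases h with ⟨h1, a, h2, h3⟩ | ⟨h1, h2⟩
      · exact Or.inl ⟨h1.trans hrr', a, fun j hj => hop j (a j) r (Val.pp hr) r' (Val.pp hr') (h2 j hj) hrr', h3⟩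
      · refine Or.inr ⟨?_, h2⟩
        rintro ⟨c, hc, h3, h4⟩
        exact h1 ⟨c, hc, h3, hrr'.trans h4⟩)
    (by
      intro e r hr
      by_cases hcomp : Compat (PP D) p r
      · obtain ⟨c, hc, h1, h2⟩ := Compat.val hpV hr hcomp
        obtain ⟨r', hr', h3, a, ha⟩ := iter (Nat.unpair e).2 c hc h1
        exact ⟨r', hr', h2.trans h3, _, cap_col_lt e _, hr', Or.inl ⟨h1.trans h3, a, ha, rfl⟩⟩
      · exact ⟨r, hr, Ext.refl r, 0, Nat.succ_pos _, hr, Or.inr ⟨hcomp, rfl⟩⟩)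
    (by
      rintro e w w' r ⟨hr, h⟩ ⟨-, h'⟩
      rcases h with ⟨h1, a, h2, h3⟩ | ⟨h1, h2⟩
      · rcases h' with ⟨-, a', h2', h3'⟩ | ⟨h1', -⟩
        · rw [h3, h3']
          have : psum a (Nat.unpair e).2 = psum a' (Nat.unpair e).2 := by
            unfold psum
            refine Finset.sum_congr rfl fun j hj => ?_
            rw [hcoh j (a j) (a' j) r (Val.pp hr) (h2 j (Finset.mem_range.1 hj)) (h2' j (Finset.mem_range.1 hj))]
          rw [this]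
        · exact absurd ⟨r, Val.pp hr, h1, Ext.refl r⟩ h1'
      · rcases h' with ⟨h1', -⟩ | ⟨-, h2'⟩
        · exact absurd ⟨r, Val.pp hr, h1', Ext.refl r⟩ h1
        · rw [h2, h2'])
  obtain ⟨q, hq, hpq, hs, t, ht, hqT, hqv⟩ := exists_add hp hξ hleg
  refine ⟨ξ, hξ, q, hq, hpq, ?_, t, ht, fun e k => ?_⟩
  · rw [hs]
    exact ((mem_Val_iff.1 hpV).2 ξ le_rfl).1
  · rw [hqT, hqv]
    obtain ⟨-, h⟩ := hT e k
    rcases h with ⟨-, a, h2, h3⟩ | ⟨h1, -⟩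
    · exact Or.inr ⟨a, h2, h3⟩
    · exact Or.inl h1

end Pool.Agent.SSN
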