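import Mathlib

/-!
# A Delta-system lemma for sequences
-/

namespace Pool.Agent.SSN

private theorem delta_aux_pigeon {I J : Type} [Countable J] {A : Set I} (hA : ¬ A.Countable) (g : I → J) :
    ∃ j, ¬ (A ∩ {i | g i = j}).Countable := by
  by_contra h
  push Not at h
  apply hA
  have : A = ⋃ j, A ∩ {i | g i = j} := by
    ext i; simp
  rw [this]
  exact Set.countable_iUnion h

private theorem delta_aux {I W C : Type} [Countable C] (info : I → W → C) (n : ℕ) :
    ∀ (S : I → Set W) (_ : ∀ i, (S i).Finite) (A : Set I) (_ : ¬ A.Countable)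
      (_ : ∀ i ∈ A, (S i).ncard = n),
    ∃ (f : ℕ → I) (R : Finset W) (σ : W → C), Function.Injective f ∧ (∀ n, f n ∈ A) ∧
      (∀ n, (R : Set W) ⊆ S (f n)) ∧ (∀ n m, n ≠ m → S (f n) ∩ S (f m) ⊆ R) ∧
      ∀ n, ∀ ξ ∈ R, info (f n) ξ = σ ξ := by
  classical
  induction n with
  | zero =>
    intro S hfin A hA hn
    have hinf : A.Infinite := fun h => hA h.countable
    have hS : ∀ i ∈ A, S i = ∅ := fun i hi => (Set.ncard_eq_zero (hfin i)).1 (hn i hi)
    refine ⟨fun k => (hinf.natEmbedding A k : I), ∅, ?_, ?_, ?_, ?_, ?_, ?_⟩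
    · exact fun w => info (hinf.natEmbedding A 0 : I) w
    · exact fun a b hab => (hinf.natEmbedding A).injective (Subtype.ext hab)
    · exact fun k => (hinf.natEmbedding A k).2
    · intro k; simp
    · intro k l _
      rw [hS _ (hinf.natEmbedding A k).2]; simp
    · intro k ξ hξ; simp at hξ
  | succ n ih =>
    intro S hfin A hA hn
    by_cases hc : ∃ ξ, ¬ (A ∩ {i | ξ ∈ S i}).Countable
    · obtain ⟨ξ, hξ⟩ := hc
      obtain ⟨c, hc⟩ := delta_aux_pigeon hξ (fun i => info i ξ)
      obtain ⟨f, R, σ, hf, hfA, hR, hint, hinfo⟩ := ih (fun i => S i \ {ξ}) (fun i => (hfin i).sdiff)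
        _ hc (by
          rintro i ⟨⟨hi1, hi2⟩, -⟩
          have hi3 : ξ ∈ S i := hi2
          rw [Set.ncard_sdiff_singleton_of_mem hi3, hn i hi1]
          rfl)
      have hξR : ξ ∉ R := fun h => (hR 0 h).2 rfl
      refine ⟨f, insert ξ R, Function.update σ ξ c, hf, fun k => (hfA k).1.1, ?_, ?_, ?_⟩
      · intro k w hw
        rw [Finset.coe_insert] at hw
        rcases hw with rfl | hw
        · exact (hfA k).1.2
        · exact (hR k hw).1
      · intro k l hkl w hw
        rw [Finset.coe_insert]
        by_cases hwξ : w = ξ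
        · exact Or.inl hwξ
        · exact Or.inr (hint k l hkl ⟨⟨hw.1, hwξ⟩, ⟨hw.2, hwξ⟩⟩)
      · intro k w hw
        rw [Finset.mem_insert] at hw
        rcases hw with rfl | hw
        · rw [Function.update_self]; exact (hfA k).2
        · have hne : w ≠ ξ := by
            rintro rfl
            exact hξR hw
          rw [Function.update_of_ne hne]
          exact hinfo k w hw
    · push Not at hc
      have hgreedy := exists_seq_of_forall_finset_exists (α := I) (fun i => i ∈ A)
        (fun x y => x ≠ y ∧ Disjoint (S x) (S y)) (by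
          intro s hs
          by_contra hcon
          push Not at hcon
          apply hA
          have hsub : A ⊆ (s : Set I) ∪ ⋃ w ∈ (⋃ x ∈ s, S x), A ∩ {i | w ∈ S i} := by
            intro y hy
            obtain ⟨x, hx, hxy⟩ := hcon y hy
            by_cases hxy' : x = y
            · left; rw [← hxy']; exact hx
            · right
              have h1 := hxy hxy'
              rw [Set.not_disjoint_iff] at h1
              obtain ⟨w, hw1, hw2⟩ := h1
              simp only [Set.mem_iUnion]
              exact ⟨w, ⟨x, hx, hw1⟩, hy, hw2⟩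
          refine Set.Countable.mono hsub (s.countable_toSet.union ?_)
          refine Set.Countable.biUnion ?_ (fun w _ => hc w)
          exact (s.finite_toSet.biUnion (fun x _ => hfin x)).countable)
      obtain ⟨f, hfA, hf⟩ := hgreedy
      have hdis : ∀ k l, k ≠ l → f k ≠ f l ∧ Disjoint (S (f k)) (S (f l)) := by
        intro k l hkl
        rcases lt_or_gt_of_ne hkl with h | h
        · exact hf k l h
        · exact ⟨(hf l k h).1.symm, (hf l k h).2.symm⟩
      refine ⟨f, ∅, fun w => info (f 0) w, ?_, hfA, ?_, ?_, ?_⟩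
      · intro k l hkl
        by_contra h
        exact (hdis k l h).1 hkl
      · intro k; simp
      · intro k l hkl
        rw [(hdis k l hkl).2.inter_eq]; simp
      · intro k ξ hξ; simp at hξ

/-- in an uncountable family of finite sets whose elements carry a colour (from a countable set) there is a
sequence which is a Delta-system and whose colours agree on the root -/
theorem exists_delta {I W C : Type} [Countable C] [Uncountable I] (S : I → Set W) (hfin : ∀ i, (S i).Finite)
    (info : I → W → C) : ∃ (f : ℕ → I) (R : Finset W) (σ : W → C), Function.Injective f ∧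
      (∀ n, (R : Set W) ⊆ S (f n)) ∧ (∀ n m, n ≠ m → S (f n) ∩ S (f m) ⊆ R) ∧
      ∀ n, ∀ ξ ∈ R, info (f n) ξ = σ ξ := by
  have hA : ¬ (Set.univ : Set I).Countable := Set.not_countable_univ
  obtain ⟨n, hn⟩ := delta_aux_pigeon hA (fun i => (S i).ncard)
  obtain ⟨f, R, σ, h1, -, h3⟩ := delta_aux info n S hfin _ hn (fun i hi => hi.2)
  exact ⟨f, R, σ, h1, h3⟩

end Pool.Agent.SSN
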