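import Pool.Agent.SSN.Valid
import Pool.Agent.SSN.Delta

/-!
# The countable chain condition and nice names
-/

namespace Pool.Agent.SSN

open Set

variable {W : Type} [LinearOrder W] [WellFoundedLT W] {D : Set W}

/-- a sequence of conditions with the same data on the root of their supports -/
structure Delt (D : Set W) (R : Finset W) (q : ℕ → Cond W) (σ : W → List (ℕ × ℕ)) (lam : W → ℕ) : Prop where
  mem : ∀ n, q n ∈ PP D
  dis : ∀ n m, n ≠ m → supp (q n) ∩ supp (q m) ⊆ R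
  s : ∀ n, ∀ ξ ∈ R, (q n).s ξ = σ ξ
  l : ∀ n, ∀ ξ ∈ R, (q n).l ξ = lam ξ

theorem exists_seq {I : Type} [Uncountable I] (p : I → Cond W) (hp : ∀ i, p i ∈ PP D) :
    ∃ (f : ℕ → I) (R : Finset W) (σ : W → List (ℕ × ℕ)) (lam : W → ℕ), Function.Injective f ∧
      Delt D R (fun n => p (f n)) σ lam := by
  obtain ⟨f, R, σ, hf, -, hdis, hinfo⟩ := exists_delta (fun i => supp (p i)) (fun i => (hp i).1.fin)
    (fun i ξ => ((p i).s ξ, (p i).l ξ))
  refine ⟨f, R, fun ξ => (σ ξ).1, fun ξ => (σ ξ).2, hf, ⟨fun n => hp _, hdis, fun n ξ hξ => ?_,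
    fun n ξ hξ => ?_⟩⟩
  · exact congrArg Prod.fst (hinfo n ξ hξ)
  · exact congrArg Prod.snd (hinfo n ξ hξ)

omit [LinearOrder W] [WellFoundedLT W] in
private theorem triv_of_not_mem {p : Cond W} {ξ : W} (h : ξ ∉ supp p) : Triv p ξ := by
  simp only [supp, mem_ofPred_eq, not_or, not_not] at h
  exact h

theorem Delt.compat {R : Finset W} {q : ℕ → Cond W} {σ : W → List (ℕ × ℕ)} {lam : W → ℕ}
    (h : Delt D R q σ lam) (n m : ℕ) : Compat (PP D) (q n) (q m) := by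
  by_cases hnm : n = m
  · subst hnm
    exact ⟨q n, h.mem n, Ext.refl _, Ext.refl _⟩
  · apply Agree.compat (h.mem n) (h.mem m)
    intro ξ
    by_cases hξ : ξ ∈ R
    · exact Or.inl ((h.s n ξ hξ).trans (h.s m ξ hξ).symm)
    · right
      by_cases h1 : ξ ∈ supp (q n)
      · right
        apply triv_of_not_mem
        intro h2
        exact hξ (h.dis n m hnm ⟨h1, h2⟩)
      · exact Or.inl (triv_of_not_mem h1)

theorem ccc (A : Set (Cond W)) (hA : A ⊆ PP D) (h : ∀ p ∈ A, ∀ q ∈ A, p ≠ q → ¬ Compat (PP D) p q) : A.Countable := by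
  by_contra hc
  have : Uncountable A := by
    rw [← not_countable_iff]
    intro h'
    exact hc (Set.countable_coe_iff.1 h')
  obtain ⟨f, R, σ, lam, hf, hD⟩ := exists_seq (D := D) (fun a : A => a.1) (fun a => hA a.2)
  have h1 := hD.compat 0 1
  refine h _ (f 0).2 _ (f 1).2 ?_ h1
  intro h2
  have := hf (Subtype.ext h2)
  omega

/-- maximal antichains -/
theorem exists_antichain (O : Set (Cond W)) (hO : O ⊆ PP D) :
    ∃ A ⊆ O, A.Countable ∧ ∀ r ∈ O, ∃ a ∈ A, Compat (PP D) a r := by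
  obtain ⟨A, hA⟩ := zorn_subset {A : Set (Cond W) | A ⊆ O ∧
      ∀ p ∈ A, ∀ q ∈ A, p ≠ q → ¬ Compat (PP D) p q} (by
    intro c hc hchain
    refine ⟨⋃₀ c, ⟨?_, ?_⟩, fun s hs => subset_sUnion_of_mem hs⟩
    · exact sUnion_subset fun s hs => (hc hs).1
    · rintro p ⟨s, hs, hps⟩ q ⟨t, ht, hqt⟩ hpq
      rcases hchain.total hs ht with hst | hst
      · exact (hc ht).2 p (hst hps) q hqt hpq
      · exact (hc hs).2 p hps q (hst hqt) hpq)
  refine ⟨A, hA.prop.1, ccc A (hA.prop.1.trans hO) hA.prop.2, fun r hr => ?_⟩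
  by_contra hcon
  push Not at hcon
  have hrA : r ∈ A := by
    have h1 : insert r A ∈ {A : Set (Cond W) | A ⊆ O ∧
        ∀ p ∈ A, ∀ q ∈ A, p ≠ q → ¬ Compat (PP D) p q} := by
      refine ⟨insert_subset hr hA.prop.1, ?_⟩
      rintro p (rfl | hp) q (rfl | hq) hpq
      · exact absurd rfl hpq
      · intro hc
        obtain ⟨c, hc1, hc2, hc3⟩ := hc
        exact hcon q hq ⟨c, hc1, hc3, hc2⟩
      · exact hcon p hp
      · exact hA.prop.2 p hp q hq hpq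
    exact hA.le_of_ge h1 (subset_insert r A) (mem_insert r A)
  exact hcon r hrA ⟨r, hO hr, Ext.refl _, Ext.refl _⟩

/-- nice names -/
theorem exists_nice (ξ : W) (O : ℕ → ℕ → Set (Cond W)) (hO : ∀ e w, O e w ⊆ Val D ξ)
    (hop : ∀ e w, ∀ r ∈ O e w, ∀ r' ∈ Val D ξ, Ext r r' → r' ∈ O e w)
    (hd : ∀ e, ∀ r ∈ Val D ξ, ∃ r' ∈ Val D ξ, Ext r r' ∧ ∃ w < bnd e, r' ∈ O e w)
    (hdis : ∀ e w w' r, r ∈ O e w → r ∈ O e w' → w = w') :
    ∃ T v, Legit (Val D ξ) T v ∧ ∀ e n, T e n ∈ O e (v e n) := by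
  have key : ∀ e, ∃ g : ℕ → Cond W, (∀ n, ∃ w < bnd e, g n ∈ O e w) ∧
      ∀ r, (∃ w < bnd e, r ∈ O e w) → ∃ n, Compat (PP D) (g n) r := by
    intro e
    obtain ⟨A, hA1, hA2, hA3⟩ := exists_antichain (D := D) {r | ∃ w < bnd e, r ∈ O e w} (by
      rintro r ⟨w, -, hr⟩
      exact Val.pp (hO e w hr))
    have hne : A.Nonempty := by
      obtain ⟨r', -, -, hr'⟩ := hd e .z (z_mem_val ξ)
      obtain ⟨a, ha, -⟩ := hA3 r' hr'
      exact ⟨a, ha⟩
    obtain ⟨g, hg⟩ := hA2.exists_eq_range hne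
    refine ⟨g, fun n => hA1 (hg ▸ mem_range_self n), fun r hr => ?_⟩
    obtain ⟨a, ha, hc⟩ := hA3 r hr
    rw [hg] at ha
    obtain ⟨n, rfl⟩ := ha
    exact ⟨n, hc⟩
  choose T hT1 hT2 using key
  choose v hv1 hv2 using hT1
  refine ⟨T, v, ⟨fun e n => hO _ _ (hv2 e n), hv1, fun e r hr => ?_, fun e n n' r hr h1 h2 => ?_⟩, hv2⟩
  · obtain ⟨r', hr', hext, w, hw, hr'w⟩ := hd e r hr
    obtain ⟨n, hc⟩ := hT2 e r' ⟨w, hw, hr'w⟩
    obtain ⟨c, hc1, hc2, hc3⟩ := hc.val (hO _ _ (hv2 e n)) hr'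
    exact ⟨c, hc1, hext.trans hc3, n, hc2⟩
  · exact hdis e _ _ r (hop e _ _ (hv2 e n) r hr h1) (hop e _ _ (hv2 e n') r hr h2)

end Pool.Agent.SSN
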