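import Mathlib
import Pool.Agent.Helper79.Kurepa.Model
import Pool.Agent.Helper79.SscDefs

/-!
# Convergent subseries, dominating families and meagre sets in an omega-model of ZFC
-/

namespace Pool.Agent.SSN

open Set Filter Pool.Agent.Helper79.ZF Pool.Agent.Helper79.Kurepa Pool.Agent.Helper79.Ssc

section
variable {N : Type} [Membership N N]

/-- `z` is the natural number `n` of the model: `0` is the empty set and `n + 1` is `n ∪ {n}` -/
def Num : ℕ → N → Prop
  | 0, z => ∀ w : N, ¬ w ∈ z
  | n + 1, z => ∃ y : N, Num n y ∧ ∀ w : N, w ∈ z ↔ (w ∈ y ∨ w = y)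

variable (N) in
/-- `N` is an `ω`-model: it has no nonstandard natural numbers -/
def OmegaModel : Prop := ∀ W : N, IsOmega W → ∀ z : N, z ∈ W → ∃ n : ℕ, Num n z

/-- the set `X` of the model is a subset of its set of natural numbers -/
def MSubOm (X : N) : Prop := ∀ W : N, IsOmega W → MSub X W

/-- the set of natural numbers given by the set `X` of an `ω`-model -/
def decS (X : N) : Set ℕ := {n | ∃ z : N, Num n z ∧ z ∈ X}

/-- the set `f` of the model is a function from the natural numbers to the natural numbers -/
def MFn (f : N) : Prop := ∀ W : N, IsOmega W →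
  (∀ z : N, z ∈ f → ∃ x y : N, x ∈ W ∧ y ∈ W ∧ IsPair z x y) ∧
  ∀ x : N, x ∈ W → ∃ y : N, y ∈ W ∧ ∀ y' : N, (∃ p : N, p ∈ f ∧ IsPair p x y') ↔ y' = y

/-- `f n = m`, for the function `f` of the model -/
def MVal (f : N) (n m : ℕ) : Prop := ∃ x y p : N, Num n x ∧ Num m y ∧ p ∈ f ∧ IsPair p x y

open Classical in
/-- the function from `ℕ` to `ℕ` given by the function `f` of an `ω`-model -/
noncomputable def decF (f : N) : ℕ → ℕ := fun n => if h : ∃ m, MVal f n m then h.choose else 0

/-- the enumeration of the rational numbers: the number `⟨⟨a, b⟩, c⟩` gives `(a - b) / (c + 1)` -/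
def rat (m : ℕ) : ℚ := ((Nat.unpair (Nat.unpair m).1).1 - (Nat.unpair (Nat.unpair m).1).2 : ℚ) / ((Nat.unpair m).2 + 1)

/-- `F` is a family of infinite coinfinite sets of natural numbers of the `ω`-model such that every
conditionally convergent rational series of the model has a convergent subseries along a member of `F` -/
def MWit (F : N) : Prop :=
  (∀ X : N, X ∈ F → MSubOm X ∧ (decS X).Infinite ∧ (decS X)ᶜ.Infinite) ∧
  ∀ f : N, MFn f → CondConv (fun n => rat (decF f n)) → ∃ X : N, X ∈ F ∧ SubConv (decS X) (fun n => rat (decF f n))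

/-- `D` is a dominating family of functions of the `ω`-model -/
def MDom (D : N) : Prop :=
  (∀ g : N, g ∈ D → MFn g) ∧ ∀ f : N, MFn f → ∃ g : N, g ∈ D ∧ ∀ᶠ n in atTop, decF f n ≤ decF g n

end

/-- `ss_c < d` holds in the `ω`-model `N`: some family of the kind used in the definition of `ss_c` is
strictly smaller than every dominating family -/
def SscLtD (N : Type) [Membership N N] : Prop := ∃ F : N, MWit F ∧ ∀ D : N, MDom D → ¬ Le D F

end Pool.Agent.SSN
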