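import Pool.Agent.SSL.GenG
import Pool.Agent.SSN.MDefs

/-!
# The interface theorem with standard natural numbers
-/

namespace Pool.Agent.SSN

open Set Pool.Agent.Helper79.ZF Pool.Agent.Helper79.Kurepa Pool.Agent.SSL

/-! ### numerals -/

section
variable {N : Type} [Membership N N] [ZFModel N]

/-- the numeral `n` of the model -/
noncomputable def nu (N : Type) [Membership N N] [ZFModel N] : ℕ → N
  | 0 => emp
  | n + 1 => suc (nu N n)

theorem num_iff {n : ℕ} {z : N} : Num n z ↔ z = nu N n := by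
  induction n generalizing z with
  | zero =>
    constructor
    · intro h
      exact ext' (fun w => by simp [nu, h w])
    · rintro rfl w
      exact not_mem_emp w
  | succ n ih =>
    constructor
    · rintro ⟨y, hy, h⟩
      rw [ih] at hy
      subst hy
      exact ext' (fun w => by rw [h, nu, mem_suc])
    · rintro rfl
      exact ⟨nu N n, ih.2 rfl, fun w => by rw [nu, mem_suc]⟩

theorem nu_mem_om (n : ℕ) : nu N n ∈ om N := by
  induction n with
  | zero => exact zero_mem_om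
  | succ n ih => exact suc_mem_om ih

theorem nu_lt {m n : ℕ} (h : m < n) : nu N m ∈ nu N n := by
  induction n with
  | zero => omega
  | succ n ih =>
    rw [nu, mem_suc]
    rcases Nat.lt_succ_iff_lt_or_eq.1 h with h | rfl
    · exact Or.inl (ih h)
    · exact Or.inr rfl

theorem nu_inj {m n : ℕ} (h : nu N m = nu N n) : m = n := by
  rcases lt_trichotomy m n with h' | h' | h'
  · have h1 : nu N m ∈ nu N n := nu_lt h'
    rw [h] at h1
    exact absurd h1 (mem_irrefl _)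
  · exact h'
  · have h1 : nu N n ∈ nu N m := nu_lt h'
    rw [h] at h1
    exact absurd h1 (mem_irrefl _)

theorem mem_om_iff (hN : OmegaModel N) {z : N} : z ∈ om N ↔ ∃ n, z = nu N n := by
  constructor
  · intro hz
    obtain ⟨n, hn⟩ := hN (om N) (isOmega_iff.2 rfl) z hz
    exact ⟨n, num_iff.1 hn⟩
  · rintro ⟨n, rfl⟩
    exact nu_mem_om n

end

/-! ### the extension of the submodel is an omega-model -/

section
variable {P : Type 1} {X : Type} [PartialOrder P] {S N : Type} [Membership S S] [Membership N N] [ZFCM S]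
  [ZFModel N] (c : Cx P X S N)

omit [ZFCM S] in
theorem e_nonempty {e : S → ZFSet.{1}} (he : ElemU e) (x : S) : (∃ w : S, w ∈ x) ↔ ∃ w : ZFSet.{1}, w ∈ e x :=
  TrU.UD.transfer (α := Unit) (j := e) he (A := fun v => ∃ w : S, w ∈ v ()) (B := fun v => ∃ w : ZFSet.{1}, w ∈ v ())
    (TrU.UD.ex (TrU.UD.mem _ _)) (fun _ => x)

omit [ZFCM S] in
theorem e_suc' {e : S → ZFSet.{1}} (he : ElemU e) (x y : S) : (∀ w : S, w ∈ x ↔ (w ∈ y ∨ w = y)) ↔
    ∀ w : ZFSet.{1}, w ∈ e x ↔ (w ∈ e y ∨ w = e y) :=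
  TrU.UD.transfer (α := Bool) (j := e) he (A := fun v => ∀ w : S, w ∈ v true ↔ (w ∈ v false ∨ w = v false))
    (B := fun v => ∀ w : ZFSet.{1}, w ∈ v true ↔ (w ∈ v false ∨ w = v false))
    (TrU.UD.all (TrU.UD.iff (TrU.UD.mem _ _) (TrU.UD.or (TrU.UD.mem _ _) (TrU.UD.eq _ _)))) (fun b => if b then x else y)

theorem e_nu {e : S → ZFSet.{1}} (he : ElemU e) (n : ℕ) : e (nu S n) = nuE n := by
  induction n with
  | zero =>
    have h := (e_nonempty he (emp : S)).not.1 (by rintro ⟨w, hw⟩; exact not_mem_emp w hw)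
    show e emp = nuE 0
    have h0 : nuE 0 = ∅ := rfl
    rw [h0, ZFSet.eq_empty]
    intro y hy
    exact h ⟨y, hy⟩
  | succ n ih =>
    have h := (e_suc' he (suc (nu S n)) (nu S n)).1 (fun w => mem_suc)
    rw [ih] at h
    rw [nuE_succ]
    ext w
    rw [ZFSet.mem_insert_iff, show nu S (n + 1) = suc (nu S n) from rfl, h w]
    tauto

include c in
theorem omegaModel : OmegaModel N := by
  intro W hW z hz
  rw [isOmega_iff.1 hW, ← c.g.j_om, c.g.mem_j] at hz
  obtain ⟨y, hy, rfl⟩ := hz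
  have h1 : c.e y ∈ ZFSet.omega := by
    rw [← c.he.omega.1 (isOmega_iff.2 rfl : IsOmega (om S))]
    exact c.he.mem.1 hy
  obtain ⟨n, hn⟩ := mem_omega_iff'.1 h1
  rw [← e_nu c.he n] at hn
  have h2 := c.he.inj hn
  subst h2
  refine ⟨n, num_iff.2 ?_⟩
  induction n with
  | zero => exact c.g.j_emp
  | succ n ih =>
    show c.g.j (suc (nu S n)) = suc (nu N n)
    rw [c.g.j_suc]
    have hn1 : nu S n ∈ om S := nu_mem_om n
    rw [ih hn1 (by rw [e_nu c.he]; exact nuE_mem_omega n) rfl]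

end

/-- `ν n` is the point which stands for the natural number `n` -/
structure GenY (P : Type 1) (X : Type) [PartialOrder P] (ν : ℕ → X) {ι : Type} (F : ι → List (Ob P X) → Ob P X)
    (𝓜 : Set (Ob P X)) (N : Type) [Membership N N] [ZFModel N] (j : X → N) (G : Set P) : Prop
    extends GenX P X F 𝓜 N j G where
  omega : OmegaModel N
  nm : ∀ n, Ob.x (ν n) ∈ 𝓜
  conv : ∃ E : N, ∀ z : N, z ∈ E ↔ ∃ n : ℕ, z = opair (j (ν n)) (nu N n)
  points : ∀ A : Set X, Ob.dx A ∈ 𝓜 → ∃ t : N, ∀ z : N, z ∈ t ↔ ∃ x ∈ A, Ob.x x ∈ 𝓜 ∧ z = j x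
  rel : ∀ R : Set (P × X × X), Ob.r2 R ∈ 𝓜 → ∃ t : N, ∀ z : N, z ∈ t ↔
    ∃ x y, Ob.x x ∈ 𝓜 ∧ Ob.x y ∈ 𝓜 ∧ z = opair (j x) (j y) ∧ ∃ p ∈ G, (p, x, y) ∈ R
  rname : ∀ t : N, ∃ R : Set (P × X × X), Ob.r2 R ∈ 𝓜 ∧ ∀ x y, Ob.x x ∈ 𝓜 → Ob.x y ∈ 𝓜 →
    (opair (j x) (j y) ∈ t ↔ ∃ p ∈ G, (p, x, y) ∈ R)

theorem exists_genY (P : Type 1) (X : Type) [PartialOrder P] [Nonempty P] (ν : ℕ → X) (hν : Function.Injective ν)
    {ι : Type} [Countable ι] (F : ι → List (Ob P X) → Ob P X) :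
    ∃ (𝓜 : Set (Ob P X)) (N : Type) (_ : Membership N N) (_ : ZFModel N) (j : X → N) (G : Set P),
      GenY P X ν F 𝓜 N j G := by
  classical
  obtain ⟨p0⟩ := (inferInstance : Nonempty P)
  let F' : ι ⊕ Fin 3 ⊕ ℕ ⊕ Fin 1 → List (Ob P X) → Ob P X := fun i l =>
    Sum.elim (fun i => F i l) (Sum.elim (fun k => (![Ob.dp univ, Ob.dx univ, Ob.p p0] : Fin 3 → Ob P X) k)
      (Sum.elim (fun n => Ob.x (ν n)) (fun _ => Ob.r2 {z | ∃ n, z.2 = (ν n, ν (n + 1))}))) i
  obtain ⟨S, mS, e, hS, _, he, hcl⟩ := exists_M F'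
  have hz : ZFCM S := { toZFModel := he.zfc.1, ac := he.zfc.2 }
  obtain ⟨PM, hPM⟩ := hcl (Sum.inr (Sum.inl 0)) [] (by simp)
  obtain ⟨XM, hXM⟩ := hcl (Sum.inr (Sum.inl 1)) [] (by simp)
  obtain ⟨s0, hs0⟩ := hcl (Sum.inr (Sum.inl 2)) [] (by simp)
  have hν1 : ∀ n, ∃ s, e s = code (Ob.x (ν n) : Ob P X) := fun n => hcl (Sum.inr (Sum.inr (Sum.inl n))) [] (by simp)
  have hν2 : ∃ s, e s = code (Ob.r2 {z | ∃ n, z.2 = (ν n, ν (n + 1))} : Ob P X) :=
    hcl (Sum.inr (Sum.inr (Sum.inr 0))) [] (by simp)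
  have hPM' : e PM = code (Ob.dp univ : Ob P X) := hPM
  have hXM' : e XM = code (Ob.dx univ : Ob P X) := hXM
  have hs0' : e s0 = cP p0 := hs0
  have hs : s0 ∈ PM := by
    rw [he.mem, hPM', hs0']
    exact mem_code_dp.2 ⟨p0, mem_univ _, rfl⟩
  obtain ⟨N, mN, zN, ⟨g⟩⟩ := exists_genExt (M := S) PM (sing emp) ⟨s0, hs⟩ ⟨emp, mem_sing.2 rfl⟩
  let c : Cx P X S N := ⟨e, he, PM, XM, hPM', hXM', g⟩
  have hG : GenX P X F {u | c.Md u} N c.j c.G :=
    { zfc := ⟨zN, g.zfc.ac⟩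
      closed := fun i l hl => hcl (Sum.inl i) l hl
      Gsub := fun p hp => hp.1
      up := fun p hp q hpq hq => c.up hp hpq hq
      dir := fun p hp q hq => c.dir hp hq
      ne := c.G_ne
      gen := fun E hE hd => c.gen hE hd
      inj := fun x y hx hy h => c.j_inj hx hy h
      set1 := fun R hR => c.set1 hR
      name1 := fun t => c.name1 t
      set2 := fun R hR => c.set2 hR
      name2 := fun t => c.name2 t
      ctb := fun A hA hc t ht W hW => c.ctb hA hc ht hW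
      unc := fun A hA hc hi t W hW ht => c.unc hA hc hi hW ht }
  have hMR : ∀ (t a b : N), MRel t a b ↔ opair a b ∈ t := by
    intro t a b
    unfold MRel
    simp only [isPair_iff]
    exact ⟨fun ⟨p, hp, hp'⟩ => hp' ▸ hp, fun h => ⟨_, h, rfl⟩⟩
  have hpts : ∀ A : Set X, c.Md (Ob.dx A) → ∃ t : N, ∀ z : N, z ∈ t ↔ ∃ x ∈ A, c.Md (Ob.x x) ∧ z = c.j x := by
    intro A hA
    refine ⟨c.g.j (c.mm (.dx A)), fun z => ?_⟩
    rw [c.g.mem_j]
    constructor
    · rintro ⟨s, hs, rfl⟩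
      obtain ⟨x, hx, hx', rfl⟩ := (Cx.mem_dx hA).1 hs
      exact ⟨x, hx, hx', rfl⟩
    · rintro ⟨x, hx, hx', rfl⟩
      exact ⟨_, (Cx.mem_dx hA).2 ⟨x, hx, hx', rfl⟩, rfl⟩
  have hall : ∃ t : N, ∀ z : N, z ∈ t ↔ ∃ x, c.Md (Ob.x x) ∧ z = c.j x := by
    refine ⟨c.g.j c.XM, fun z => ?_⟩
    rw [c.g.mem_j]
    constructor
    · rintro ⟨s, hs, rfl⟩
      obtain ⟨x, hx, rfl⟩ := Cx.mem_XM.1 hs
      exact ⟨x, hx, rfl⟩
    · rintro ⟨x, hx, rfl⟩
      exact ⟨_, Cx.mem_XM.2 ⟨x, hx, rfl⟩, rfl⟩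
  obtain ⟨XN, hXN⟩ := hall
  have hrel : ∀ R : Set (P × X × X), c.Md (Ob.r2 R) → ∃ t : N, ∀ z : N, z ∈ t ↔
      ∃ x y, c.Md (Ob.x x) ∧ c.Md (Ob.x y) ∧ z = opair (c.j x) (c.j y) ∧ ∃ p ∈ c.G, (p, x, y) ∈ R := by
    intro R hR
    obtain ⟨t, ht⟩ := c.set2 hR
    refine ⟨sepS t (fun z => z ∈ prodS XN XN), fun z => ?_⟩
    rw [mem_sepS (by fun_prop), mem_prodS]
    constructor
    · rintro ⟨hz, a, b, ha, hb, rfl⟩
      obtain ⟨x, hx, rfl⟩ := (hXN a).1 ha
      obtain ⟨y, hy, rfl⟩ := (hXN b).1 hb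
      exact ⟨x, y, hx, hy, rfl, (ht x y hx hy).1 ((hMR _ _ _).2 hz)⟩
    · rintro ⟨x, y, hx, hy, rfl, hp⟩
      exact ⟨(hMR _ _ _).1 ((ht x y hx hy).2 hp), c.j x, c.j y, (hXN _).2 ⟨x, hx, rfl⟩, (hXN _).2 ⟨y, hy, rfl⟩, rfl⟩
  have hom : OmegaModel N := omegaModel c
  refine ⟨{u | c.Md u}, N, mN, zN, c.j, c.G, { toGenX := hG, omega := hom, nm := hν1, conv := ?_, points := hpts, rel := hrel, rname := ?_ }⟩
  · -- the internal bijection between the points and the numerals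
    obtain ⟨R, hR⟩ := hrel _ hν2
    obtain ⟨g0, hg0⟩ := c.G_ne
    have hR' : ∀ m n : ℕ, opair (c.j (ν m)) (c.j (ν n)) ∈ R ↔ n = m + 1 := by
      intro m n
      rw [hR]
      constructor
      · rintro ⟨x, y, hx, hy, h, p, hp, k, hk⟩
        rw [opair_inj] at h
        have h1 := c.j_inj (hν1 m) hx h.1
        have h2 := c.j_inj (hν1 n) hy h.2
        simp only [Prod.mk.injEq] at hk
        rw [← h1, ← h2] at hk
        have := hν hk.1
        have := hν hk.2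
        omega
      · rintro rfl
        exact ⟨ν m, ν (m + 1), hν1 _, hν1 _, rfl, g0, hg0, m, rfl⟩
    have hR'' : ∀ a m, opair a (c.j (ν m)) ∈ R → ∃ k, m = k + 1 ∧ a = c.j (ν k) := by
      intro a m h
      obtain ⟨x, y, hx, hy, h, p, hp, k, hk⟩ := (hR _).1 h
      rw [opair_inj] at h
      simp only [Prod.mk.injEq] at hk
      have h2 := c.j_inj (hν1 m) hy h.2
      rw [hk.2] at h2
      exact ⟨k, hν h2, by rw [h.1, hk.1]⟩
    let a0 : N := c.j (ν 0)
    -- closed under predecessors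
    let Cl : N → Prop := fun g => ∀ b u : N, opair b u ∈ g → (b = a0 ∧ u = emp) ∨
      ∃ b' u' : N, opair b' u' ∈ g ∧ opair b' b ∈ R ∧ u = suc u'
    have hCl : DefP N Cl := by
      show DefP N (fun g => ∀ b u : N, opair b u ∈ g → (b = a0 ∧ u = emp) ∨
        ∃ b' u' : N, opair b' u' ∈ g ∧ opair b' b ∈ R ∧ u = suc u')
      fun_prop
    let Q : N → Prop := fun z => ∃ b u g : N, z = opair b u ∧ Cl g ∧ opair b u ∈ g
    have hQ : DefP N Q := by
      show DefP N (fun z => ∃ b u g : N, z = opair b u ∧ Cl g ∧ opair b u ∈ g)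
      have := hCl
      refine DefP.ex (DefP.ex (DefP.ex ?_))
      refine DefP.and (by fun_prop) (DefP.and ?_ (by fun_prop))
      exact DefP_comp hCl (by fun_prop)
    refine ⟨sepS (prodS XN (om N)) Q, fun z => ?_⟩
    rw [mem_sepS hQ]
    constructor
    · rintro ⟨hz, b, u, g, rfl, hg, hbu⟩
      rw [opair_mem_prodS] at hz
      obtain ⟨n, rfl⟩ := (mem_om_iff hom).1 hz.2
      -- by induction on `n`
      have key : ∀ n : ℕ, ∀ b : N, opair b (nu N n) ∈ g → b = c.j (ν n) := by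
        intro n
        induction n with
        | zero =>
          intro b hb
          rcases hg b _ hb with ⟨h1, -⟩ | ⟨b', u', -, -, h3⟩
          · exact h1
          · exact absurd h3.symm (suc_ne_emp _)
        | succ n ih =>
          intro b hb
          rcases hg b _ hb with ⟨-, h1⟩ | ⟨b', u', h1, h2, h3⟩
          · exact absurd h1 (suc_ne_emp _)
          · have h4 : nu N n = u' := suc_inj h3
            subst h4
            rw [ih b' h1] at h2
            obtain ⟨x, y, hx, hy, h, p, hp, k, hk⟩ := (hR _).1 h2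
            rw [opair_inj] at h
            simp only [Prod.mk.injEq] at hk
            have h5 := c.j_inj (hν1 n) hx h.1
            rw [hk.1] at h5
            have := hν h5
            subst this
            rw [h.2, hk.2]
      exact ⟨n, by rw [key n b hbu]⟩
    · rintro ⟨n, rfl⟩
      refine ⟨opair_mem_prodS.2 ⟨(hXN _).2 ⟨_, hν1 n, rfl⟩, nu_mem_om n⟩, c.j (ν n), nu N n, ?_⟩
      have key : ∀ n : ℕ, ∃ g : N, Cl g ∧ opair (c.j (ν n)) (nu N n) ∈ g := by
        intro n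
        induction n with
        | zero =>
          refine ⟨sing (opair (c.j (ν 0)) (nu N 0)), ?_, mem_sing.2 rfl⟩
          intro b u h
          rw [mem_sing, opair_inj] at h
          exact Or.inl ⟨h.1, h.2⟩
        | succ n ih =>
          obtain ⟨g, hg, hn⟩ := ih
          refine ⟨cup g (sing (opair (c.j (ν (n + 1))) (nu N (n + 1)))), ?_, mem_cup.2 (Or.inr (mem_sing.2 rfl))⟩
          intro b u h
          rcases mem_cup.1 h with h | h
          · rcases hg b u h with h1 | ⟨b', u', h1, h2, h3⟩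
            · exact Or.inl h1
            · exact Or.inr ⟨b', u', mem_cup.2 (Or.inl h1), h2, h3⟩
          · rw [mem_sing, opair_inj] at h
            obtain ⟨rfl, rfl⟩ := h
            exact Or.inr ⟨_, _, mem_cup.2 (Or.inl hn), (hR' n (n + 1)).2 rfl, rfl⟩
      obtain ⟨g, hg, hn⟩ := key n
      exact ⟨g, rfl, hg, hn⟩
  · intro t
    obtain ⟨R, hR, h⟩ := c.name2 t
    exact ⟨R, hR, fun x y hx hy => by rw [← hMR]; exact h x y hx hy⟩

end Pool.Agent.SSN
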