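import Pool.Agent.SSN.Lim

/-!
# The Cohen reals are not dominated
-/

namespace Pool.Agent.SSN

open Set

variable {W : Type} [LinearOrder W] [WellFoundedLT W] {D : Set W}

namespace Unb

omit [WellFoundedLT W] in
theorem getElem_of_ext {p q : Cond W} (h : Ext p q) {k : W} {i : ℕ} {a : ℕ × ℕ}
    (hi : (p.s k)[i]? = some a) : (q.s k)[i]? = some a := by
  obtain ⟨L, hL⟩ := h.s_pre k
  obtain ⟨h1, -⟩ := List.getElem?_eq_some_iff.1 hi
  rw [← hL, List.getElem?_append_left h1]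
  exact hi

/-- the sequence at a coordinate can be made long -/
theorem exists_long {p : Cond W} (hp : p ∈ PP D) (k : W) (N : ℕ) :
    ∃ q ∈ PP D, Ext p q ∧ N ≤ (q.s k).length := by
  induction N with
  | zero => exact ⟨p, hp, Ext.refl p, Nat.zero_le _⟩
  | succ N ih =>
    obtain ⟨q, hq, h1, h2⟩ := ih
    obtain ⟨q', hq', h3, x, y, -, h4⟩ := exists_step hq k 0
    refine ⟨q', hq', h1.trans h3, ?_⟩
    rw [h4, List.length_append, List.length_singleton]
    omega

theorem exists_bd (L : List (ℕ × ℕ)) : ∃ B, ∀ a ∈ L, a.2 < B := by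
  induction L with
  | nil => exact ⟨0, by simp⟩
  | cons b L ih =>
    obtain ⟨B, hB⟩ := ih
    refine ⟨max B (b.2 + 1), fun a ha => ?_⟩
    rcases List.mem_cons.1 ha with rfl | h
    · exact lt_of_lt_of_le (Nat.lt_succ_self _) (le_max_right _ _)
    · exact lt_of_lt_of_le (hB a h) (le_max_left _ _)

theorem inc_append {L : List (ℕ × ℕ)} (h : Inc L) {x : ℕ} (hx : ∀ a ∈ L, a.2 < x) :
    Inc (L ++ [(x, x + 1)]) := by
  have key : ∀ i a, (L ++ [(x, x + 1)])[i]? = some a → (L[i]? = some a ∧ i < L.length) ∨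
      (i = L.length ∧ a = (x, x + 1)) := by
    intro i a hi
    rcases lt_trichotomy i L.length with h1 | h1 | h1
    · left
      rw [List.getElem?_append_left h1] at hi
      exact ⟨hi, h1⟩
    · right
      rw [List.getElem?_append_right h1.ge, h1] at hi
      simp only [Nat.sub_self, List.getElem?_cons_zero, Option.some.injEq] at hi
      exact ⟨h1, hi.symm⟩
    · rw [List.getElem?_append_right h1.le] at hi
      obtain ⟨h2, -⟩ := List.getElem?_eq_some_iff.1 hi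
      simp only [List.length_singleton] at h2
      omega
  refine ⟨fun i a b hi => ?_, fun i a b a' b' hi hi' => ?_⟩
  · rcases key i _ hi with ⟨h1, -⟩ | ⟨-, h1⟩
    · exact h.1 i a b h1
    · simp only [Prod.mk.injEq] at h1
      omega
  · rcases key i _ hi with ⟨h1, h2⟩ | ⟨h2, h1⟩
    · rcases key (i + 1) _ hi' with ⟨h3, -⟩ | ⟨-, h3⟩
      · exact h.2 i a b a' b' h1 h3
      · simp only [Prod.mk.injEq] at h3
        rw [h3.1]
        exact hx (a, b) (List.mem_of_getElem? h1)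
    · rcases key (i + 1) _ hi' with ⟨-, h3⟩ | ⟨h3, -⟩ <;> omega

/-- we may append a pair with a large first element -/
theorem exists_inc {L : List (ℕ × ℕ)} (h : Inc L) (n : ℕ) : ∃ x ≥ n, Inc (L ++ [(x, x + 1)]) := by
  obtain ⟨B, hB⟩ := exists_bd L
  exact ⟨max n B, le_max_left _ _, inc_append h fun a ha => (hB a ha).trans_le (le_max_right _ _)⟩

omit [WellFoundedLT W] in
open Classical in
theorem apnd_s (p : Cond W) (ξ : W) (L : List (ℕ × ℕ)) (η : W) :
    (apnd p ξ L).s η = if η = ξ then p.s η ++ L else p.s η := rfl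

omit [WellFoundedLT W] in
theorem apnd_l (p : Cond W) (ξ : W) (L : List (ℕ × ℕ)) : (apnd p ξ L).l = p.l := rfl

omit [WellFoundedLT W] in
theorem supp_apnd {p : Cond W} {ξ : W} {L : List (ℕ × ℕ)} (h : p.s ξ ≠ []) :
    supp (apnd p ξ L) = supp p := by
  ext η
  simp only [supp, mem_ofPred_eq, apnd_s, apnd_l]
  by_cases hη : η = ξ
  · subst hη
    simp [h]
  · simp [hη]

end Unb

open Unb in
/-- `h ξ n m` is the set of conditions which force `h_ξ(n) = m`. Some Cohen real `k ∈ D` is not dominated by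
any of the functions `h_ξ`, `ξ ∉ D`. -/
theorem exists_unbounded (hD : ∀ F : D → W, (∀ k, F k ∉ D) → ∃ ξ, ¬ {k | F k = ξ}.Countable)
    (h : W → ℕ → ℕ → Set (Cond W))
    (hop : ∀ ξ n m, ∀ r ∈ PP D, ∀ r' ∈ PP D, r ∈ h ξ n m → Ext r r' → r' ∈ h ξ n m)
    (hcoh : ∀ ξ n m m', ∀ r ∈ PP D, r ∈ h ξ n m → r ∈ h ξ n m' → m = m') :
    ∃ k ∈ D, ∀ ξ, ξ ∉ D → ∀ N, ∀ p ∈ PP D, ∃ q ∈ PP D, Ext p q ∧ ∃ i ≥ N, ∃ x y,
      (q.s k)[i]? = some (x, y) ∧ ∀ r ∈ PP D, Ext q r → ∀ m ≥ x, r ∉ h ξ i m := by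
  by_contra hcon
  push Not at hcon
  have hcon' : ∀ k : D, ∃ ξ, ξ ∉ D ∧ ∃ N, ∃ p ∈ PP D, N < (p.s (k : W)).length ∧
      ∀ q ∈ PP D, Ext p q → ∀ i ≥ N, ∀ x y, (q.s (k : W))[i]? = some (x, y) →
        ∃ r ∈ PP D, Ext q r ∧ ∃ m ≥ x, r ∈ h ξ i m := by
    intro k
    obtain ⟨ξ, hξ, N, p, hp, hpq⟩ := hcon k k.2
    obtain ⟨p', hp', h1, h2⟩ := exists_long hp (k : W) (N + 1)
    exact ⟨ξ, hξ, N, p', hp', h2, fun q hq hq' => hpq q hq (h1.trans hq')⟩
  choose F hF N P hP hN hPq using hcon'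
  obtain ⟨ξ, hξ⟩ := hD F hF
  obtain ⟨i0, hi0⟩ : ∃ i0, ¬ {k : D | F k = ξ ∧ ((P k).s (k : W)).length = i0}.Countable := by
    by_contra hcon2
    push Not at hcon2
    apply hξ
    have : {k : D | F k = ξ} = ⋃ i, {k : D | F k = ξ ∧ ((P k).s (k : W)).length = i} := by
      ext k
      simp
    rw [this]
    exact countable_iUnion hcon2
  set I : Set D := {k : D | F k = ξ ∧ ((P k).s (k : W)).length = i0} with hI
  have : Uncountable I := by
    rw [← not_countable_iff, countable_coe_iff]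
    exact hi0
  obtain ⟨f0, R, σ, lam, hf0, hΔ0⟩ := exists_seq (fun k : I => P k.1) (fun k => hP k.1)
  -- drop the indices whose coordinate is in the root
  obtain ⟨n0, hn0⟩ : ∃ n0, ∀ n ≥ n0, ((f0 n).1 : W) ∉ R := by
    have hfin : {n | ((f0 n).1 : W) ∈ R}.Finite := by
      apply Set.Finite.preimage (s := (R : Set W)) (f := fun n => ((f0 n).1 : W))
      · intro a _ b _ hab
        exact hf0 (Subtype.ext (Subtype.ext hab))
      · exact R.finite_toSet
    obtain ⟨B, hB⟩ := hfin.bddAbove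
    exact ⟨B + 1, fun n hn hn' => by have := hB hn'; omega⟩
  set f : ℕ → I := fun n => f0 (n0 + n) with hf
  have hfR : ∀ n, ((f n).1 : W) ∉ R := fun n => hn0 _ (Nat.le_add_right _ _)
  have hlen : ∀ n, ((P (f n).1).s ((f n).1 : W)).length = i0 := fun n => (f n).2.2
  have hNi : ∀ n, N (f n).1 < i0 := fun n => by
    have := hN (f n).1
    rwa [hlen n] at this
  have hne : ∀ n, (P (f n).1).s ((f n).1 : W) ≠ [] := by
    intro n hn
    have h1 := hlen n
    have h2 := hNi n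
    rw [hn] at h1
    simp only [List.length_nil] at h1
    omega
  choose x hxn hx using fun n => exists_inc ((hP (f n).1).1.inc ((f n).1 : W)) n
  set q : ℕ → Cond W := fun n => apnd (P (f n).1) ((f n).1 : W) [(x n, x n + 1)] with hq
  have hext : ∀ n, Ext (P (f n).1) (q n) := by
    intro n
    apply apnd_ext
    intro t ht
    rw [(hP (f n).1).1.nD _ (f n).1.2] at ht
    omega
  have hΔ : Delt D R q σ lam := by
    refine ⟨fun n => apnd_mem (hP _) (hx n), fun n m hnm => ?_, fun n η hη => ?_, fun n η hη => ?_⟩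
    · rw [hq]
      simp only
      rw [supp_apnd (hne n), supp_apnd (hne m)]
      exact hΔ0.dis (n0 + n) (n0 + m) (by omega)
    · have h1 : η ≠ ((f n).1 : W) := fun h1 => hfR n (h1 ▸ hη)
      rw [hq]
      simp only
      rw [apnd_s, if_neg h1]
      exact hΔ0.s (n0 + n) η hη
    · exact hΔ0.l (n0 + n) η hη
  obtain ⟨u, hu, hlim⟩ := exists_limit hΔ
  have key : ∀ n, ∀ r ∈ PP D, Ext (q n) r → ∃ r' ∈ PP D, Ext r r' ∧ ∃ m ≥ n, r' ∈ h ξ i0 m := by
    intro n r hr hqr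
    have h1 : ((q n).s ((f n).1 : W))[i0]? = some (x n, x n + 1) := by
      rw [hq]
      simp only
      rw [apnd_s, if_pos rfl, List.getElem?_append_right (hlen n).le, hlen n]
      simp
    obtain ⟨r', hr', h2, m, hm, h3⟩ := hPq (f n).1 r hr ((hext n).trans hqr) i0 (hNi n).le _ _
      (getElem_of_ext hqr h1)
    refine ⟨r', hr', h2, m, (hxn n).trans hm, ?_⟩
    have h4 : F (f n).1 = ξ := (f n).2.1
    rwa [h4] at h3
  obtain ⟨n1, -, r1, hr1, hur1, hq1⟩ := hlim u hu (Ext.refl u) 0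
  obtain ⟨r2, hr2, h12, m1, -, hm1⟩ := key n1 r1 hr1 hq1
  obtain ⟨n2, hn2, r3, hr3, h23, hq2⟩ := hlim r2 hr2 (hur1.trans h12) (m1 + 1)
  obtain ⟨r4, hr4, h34, m2, hm2, hm2'⟩ := key n2 r3 hr3 hq2
  have h5 := hop ξ i0 m1 r2 hr2 r4 hr4 hm1 (h23.trans h34)
  have h6 := hcoh ξ i0 m1 m2 r4 hr4 h5 hm2'
  omega

end Pool.Agent.SSN
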