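import Pool.Agent.SSN.Poset
import Pool.Agent.SSN.Unb
import Pool.Agent.SSN.Cap
import Pool.Agent.SSN.GenY

/-!
# The closure functions of the submodel
-/

namespace Pool.Agent.SSN

open Set Pool.Agent.SSL

variable {W : Type} [LinearOrder W] [WellFoundedLT W]

/-- the points: natural numbers, coordinates, pairs of a coordinate and a natural number -/
abbrev Pt (W : Type) : Type := ℕ ⊕ W ⊕ (W × ℕ)

/-- natural numbers -/
def pn (n : ℕ) : Pt W := .inl n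

/-- coordinates -/
def pw (ξ : W) : Pt W := .inr (.inl ξ)

/-- pairs -/
def pp (ξ : W) (n : ℕ) : Pt W := .inr (.inr (ξ, n))

omit [LinearOrder W] [WellFoundedLT W] in
theorem pn_inj : Function.Injective (pn : ℕ → Pt W) := fun _ _ h => Sum.inl_injective h

variable (D : Set W)

/-- the name of the sets `X_ξ` -/
def nX : Set (Po D × Pt W × Pt W) :=
  {z | ∃ ξ n, z.2 = (pw ξ, pn n) ∧ ξ ∉ D ∧ ∃ i x y : ℕ, ((rep z.1).s ξ)[i]? = some (x, y) ∧ x ≤ n ∧ n < y}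

/-- the name of the first projection of the pairs -/
def n1 : Set (Po D × Pt W × Pt W) := {z | ∃ ξ n, ξ ∉ D ∧ z.2 = (pp ξ n, pw ξ)}

/-- the name of the second projection of the pairs -/
def n2 : Set (Po D × Pt W × Pt W) := {z | ∃ ξ n, ξ ∉ D ∧ z.2 = (pp ξ n, pn n)}

/-- the name of the Cohen real `k` -/
def nC (k : W) : Set (Po D × Pt W × Pt W) := {z | ∃ i x y : ℕ, z.2 = (pn i, pn x) ∧ ((rep z.1).s k)[i]? = some (x, y)}

variable {D}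

/-- the conditions which force that `m` is the only number related to `x` -/
def FR (R : Set (Po D × Pt W × Pt W)) (x : Pt W) (m : ℕ) : Set (Po D) :=
  {p | (∀ q ≤ p, ∃ r ≤ q, ∃ s, r ≤ s ∧ (s, x, pn m) ∈ R) ∧ ∀ m', m' ≠ m → ∀ q ≤ p, ∀ s, q ≤ s → (s, x, pn m') ∉ R}

/-- the same, for conditions -/
def FRc (R : Set (Po D × Pt W × Pt W)) (x : Pt W) (m : ℕ) : Set (Cond W) := {p | ∃ h : p ∈ PP D, cl p h ∈ FR R x m}

theorem FRc_open (R : Set (Po D × Pt W × Pt W)) (x : Pt W) (m : ℕ) : ∀ r ∈ PP D, ∀ r' ∈ PP D, r ∈ FRc R x m → Ext r r' →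
    r' ∈ FRc R x m := by
  rintro r - r' hr' ⟨h, h1, h2⟩ hrr'
  have hle : cl r' hr' ≤ cl r h := cl_le.2 hrr'
  exact ⟨hr', fun q hq => h1 q (hq.trans hle), fun m' hm q hq => h2 m' hm q (hq.trans hle)⟩

theorem FRc_coh (R : Set (Po D × Pt W × Pt W)) (x : Pt W) (m m' : ℕ) : ∀ r ∈ PP D, r ∈ FRc R x m → r ∈ FRc R x m' → m = m' := by
  rintro r - ⟨h, h1, -⟩ ⟨h', -, h2⟩
  by_contra hne
  obtain ⟨q, hq, s, hs, hR⟩ := h1 _ le_rfl
  exact h2 m hne q hq s hs hR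

/-- the Cohen real `k` is not dominated by the functions with the name `R` -/
def UnbK (R : Set (Po D × Pt W × Pt W)) (k : W) : Prop :=
  k ∈ D ∧ ∀ ξ, ξ ∉ D → ∀ N, ∀ p ∈ PP D, ∃ q ∈ PP D, Ext p q ∧ ∃ i ≥ N, ∃ x y : ℕ,
      (q.s k)[i]? = some (x, y) ∧ ∀ r ∈ PP D, Ext q r → ∀ m ≥ x, r ∉ FRc R (pp ξ i) m

theorem exists_UnbK (hD : ∀ F : D → W, (∀ k, F k ∉ D) → ∃ ξ, ¬ {k | F k = ξ}.Countable)
    (R : Set (Po D × Pt W × Pt W)) : ∃ k, UnbK R k := by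
  obtain ⟨k, hk, h⟩ := exists_unbounded hD (fun ξ n m => FRc R (pp ξ n) m) (fun ξ n m => FRc_open R _ m)
    (fun ξ n m m' => FRc_coh R _ m m')
  exact ⟨k, hk, h⟩

/-- the function with the name `R` is captured at the coordinate `ξ` by a name in `q` -/
def CapAt (R : Set (Po D × Pt W × Pt W)) (q : Cond W) (ξ : W) : Prop :=
  ξ ∉ D ∧ q.s ξ = [] ∧ ∃ p ∈ PP D, Ext p q ∧ ∃ t < q.l ξ, ∀ e k, ¬ Compat (PP D) p (q.T ξ t e k) ∨
      ∃ a : ℕ → ℕ, (∀ j < (Nat.unpair e).2, q.T ξ t e k ∈ FRc R (pn j) (a j)) ∧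
        q.v ξ t e k = col (Nat.unpair e).1 (psum a (Nat.unpair e).2)

theorem CapAt.ext {R : Set (Po D × Pt W × Pt W)} {q q' : Cond W} {ξ : W} (h : CapAt R q ξ) (hq : Ext q q')
    (hs : q'.s ξ = []) : CapAt R q' ξ := by
  obtain ⟨h1, -, p, hp, hpq, t, ht, h2⟩ := h
  obtain ⟨t', ht', h3, h4⟩ := hq.l_le ξ t ht
  refine ⟨h1, hs, p, hp, hpq.trans hq, t', ht', fun e k => ?_⟩
  rw [← h3, ← h4]
  exact h2 e k

/-- the function with the name `R` is not defined everywhere, or captured -/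
def ECap (R : Set (Po D × Pt W × Pt W)) : Set (Po D) :=
  {a | (∃ n, ∀ r ∈ PP D, Ext (rep a) r → ∀ m, r ∉ FRc R (pn n) m) ∨ ∃ ξ, CapAt R (rep a) ξ}

theorem ECap_dense (hcof : ∀ A : Set W, A.Countable → ∃ ξ, ξ ∉ D ∧ ∀ a ∈ A, a < ξ) (R : Set (Po D × Pt W × Pt W))
    (a : Po D) : ∃ b ≤ a, b ∈ ECap R := by
  by_cases h : ∃ r ∈ PP D, Ext (rep a) r ∧ ∃ n, ∀ r' ∈ PP D, Ext r r' → ∀ m, r' ∉ FRc R (pn n) m
  · obtain ⟨r, hr, har, n, hn⟩ := h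
    refine ⟨cl r hr, cl_le_iff.2 har, Or.inl ⟨n, fun r' hr' h => hn r' hr' ?_⟩⟩
    exact ((cl_le_iff (hp := hr)).1 le_rfl |> fun _ => (le_cl_iff (hp := hr)).1 le_rfl).trans h
  · push Not at h
    obtain ⟨ξ, hξ, q, hq, hpq, hs, t, ht, h1⟩ := exists_capture hcof (fun n m => FRc R (pn n) m)
      (fun n m => FRc_open R _ m) (fun n m m' => FRc_coh R _ m m') (rep_mem a)
      (fun r hr har n => by
        obtain ⟨r', hr', h2, m, h3⟩ := h r hr har n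
        exact ⟨r', hr', h2, m, h3⟩)
    refine ⟨cl q hq, cl_le_iff.2 hpq, Or.inr ⟨ξ, ?_⟩⟩
    have h2 : CapAt R q ξ := ⟨hξ, hs, rep a, rep_mem a, hpq, t, ht, h1⟩
    refine h2.ext ((le_cl_iff (hp := hq)).1 le_rfl) ?_
    have h3 := ((cl_le_iff (hp := hq)).1 le_rfl).s_pre ξ
    rw [hs] at h3
    exact List.prefix_nil.1 h3

/-- dense set: the sequence at `ξ` is long -/
def ELen (D : Set W) (ξ : W) (N : ℕ) : Set (Po D) := {a | N < ((rep a).s ξ).length}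

theorem ELen_dense (ξ : W) (N : ℕ) (a : Po D) : ∃ b ≤ a, b ∈ ELen D ξ N := by
  have key : ∀ n, ∃ q ∈ PP D, Ext (rep a) q ∧ n ≤ (q.s ξ).length := by
    intro n
    induction n with
    | zero => exact ⟨rep a, rep_mem a, Ext.refl _, Nat.zero_le _⟩
    | succ n ih =>
      obtain ⟨q, hq, h1, h2⟩ := ih
      obtain ⟨q', hq', h3, x, y, -, h4⟩ := exists_step hq ξ 0
      exact ⟨q', hq', h1.trans h3, by rw [h4, List.length_append]; simpa using h2⟩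
  obtain ⟨q, hq, h1, h2⟩ := key (N + 1)
  refine ⟨cl q hq, cl_le_iff.2 h1, ?_⟩
  have h3 := ((le_cl_iff (hp := hq)).1 le_rfl).s_pre ξ
  exact Nat.lt_of_succ_le (h2.trans h3.length_le)

/-- dense set for the unboundedness -/
def EUnb (R : Set (Po D × Pt W × Pt W)) (k ξ : W) (N : ℕ) : Set (Po D) :=
  {a | ∃ i ≥ N, ∃ x y : ℕ, ((rep a).s k)[i]? = some (x, y) ∧ ∀ r ∈ PP D, Ext (rep a) r → ∀ m ≥ x, r ∉ FRc R (pp ξ i) m}

theorem EUnb_dense {R : Set (Po D × Pt W × Pt W)} {k ξ : W} (hk : UnbK R k) (hξ : ξ ∉ D) (N : ℕ) (a : Po D) :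
    ∃ b ≤ a, b ∈ EUnb R k ξ N := by
  obtain ⟨q, hq, h1, i, hi, x, y, h2, h3⟩ := hk.2 ξ hξ N (rep a) (rep_mem a)
  refine ⟨cl q hq, cl_le_iff.2 h1, i, hi, x, y, ?_, ?_⟩
  · obtain ⟨L, hL⟩ := ((le_cl_iff (hp := hq)).1 le_rfl).s_pre k
    obtain ⟨h4, h5⟩ := List.getElem?_eq_some_iff.1 h2
    rw [← hL, List.getElem?_append_left h4]
    exact h2
  · intro r hr h4
    exact h3 r hr (((le_cl_iff (hp := hq)).1 le_rfl).trans h4)

/-- dense set below `p` -/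
def EBel (R : Set (Po D × Pt W × Pt W)) (x y : Pt W) (p : Po D) : Set (Po D) :=
  {r | (∃ s, r ≤ s ∧ (s, x, y) ∈ R) ∨ ¬ ∃ t, t ≤ r ∧ t ≤ p}

/-- dense set: decide whether a number different from `m` is related to `x` -/
def EUni (R : Set (Po D × Pt W × Pt W)) (x : Pt W) (m : ℕ) : Set (Po D) :=
  {p | (∃ m', m' ≠ m ∧ ∃ s, p ≤ s ∧ (s, x, pn m') ∈ R) ∨ ∀ m', m' ≠ m → ∀ q ≤ p, ∀ s, q ≤ s → (s, x, pn m') ∉ R}

theorem EUni_dense (R : Set (Po D × Pt W × Pt W)) (x : Pt W) (m : ℕ) (a : Po D) : ∃ b ≤ a, b ∈ EUni R x m := by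
  by_cases h : ∃ q ≤ a, ∃ m', m' ≠ m ∧ ∃ s, q ≤ s ∧ (s, x, pn m') ∈ R
  · obtain ⟨q, hq, h⟩ := h
    exact ⟨q, hq, Or.inl h⟩
  · refine ⟨a, le_rfl, Or.inr fun m' hm q hq s hs hR => h ⟨q, hq, m', hm, s, hs, hR⟩⟩

variable (D) in
open Classical in
/-- the closure functions -/
noncomputable def Fc : ℕ × ℕ → List (Ob (Po D) (Pt W)) → Ob (Po D) (Pt W)
  | (0, _), _ => .dx {x | ∃ ξ, ξ ∉ D ∧ x = pw ξ}
  | (1, _), _ => .dx {x | ∃ ξ n, ξ ∉ D ∧ x = pp ξ n}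
  | (2, _), _ => .dx {x | ∃ n, x = pn n}
  | (3, _), _ => .r2 (nX D)
  | (4, _), _ => .r2 (n1 D)
  | (5, _), _ => .r2 (n2 D)
  | (6, _), [.x (.inr (.inl k))] => .r2 (nC D k)
  | (7, N), [.x (.inr (.inl ξ))] => .x (pp ξ N)
  | (8, N), [.x (.inr (.inl ξ))] => .dp (ELen D ξ N)
  | (9, _), [.r2 R] => .dp (ECap R)
  | (10, N), [.r2 R, .x (.inr (.inl k)), .x (.inr (.inl ξ))] => .dp (EUnb R k ξ N)
  | (11, _), [.r2 R, .x x, .x y, .p p] => .dp (EBel R x y p)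
  | (12, N), [.r2 R, .x x] => .dp (EUni R x N)
  | (13, _), [.r2 R, .x x, .x y, .p r] => if h : ∃ s, r ≤ s ∧ (s, x, y) ∈ R then .p h.choose else .r2 (nX D)
  | (14, _), [.r2 R] => if h : ∃ k, UnbK R k then .x (pw h.choose) else .r2 (nX D)
  | (15, _), [.r2 R, .p q] => if h : ∃ ξ, CapAt R (rep q) ξ then .x (pw h.choose) else .r2 (nX D)
  | _, _ => .r2 (nX D)

end Pool.Agent.SSN
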