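import Mathlib

/-!
# The forcing notion: finite support iteration of the pair forcing with names in the conditions
-/

namespace Pool.Agent.SSN

open Set

/-- raw conditions: `s ξ` is the finite sequence of pairs at the coordinate `ξ`; there are `l ξ` names of
colourings at `ξ`; the name number `t` says: if `T ξ t e n` is in the generic filter then the colour of
`e` is `v ξ t e n` -/
inductive Cond (W : Type) : Type
  | z : Cond W
  | mk (s : W → List (ℕ × ℕ)) (l : W → ℕ) (T : W → ℕ → ℕ → ℕ → Cond W) (v : W → ℕ → ℕ → ℕ → ℕ) : Cond W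

namespace Cond

variable {W : Type}

/-- the sequences of pairs -/
def s : Cond W → W → List (ℕ × ℕ)
  | .z => fun _ => []
  | .mk s _ _ _ => s

/-- the numbers of names -/
def l : Cond W → W → ℕ
  | .z => fun _ => 0
  | .mk _ l _ _ => l

/-- the conditions in the names -/
def T : Cond W → W → ℕ → ℕ → ℕ → Cond W
  | .z => fun _ _ _ _ => .z
  | .mk _ _ T _ => T

/-- the values in the names -/
def v : Cond W → W → ℕ → ℕ → ℕ → ℕ
  | .z => fun _ _ _ _ => 0
  | .mk _ _ _ v => v

variable [LinearOrder W]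

/-- the restriction to the coordinates below `ξ` -/
def res (p : Cond W) (ξ : W) : Cond W :=
  .mk (fun η => if η < ξ then p.s η else []) (fun η => if η < ξ then p.l η else 0)
    (fun η => if η < ξ then p.T η else fun _ _ _ => .z) (fun η => if η < ξ then p.v η else fun _ _ _ => 0)

end Cond

variable {W : Type} [LinearOrder W]

/-- `Ext p q`: the condition `q` is stronger than `p`. The names of `p` give the same colour to
`(i, x)` and `(i, y)` for each new pair `(x, y)`, of number `i`. -/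
def Ext : Cond W → Cond W → Prop
  | .z, _ => True
  | .mk s l T v, q =>
    (∀ ξ, s ξ <+: q.s ξ) ∧
    (∀ ξ, ∀ t < l ξ, ∃ t' < q.l ξ, T ξ t = q.T ξ t' ∧ v ξ t = q.v ξ t') ∧
    ∀ ξ, ∀ t < l ξ, ∀ i x y, (s ξ).length ≤ i → (q.s ξ)[i]? = some (x, y) →
      ∃ n m, v ξ t (Nat.pair i x) n = v ξ t (Nat.pair i y) m ∧
        Ext (T ξ t (Nat.pair i x) n) (q.res ξ) ∧ Ext (T ξ t (Nat.pair i y) m) (q.res ξ)

/-- the number of colours of the points `(i, x)` -/
def bnd (e : ℕ) : ℕ := 2 * 4 ^ (Nat.unpair e).1 + 1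

/-- `T`, `v` is a name of a colouring for the forcing `V` -/
structure Legit (V : Set (Cond W)) (T : ℕ → ℕ → Cond W) (v : ℕ → ℕ → ℕ) : Prop where
  mem : ∀ e n, T e n ∈ V
  lt : ∀ e n, v e n < bnd e
  dense : ∀ e, ∀ r ∈ V, ∃ r' ∈ V, Ext r r' ∧ ∃ n, Ext (T e n) r'
  coh : ∀ e n n', ∀ r ∈ V, Ext (T e n) r → Ext (T e n') r → v e n = v e n'

/-- increasing sequences of pairs -/
def Inc (L : List (ℕ × ℕ)) : Prop :=
  (∀ i x y : ℕ, L[i]? = some (x, y) → x < y) ∧
  ∀ i x y x' y' : ℕ, L[i]? = some (x, y) → L[i + 1]? = some (x', y') → y < x'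

/-- the support -/
def supp (p : Cond W) : Set W := {ξ | p.s ξ ≠ [] ∨ p.l ξ ≠ 0}

/-- the requirements which do not concern the names; no names are allowed at the coordinates in `D` -/
structure Bas (D : Set W) (p : Cond W) : Prop where
  fin : (supp p).Finite
  inc : ∀ ξ, Inc (p.s ξ)
  nD : ∀ ξ ∈ D, p.l ξ = 0

/-- the conditions with support below `ξ` -/
def Val [WellFoundedLT W] (D : Set W) (ξ : W) : Set (Cond W) :=
  {p | Bas D p ∧ (∀ η, ξ ≤ η → p.s η = [] ∧ p.l η = 0) ∧
    ∀ η, ∀ h : η < ξ, ∀ t < p.l η, Legit (Val D η) (p.T η t) (p.v η t)}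
termination_by (wellFounded_lt (α := W)).wrap ξ
decreasing_by exact h

/-- all conditions -/
def PP [WellFoundedLT W] (D : Set W) : Set (Cond W) :=
  {p | Bas D p ∧ ∀ η, ∀ t < p.l η, Legit (Val D η) (p.T η t) (p.v η t)}

end Pool.Agent.SSN
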