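import Pool.Agent.SSN.MCov
import Pool.Agent.Helper79.Kurepa.Base
import Pool.Agent.Helper79.ZF.Fun

/-!
# A family of functions from which every function is eventually different gives a covering of the
Baire space by meagre sets of at most the same size
-/

namespace Pool.Agent.SSN

open Set Filter Pool.Agent.Helper79.ZF Pool.Agent.Helper79.Kurepa Pool.Agent.Helper79.Ssc

namespace CovEv

variable {N : Type} [Membership N N] [ZFModel N]

variable (N) in
/-- the numerals of the model -/
noncomputable def kn : ℕ → N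
  | 0 => emp
  | n + 1 => suc (kn n)

theorem num_iff {n : ℕ} {z : N} : Num n z ↔ z = kn N n := by
  induction n generalizing z with
  | zero =>
    constructor
    · intro h
      apply ext'
      intro w
      constructor
      · intro hw
        exact absurd hw (h w)
      · intro hw
        exact absurd hw (not_mem_emp w)
    · rintro rfl w hw
      exact not_mem_emp w hw
  | succ n ih =>
    constructor
    · rintro ⟨y, hy, h⟩
      rw [ih.1 hy] at h
      apply ext'
      intro w
      rw [h w]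
      show _ ↔ w ∈ suc (kn N n)
      rw [mem_suc]
    · rintro rfl
      refine ⟨kn N n, ih.2 rfl, fun w => ?_⟩
      show w ∈ suc (kn N n) ↔ _
      rw [mem_suc]

theorem kn_mem (n : ℕ) : kn N n ∈ om N := by
  induction n with
  | zero => exact zero_mem_om
  | succ n ih => exact suc_mem_om ih

theorem kn_mem_kn {m n : ℕ} (h : m < n) : kn N m ∈ kn N n := by
  induction n with
  | zero => omega
  | succ n ih =>
    show kn N m ∈ suc (kn N n)
    rw [mem_suc]
    rcases Nat.lt_succ_iff_lt_or_eq.1 h with h | h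
    · exact Or.inl (ih h)
    · exact Or.inr (by rw [h])

theorem kn_inj {m n : ℕ} (h : kn N m = kn N n) : m = n := by
  rcases lt_trichotomy m n with h1 | h1 | h1
  · have := kn_mem_kn (N := N) h1
    rw [h] at this
    exact absurd this (mem_irrefl _)
  · exact h1
  · have := kn_mem_kn (N := N) h1
    rw [h] at this
    exact absurd this (mem_irrefl _)

theorem mem_kn {n : ℕ} {z : N} (h : z ∈ kn N n) : ∃ m, m < n ∧ z = kn N m := by
  induction n with
  | zero => exact absurd h (not_mem_emp z)
  | succ n ih =>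
    have h' : z ∈ suc (kn N n) := h
    rw [mem_suc] at h'
    rcases h' with h' | h'
    · obtain ⟨m, hm, rfl⟩ := ih h'
      exact ⟨m, by omega, rfl⟩
    · exact ⟨n, by omega, h'⟩

theorem mfn_iff {f : N} : MFn f ↔ f ∈ Fn (om N) (om N) := by
  constructor
  · intro h
    obtain ⟨h1, h2⟩ := h (om N) (isOmega_iff.2 rfl)
    rw [mem_Fn]
    constructor
    · intro t ht
      obtain ⟨x, y, hx, hy, hp⟩ := h1 t ht
      rw [isPair_iff] at hp
      rw [hp, opair_mem_prodS]
      exact ⟨hx, hy⟩
    · intro x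
      obtain ⟨y, hy, hyy⟩ := h2 x.v x.mem
      refine ⟨El.mk y hy, ?_, ?_⟩
      · obtain ⟨p, hp, hpp⟩ := (hyy y).2 rfl
        rw [isPair_iff] at hpp
        rw [hpp] at hp
        exact hp
      · intro y' hy'
        exact (hyy y').1 ⟨_, hy', isPair_iff.2 rfl⟩
  · intro h W hW
    rw [isOmega_iff] at hW
    subst hW
    rw [mem_Fn] at h
    constructor
    · intro z hz
      obtain ⟨a, b, ha, hb, rfl⟩ := mem_prodS.1 (h.1 z hz)
      exact ⟨a, b, ha, hb, isPair_iff.2 rfl⟩
    · intro x hx
      obtain ⟨y, h1, h2⟩ := h.2 (El.mk x hx)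
      refine ⟨y.v, y.mem, fun y' => ?_⟩
      constructor
      · rintro ⟨p, hp, hpp⟩
        rw [isPair_iff] at hpp
        rw [hpp] at hp
        exact h2 y' hp
      · rintro rfl
        exact ⟨_, h1, isPair_iff.2 rfl⟩

theorem mval_iff {f : N} {n m : ℕ} : MVal f n m ↔ opair (kn N n) (kn N m) ∈ f := by
  unfold MVal
  simp only [num_iff, isPair_iff]
  constructor
  · rintro ⟨x, y, p, rfl, rfl, hp, rfl⟩
    exact hp
  · intro h
    exact ⟨_, _, _, rfl, rfl, h, rfl⟩

theorem app_kn (hN : OmegaModel N) {f : N} (hf : MFn f) (n : ℕ) :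
    app f (kn N n) = kn N (decF f n) := by
  have hf' := mfn_iff.1 hf
  obtain ⟨y, h1, h2⟩ := Fn_spec (El.mk f hf') (El.mk (kn N n) (kn_mem n))
  simp only [El.mk_v] at h1 h2
  obtain ⟨m, hm⟩ := hN (om N) (isOmega_iff.2 rfl) y.v y.mem
  rw [num_iff] at hm
  have hval : ∃ m, MVal f n m := ⟨m, by rw [mval_iff, h2, hm]⟩
  have h3 : MVal f n (decF f n) := by
    unfold decF
    rw [dif_pos hval]
    exact hval.choose_spec
  rw [mval_iff, h2] at h3
  rw [h1, h3]

theorem mem_fn_kn (hN : OmegaModel N) {f : N} (hf : MFn f) {n m : ℕ} :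
    MVal f n m ↔ decF f n = m := by
  have hf' := mfn_iff.1 hf
  obtain ⟨y, h1, h2⟩ := Fn_spec (El.mk f hf') (El.mk (kn N n) (kn_mem n))
  simp only [El.mk_v] at h1 h2
  rw [mval_iff, h2, ← h1, app_kn hN hf]
  constructor
  · intro h
    exact (kn_inj h).symm
  · intro h
    rw [h]

variable (N) in
/-- the functions eventually different from `c` -/
noncomputable def evd (c : N) : N := sepS (Fn (om N) (om N))
  (fun z => ∃ m : N, m ∈ om N ∧ ∀ n : N, n ∈ om N → m ∈ n → app z n ≠ app c n)

variable (N) in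
noncomputable def evdS (c : N) : N := sepS (prodS (om N) (Fn (om N) (om N)))
  (fun t => ∀ n : N, n ∈ om N → fst t ∈ n → app (snd t) n ≠ app c n)

theorem evd_def : DefF N (evd N) := by
  unfold evd
  fun_prop

theorem mem_evd {c z : N} : z ∈ evd N c ↔ (z ∈ Fn (om N) (om N) ∧
    ∃ m : N, m ∈ om N ∧ ∀ n : N, n ∈ om N → m ∈ n → app z n ≠ app c n) := by
  unfold evd
  rw [mem_sepS (by fun_prop)]

theorem mem_evdS {c m z : N} : opair m z ∈ evdS N c ↔ (m ∈ om N ∧ z ∈ Fn (om N) (om N) ∧
    ∀ n : N, n ∈ om N → m ∈ n → app z n ≠ app c n) := by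
  unfold evdS
  rw [mem_sepS (by fun_prop), opair_mem_prodS, fst_opair, snd_opair, and_assoc]

theorem ev_iff (hN : OmegaModel N) {c z : N} (hc : MFn c) (hz : MFn z) (m : ℕ) :
    (∀ n : N, n ∈ om N → kn N m ∈ n → app z n ≠ app c n) ↔
      ∀ n : ℕ, m < n → decF z n ≠ decF c n := by
  constructor
  · intro h n hn h'
    apply h (kn N n) (kn_mem n) (kn_mem_kn hn)
    rw [app_kn hN hz, app_kn hN hc, h']
  · intro h n hn hmn
    obtain ⟨k, hk⟩ := hN (om N) (isOmega_iff.2 rfl) n hn
    rw [num_iff] at hk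
    subst hk
    obtain ⟨m', hm', e⟩ := mem_kn hmn
    have e' := kn_inj e
    subst e'
    rw [app_kn hN hz, app_kn hN hc]
    intro h'
    exact h k hm' (kn_inj h')

theorem meagre_evd (hN : OmegaModel N) {c : N} (hc : MFn c) : MMeagre (evd N c) := by
  refine ⟨fun f hf => mfn_iff.2 (mem_evd.1 hf).1, evdS N c, ?_, ?_⟩
  · intro m σ
    refine ⟨List.replicate (m + 1 - σ.length) 0 ++
      [decF c (σ.length + (m + 1 - σ.length))], ?_⟩
    rintro f hf ⟨z, p, hz, hp, hpz⟩ hpre
    rw [num_iff] at hz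
    rw [isPair_iff] at hpz
    subst hz
    subst hpz
    have h1 := (mem_evdS.1 hp).2.2
    rw [ev_iff hN hc hf] at h1
    have h2 := hpre (σ.length + (m + 1 - σ.length)) (by
      simp only [List.length_append, List.length_replicate, List.length_singleton]
      omega)
    apply h1 (σ.length + (m + 1 - σ.length)) (by omega)
    rw [h2]
    simp only [← List.append_assoc]
    rw [List.getElem_append_right (by
      simp only [List.length_append, List.length_replicate]
      omega)]
    simp
  · intro f hf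
    obtain ⟨h1, m, hm, h2⟩ := mem_evd.1 hf
    obtain ⟨k, hk⟩ := hN (om N) (isOmega_iff.2 rfl) m hm
    exact ⟨k, m, opair m f, hk, mem_evdS.2 ⟨hm, h1, h2⟩, isPair_iff.2 rfl⟩

end CovEv

open CovEv in
/-- If every function of the model is eventually different from a member of `C0`, then there is a
covering of the Baire space by meagre sets which has at most the size of `C0`. -/
theorem exists_MCovM {N : Type} [Membership N N] (hz : ZFCModel N) (hN : OmegaModel N) {C0 : N}
    (h1 : ∀ c : N, c ∈ C0 → MFn c)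
    (h2 : ∀ f : N, MFn f → ∃ c : N, c ∈ C0 ∧ ∀ᶠ n in atTop, decF f n ≠ decF c n) :
    ∃ C : N, MCovM C ∧ Le C C0 := by
  haveI : ZFModel N := hz.1
  haveI : ZFCM N := { toZFModel := hz.1, ac := hz.2 }
  refine ⟨repS C0 (evd N), ⟨?_, ?_⟩, le_repS evd_def⟩
  · intro A hA
    rw [mem_repS evd_def] at hA
    obtain ⟨c, hc, rfl⟩ := hA
    exact meagre_evd hN (h1 c hc)
  · intro f hf
    obtain ⟨c, hc, h⟩ := h2 f hf
    refine ⟨evd N c, (mem_repS evd_def).2 ⟨c, hc, rfl⟩, ?_⟩
    rw [eventually_atTop] at h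
    obtain ⟨m, hm⟩ := h
    refine mem_evd.2 ⟨mfn_iff.1 hf, kn N m, kn_mem m, ?_⟩
    rw [ev_iff hN (h1 c hc) hf]
    intro n hn
    exact hm n hn.le

end Pool.Agent.SSN
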