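import Pool.Agent.SSN.GenY
import Pool.Agent.SSN.MCovEv

/-!
# Families of functions and of sets of natural numbers given by relations between points
-/

namespace Pool.Agent.SSN.Fam

open Set Filter Pool.Agent.Helper79.ZF Pool.Agent.Helper79.Kurepa Pool.Agent.SSN

section
variable {N : Type} [Membership N N] [ZFModel N]

theorem kn_eq (n : ℕ) : CovEv.kn N n = nu N n := (CovEv.num_iff.1 (SSN.num_iff.2 rfl)).symm

theorem mval_iff {f : N} {n m : ℕ} : MVal f n m ↔ opair (nu N n) (nu N m) ∈ f := by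
  rw [CovEv.mval_iff, kn_eq, kn_eq]

theorem decF_iff (hN : OmegaModel N) {f : N} (hf : MFn f) {n m : ℕ} :
    opair (nu N n) (nu N m) ∈ f ↔ decF f n = m := by
  rw [← mval_iff, CovEv.mem_fn_kn hN hf]

theorem mem_decS {X : N} {n : ℕ} : n ∈ decS X ↔ nu N n ∈ X := by
  show (∃ z : N, Num n z ∧ z ∈ X) ↔ _
  simp only [SSN.num_iff]
  exact ⟨fun ⟨z, h, h'⟩ => h ▸ h', fun h => ⟨_, rfl, h⟩⟩

theorem mfn_of (hN : OmegaModel N) {f : N} (h1 : ∀ z ∈ f, z ∈ prodS (om N) (om N))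
    (h2 : ∀ n : ℕ, ∃ m : ℕ, ∀ m', opair (nu N n) (nu N m') ∈ f ↔ m' = m) : MFn f := by
  rw [CovEv.mfn_iff, mem_Fn]
  refine ⟨h1, fun x => ?_⟩
  obtain ⟨n, hn⟩ := (mem_om_iff hN).1 x.mem
  obtain ⟨m, hm⟩ := h2 n
  refine ⟨El.mk (nu N m) (nu_mem_om m), ?_, ?_⟩
  · rw [hn]
    exact (hm m).2 rfl
  · intro y' hy'
    rw [hn] at hy'
    have h3 := h1 _ hy'
    rw [opair_mem_prodS] at h3
    obtain ⟨m', hm'⟩ := (mem_om_iff hN).1 h3.2
    rw [hm'] at hy' ⊢
    rw [(hm m').1 hy']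
    rfl

/-- the data of the points: `pt n` is the point of the number `n`; `E` is the set of all pairs
`(pt n, n)`; `K1`, `K2` give the decomposition of a number into a pair -/
structure Dat (pt : ℕ → N) (E K1 K2 : N) : Prop where
  inj : ∀ m n, pt m = pt n → m = n
  e : ∀ z : N, z ∈ E ↔ ∃ n : ℕ, z = opair (pt n) (nu N n)
  k1 : ∀ z : N, z ∈ K1 ↔ ∃ n : ℕ, z = opair (pt n) (pt n.unpair.1)
  k2 : ∀ z : N, z ∈ K2 ↔ ∃ n : ℕ, z = opair (pt n) (pt n.unpair.2)

/-- the function given by the row `w` of the relation `t` -/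
noncomputable def row (E K1 K2 t w : N) : N := sepS (prodS (om N) (om N)) (fun z =>
  ∃ k a b : N, opair w k ∈ t ∧ opair k a ∈ K1 ∧ opair k b ∈ K2 ∧ opair a (fst z) ∈ E ∧ opair b (snd z) ∈ E)

theorem row_def (E K1 K2 t : N) : DefF N (row E K1 K2 t) := by
  unfold row
  fun_prop

variable {pt : ℕ → N} {E K1 K2 : N} (D : Dat pt E K1 K2)

include D in
theorem Dat.mem_e {a : N} {n : ℕ} : opair a (nu N n) ∈ E ↔ a = pt n := by
  rw [D.e]
  constructor
  · rintro ⟨m, h⟩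
    rw [opair_inj] at h
    rw [h.1, nu_inj h.2]
  · rintro rfl
    exact ⟨n, rfl⟩

include D in
theorem Dat.mem_e' {a : N} {n : ℕ} : opair (pt n) a ∈ E ↔ a = nu N n := by
  rw [D.e]
  constructor
  · rintro ⟨m, h⟩
    rw [opair_inj] at h
    rw [h.2, D.inj _ _ h.1]
  · rintro rfl
    exact ⟨n, rfl⟩

include D in
theorem Dat.mem_row {t w : N} {n m : ℕ} :
    opair (nu N n) (nu N m) ∈ row E K1 K2 t w ↔ opair w (pt (Nat.pair n m)) ∈ t := by
  unfold row
  rw [mem_sepS (by fun_prop)]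
  simp only [opair_mem_prodS, fst_opair, snd_opair, D.mem_e]
  constructor
  · rintro ⟨-, k, a, b, h1, h2, h3, rfl, rfl⟩
    rw [D.k1] at h2
    rw [D.k2] at h3
    obtain ⟨k1, h2⟩ := h2
    obtain ⟨k2, h3⟩ := h3
    rw [opair_inj] at h2 h3
    have e1 : k1 = k2 := D.inj _ _ (h2.1.symm.trans h3.1)
    subst e1
    have e2 := D.inj _ _ h2.2
    have e3 := D.inj _ _ h3.2
    rw [e2, e3, Nat.pair_unpair, ← h2.1]
    exact h1
  · intro h
    refine ⟨⟨nu_mem_om n, nu_mem_om m⟩, pt (Nat.pair n m), pt n, pt m, h, ?_, ?_, rfl, rfl⟩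
    · rw [D.k1]
      exact ⟨_, by rw [Nat.unpair_pair]⟩
    · rw [D.k2]
      exact ⟨_, by rw [Nat.unpair_pair]⟩

theorem row_sub {t w z : N} (h : z ∈ row E K1 K2 t w) : z ∈ prodS (om N) (om N) := by
  unfold row at h
  rw [mem_sepS (by fun_prop)] at h
  exact h.1

include D in
theorem Dat.row_fn (hN : OmegaModel N) {t w : N} {g : ℕ → ℕ}
    (h : ∀ n m, opair w (pt (Nat.pair n m)) ∈ t ↔ m = g n) :
    MFn (row E K1 K2 t w) ∧ ∀ n, decF (row E K1 K2 t w) n = g n := by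
  have h1 : MFn (row E K1 K2 t w) := by
    refine mfn_of hN (fun z hz => row_sub hz) fun n => ⟨g n, fun m' => ?_⟩
    rw [D.mem_row, h]
  refine ⟨h1, fun n => ?_⟩
  rw [← decF_iff hN h1, D.mem_row, h]

variable (N) in
/-- the set of the points of the natural numbers -/
noncomputable def PN (E : N) : N := repS E fst

include D in
theorem Dat.mem_PN {z : N} : z ∈ PN N E ↔ ∃ n, z = pt n := by
  unfold PN
  rw [mem_repS (by fun_prop)]
  constructor
  · rintro ⟨w, hw, rfl⟩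
    obtain ⟨n, rfl⟩ := (D.e _).1 hw
    exact ⟨n, by rw [fst_opair]⟩
  · rintro ⟨n, rfl⟩
    exact ⟨_, (D.e _).2 ⟨n, rfl⟩, by rw [fst_opair]⟩

/-- the relation between points given by a function -/
noncomputable def encF (E f : N) : N := sepS (prodS (PN N E) (PN N E)) (fun z =>
  ∃ a b : N, opair (fst z) a ∈ E ∧ opair (snd z) b ∈ E ∧ opair a b ∈ f)

include D in
theorem Dat.mem_encF {f : N} {n m : ℕ} :
    opair (pt n) (pt m) ∈ encF E f ↔ opair (nu N n) (nu N m) ∈ f := by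
  unfold encF
  rw [mem_sepS (by fun_prop)]
  simp only [opair_mem_prodS, fst_opair, snd_opair, D.mem_e']
  constructor
  · rintro ⟨-, a, b, rfl, rfl, h⟩
    exact h
  · intro h
    exact ⟨⟨D.mem_PN.2 ⟨_, rfl⟩, D.mem_PN.2 ⟨_, rfl⟩⟩, _, _, rfl, rfl, h⟩

include D in
/-- the function given by a relation between the points of the natural numbers -/
theorem Dat.exists_fn (hN : OmegaModel N) {t : N} {g : ℕ → ℕ}
    (h : ∀ n m, opair (pt n) (pt m) ∈ t ↔ m = g n) : ∃ f : N, MFn f ∧ ∀ n, decF f n = g n := by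
  have key : ∀ n m, opair (nu N n) (nu N m) ∈ sepS (prodS (om N) (om N)) (fun z =>
      ∃ a b : N, opair a (fst z) ∈ E ∧ opair b (snd z) ∈ E ∧ opair a b ∈ t) ↔ m = g n := by
    intro n m
    rw [mem_sepS (by fun_prop)]
    simp only [opair_mem_prodS, fst_opair, snd_opair, D.mem_e]
    constructor
    · rintro ⟨-, a, b, rfl, rfl, h'⟩
      exact (h _ _).1 h'
    · intro h'
      exact ⟨⟨nu_mem_om n, nu_mem_om m⟩, _, _, rfl, rfl, (h _ _).2 h'⟩
  have h1 : MFn (sepS (prodS (om N) (om N)) (fun z =>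
      ∃ a b : N, opair a (fst z) ∈ E ∧ opair b (snd z) ∈ E ∧ opair a b ∈ t)) := by
    refine mfn_of hN (fun z hz => ?_) fun n => ⟨g n, fun m' => key n m'⟩
    rw [mem_sepS (by fun_prop)] at hz
    exact hz.1
  refine ⟨_, h1, fun n => ?_⟩
  rw [← decF_iff hN h1, key]

include D in
/-- the set given by a row of a relation -/
theorem Dat.exists_set {t w : N} {A : Set ℕ} (h : ∀ n, opair w (pt n) ∈ t ↔ n ∈ A) :
    ∃ X : N, MSubOm X ∧ decS X = A := by
  refine ⟨sepS (om N) (fun z => ∃ k : N, opair w k ∈ t ∧ opair k z ∈ E), ?_, ?_⟩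
  · intro W hW z hz
    rw [mem_sepS (by fun_prop)] at hz
    rw [isOmega_iff.1 hW]
    exact hz.1
  · ext n
    rw [mem_decS, mem_sepS (by fun_prop), ← h n]
    simp only [D.mem_e]
    exact ⟨fun ⟨_, k, h1, h2⟩ => h2 ▸ h1, fun h => ⟨nu_mem_om n, _, h, rfl⟩⟩

end

section
variable {N : Type} [Membership N N] [ZFCM N] {pt : ℕ → N} {E K1 K2 : N} (D : Dat pt E K1 K2)

include D in
/-- A family of subsets of `ω` which is not larger than a set `WP` of points is enumerated by a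
relation between `WP` and the points of the natural numbers. -/
theorem Dat.exists_enum {F WP : N} (hle : Le F WP) :
    ∃ t : N, ∀ X ∈ F, ∃ w ∈ WP, ∀ n, (opair w (pt n) ∈ t ↔ nu N n ∈ X) := by
  obtain ⟨H, hH, h1, h2⟩ := hle.fn
  refine ⟨sepS (prodS WP (PN N E)) (fun z => ∃ X : N, X ∈ F ∧ H X = fst z ∧ ∃ a : N,
    opair (snd z) a ∈ E ∧ a ∈ X), fun X hX => ⟨H X, h1 X hX, fun n => ?_⟩⟩
  rw [mem_sepS (by fun_prop)]
  simp only [opair_mem_prodS, fst_opair, snd_opair, D.mem_e']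
  constructor
  · rintro ⟨-, Y, hY, h3, a, rfl, h4⟩
    rw [h2 Y X hY hX h3] at h4
    exact h4
  · intro h
    exact ⟨⟨h1 X hX, D.mem_PN.2 ⟨n, rfl⟩⟩, X, hX, rfl, _, rfl, h⟩

end

end Pool.Agent.SSN.Fam
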