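import Pool.Agent.SSN.Clo

/-!
# Consequences of genericity
-/

namespace Pool.Agent.SSN

open Set Pool.Agent.SSL Pool.Agent.Helper79.ZF Pool.Agent.Helper79.Kurepa

variable {W : Type} [LinearOrder W] [WellFoundedLT W] {D : Set W}
variable {𝓜 : Set (Ob (Po D) (Pt W))} {N : Type} [Membership N N] [ZFModel N] {j : Pt W → N} {G : Set (Po D)}

/-- the generic extension -/
abbrev Ge (D : Set W) (𝓜 : Set (Ob (Po D) (Pt W))) (N : Type) [Membership N N] [ZFModel N] (j : Pt W → N)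
    (G : Set (Po D)) : Prop := GenY (Po D) (Pt W) pn (Fc D) 𝓜 N j G

variable (A : Ge D 𝓜 N j G)
include A

theorem Ge.clo0 (i : ℕ × ℕ) : Fc D i [] ∈ 𝓜 := A.closed i [] (by simp)
theorem Ge.clo1 (i : ℕ × ℕ) {a : Ob (Po D) (Pt W)} (ha : a ∈ 𝓜) : Fc D i [a] ∈ 𝓜 := A.closed i [a] (by simpa using ha)
theorem Ge.clo2 (i : ℕ × ℕ) {a b : Ob (Po D) (Pt W)} (ha : a ∈ 𝓜) (hb : b ∈ 𝓜) : Fc D i [a, b] ∈ 𝓜 :=
  A.closed i [a, b] (by simp [ha, hb])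
theorem Ge.clo3 (i : ℕ × ℕ) {a b c : Ob (Po D) (Pt W)} (ha : a ∈ 𝓜) (hb : b ∈ 𝓜) (hc : c ∈ 𝓜) :
    Fc D i [a, b, c] ∈ 𝓜 := A.closed i [a, b, c] (by simp [ha, hb, hc])
theorem Ge.clo4 (i : ℕ × ℕ) {a b c d : Ob (Po D) (Pt W)} (ha : a ∈ 𝓜) (hb : b ∈ 𝓜) (hc : c ∈ 𝓜) (hd : d ∈ 𝓜) :
    Fc D i [a, b, c, d] ∈ 𝓜 := A.closed i [a, b, c, d] (by simp [ha, hb, hc, hd])

theorem Ge.pp_mem {ξ : W} (h : Ob.x (pw ξ) ∈ 𝓜) (n : ℕ) : Ob.x (pp ξ n) ∈ 𝓜 := A.clo1 (7, n) h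
theorem Ge.len_mem {ξ : W} (h : Ob.x (pw ξ) ∈ 𝓜) (n : ℕ) : Ob.dp (ELen D ξ n) ∈ 𝓜 := A.clo1 (8, n) h
theorem Ge.nC_mem {ξ : W} (h : Ob.x (pw ξ) ∈ 𝓜) : Ob.r2 (nC D ξ) ∈ 𝓜 := A.clo1 (6, 0) h

/-- some `s ≥ r` in the filter -/
theorem Ge.pick {R : Set (Po D × Pt W × Pt W)} (hR : Ob.r2 R ∈ 𝓜) {x y : Pt W} (hx : Ob.x x ∈ 𝓜) (hy : Ob.x y ∈ 𝓜)
    {r : Po D} (hr : r ∈ G) (h : ∃ s, r ≤ s ∧ (s, x, y) ∈ R) : ∃ s ∈ G, (s, x, y) ∈ R := by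
  have h1 := A.clo4 (13, 0) hR hx hy (A.Gsub r hr)
  have h2 : Fc D (13, 0) [.r2 R, .x x, .x y, .p r] = .p h.choose := by
    simp only [Fc]
    rw [dif_pos h]
  rw [h2] at h1
  exact ⟨h.choose, A.up r hr _ h.choose_spec.1 h1, h.choose_spec.2⟩

/-- a forced relation holds -/
theorem Ge.full {R : Set (Po D × Pt W × Pt W)} (hR : Ob.r2 R ∈ 𝓜) {x y : Pt W} (hx : Ob.x x ∈ 𝓜) (hy : Ob.x y ∈ 𝓜)
    {p : Po D} (hp : p ∈ G) (h : ∀ q ≤ p, ∃ r ≤ q, ∃ s, r ≤ s ∧ (s, x, y) ∈ R) : ∃ s ∈ G, (s, x, y) ∈ R := by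
  obtain ⟨r, hr, hr'⟩ := A.gen (EBel R x y p) (A.clo4 (11, 0) hR hx hy (A.Gsub p hp)) (by
    intro a
    by_cases hc : ∃ t, t ≤ a ∧ t ≤ p
    · obtain ⟨t, h1, h2⟩ := hc
      obtain ⟨r, hr, s, hs, hsR⟩ := h t h2
      exact ⟨r, hr.trans h1, Or.inl ⟨s, hs, hsR⟩⟩
    · exact ⟨a, le_rfl, Or.inr hc⟩)
  rcases hr' with h1 | h1
  · exact A.pick hR hx hy hr h1
  · obtain ⟨t, -, h2, h3⟩ := A.dir r hr p hp
    exact absurd ⟨t, h2, h3⟩ h1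

/-- a unique value is forced to be the unique value -/
theorem Ge.uni {R : Set (Po D × Pt W × Pt W)} (hR : Ob.r2 R ∈ 𝓜) {x : Pt W} (hx : Ob.x x ∈ 𝓜) {m : ℕ}
    (h : ∃ s ∈ G, (s, x, pn m) ∈ R) (h' : ∀ m', (∃ s ∈ G, (s, x, pn m') ∈ R) → m' = m) : ∃ p ∈ G, p ∈ FR R x m := by
  obtain ⟨p0, hp0, hp0R⟩ := h
  obtain ⟨p1, hp1, hp1E⟩ := A.gen (EUni R x m) (A.clo2 (12, m) hR hx) (EUni_dense R x m)
  rcases hp1E with ⟨m', hm', h1⟩ | h1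
  · exact absurd (h' m' (A.pick hR hx (A.nm m') hp1 h1)) hm'
  · obtain ⟨p, hp, h2, h3⟩ := A.dir p0 hp0 p1 hp1
    exact ⟨p, hp, fun q hq => ⟨q, le_rfl, p0, hq.trans h2, hp0R⟩, fun m' hm' q hq => h1 m' hm' q (hq.trans h3)⟩

theorem Ge.val {R : Set (Po D × Pt W × Pt W)} (hR : Ob.r2 R ∈ 𝓜) {x : Pt W} (hx : Ob.x x ∈ 𝓜) {m : ℕ}
    {p : Po D} (hp : p ∈ G) (h : p ∈ FR R x m) : ∃ s ∈ G, (s, x, pn m) ∈ R :=
  A.full hR hx (A.nm m) hp h.1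

omit [Membership N N] [ZFModel N] A in
theorem Ge.pre {g g' : Po D} (h : g' ≤ g) (ξ : W) {i x y : ℕ} (hi : ((rep g).s ξ)[i]? = some (x, y)) :
    ((rep g').s ξ)[i]? = some (x, y) := by
  obtain ⟨L, hL⟩ := (le_iff.1 h).s_pre ξ
  obtain ⟨h4, -⟩ := List.getElem?_eq_some_iff.1 hi
  rw [← hL, List.getElem?_append_left h4]
  exact hi

/-- the generic sequence of pairs at the coordinate `ξ` -/
theorem Ge.seq {ξ : W} (hξ : Ob.x (pw ξ) ∈ 𝓜) : ∃ X Y : ℕ → ℕ, (∀ i : ℕ, ∃ g ∈ G, ((rep g).s ξ)[i]? = some (X i, Y i)) ∧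
    (∀ g ∈ G, ∀ i x y : ℕ, ((rep g).s ξ)[i]? = some (x, y) → x = X i ∧ y = Y i) ∧ (∀ i, X i < Y i) ∧
    ∀ i, Y i < X (i + 1) := by
  have h1 : ∀ i : ℕ, ∃ z : ℕ × ℕ, ∃ g ∈ G, ((rep g).s ξ)[i]? = some z := by
    intro i
    obtain ⟨g, hg, hi⟩ := A.gen (ELen D ξ i) (A.len_mem hξ i) (ELen_dense ξ i)
    exact ⟨_, g, hg, List.getElem?_eq_getElem hi⟩
  choose Z hZ using h1
  have h2 : ∀ g ∈ G, ∀ i x y : ℕ, ((rep g).s ξ)[i]? = some (x, y) → x = (Z i).1 ∧ y = (Z i).2 := by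
    intro g hg i x y h
    obtain ⟨g', hg', h'⟩ := hZ i
    obtain ⟨r, -, h3, h4⟩ := A.dir g hg g' hg'
    have h5 := Ge.pre h3 ξ h
    have h6 := Ge.pre h4 ξ (x := (Z i).1) (y := (Z i).2) h'
    rw [h5] at h6
    have h7 := Option.some_injective _ h6
    rw [Prod.mk.injEq] at h7
    exact h7
  refine ⟨fun i => (Z i).1, fun i => (Z i).2, fun i => hZ i, h2, fun i => ?_, fun i => ?_⟩
  · obtain ⟨g, -, h⟩ := hZ i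
    exact ((rep_mem g).1.inc ξ).1 i _ _ h
  · obtain ⟨g, hg, h⟩ := hZ i
    obtain ⟨g', hg', h'⟩ := hZ (i + 1)
    obtain ⟨r, -, h3, h4⟩ := A.dir g hg g' hg'
    exact ((rep_mem r).1.inc ξ).2 i _ _ _ _ (Ge.pre h3 ξ (x := (Z i).1) (y := (Z i).2) h)
      (Ge.pre h4 ξ (x := (Z (i + 1)).1) (y := (Z (i + 1)).2) h')

/-- the capturing property in the extension -/
theorem Ge.capture (hcof : ∀ A : Set W, A.Countable → ∃ ξ, ξ ∉ D ∧ ∀ a ∈ A, a < ξ)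
    {R : Set (Po D × Pt W × Pt W)} (hR : Ob.r2 R ∈ 𝓜) {f : ℕ → ℕ}
    (hf : ∀ n m, (∃ s ∈ G, (s, pn n, pn m) ∈ R) ↔ f n = m) :
    ∃ ξ, ξ ∉ D ∧ Ob.x (pw ξ) ∈ 𝓜 ∧ ∀ X Y : ℕ → ℕ, (∀ i : ℕ, ∃ g ∈ G, ((rep g).s ξ)[i]? = some (X i, Y i)) →
      ∀ i, col i (psum f (X i)) = col i (psum f (Y i)) := by
  have hFR : ∀ n m, ∀ g ∈ G, g ∈ FR R (pn n) m → f n = m := fun n m g hg h =>
    (hf n m).1 (A.val hR (A.nm n) hg h)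
  obtain ⟨q, hq, hqE⟩ := A.gen (ECap R) (A.clo1 (9, 0) hR) (ECap_dense hcof R)
  rcases hqE with ⟨n, h1⟩ | h1
  · exfalso
    obtain ⟨p, hp, hpF⟩ := A.uni hR (A.nm n) ((hf n (f n)).2 rfl) (fun m' h => ((hf n m').1 h).symm)
    obtain ⟨r, -, h2, h3⟩ := A.dir q hq p hp
    refine h1 (rep r) (rep_mem r) (le_iff.1 h2) (f n) ⟨rep_mem r, ?_⟩
    rw [cl_rep]
    exact ⟨fun q' hq' => hpF.1 q' (hq'.trans h3), fun m' hm' q' hq' => hpF.2 m' hm' q' (hq'.trans h3)⟩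
  · have h2 := A.clo2 (15, 0) hR (A.Gsub q hq)
    have h3 : Fc D (15, 0) [.r2 R, .p q] = .x (pw h1.choose) := by
      simp only [Fc]
      rw [dif_pos h1]
    rw [h3] at h2
    obtain ⟨hξ, hs, p, hp, hpq, t, ht, h4⟩ := h1.choose_spec
    refine ⟨h1.choose, hξ, h2, fun X Y hXY i => ?_⟩
    obtain ⟨g0, hg0, hg0i⟩ := hXY i
    obtain ⟨g, hg, hg1, hg2⟩ := A.dir g0 hg0 q hq
    have hgi := Ge.pre hg1 h1.choose hg0i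
    have hqg : Ext (rep q) (rep g) := le_iff.1 hg2
    obtain ⟨n, m, h5, h6, h7⟩ := hqg.new h1.choose t ht i (X i) (Y i) (by rw [hs]; exact Nat.zero_le _) hgi
    have key : ∀ e k, Ext ((rep q).T h1.choose t e k) ((rep g).res h1.choose) →
        (rep q).v h1.choose t e k = col (Nat.unpair e).1 (psum f (Nat.unpair e).2) := by
      intro e k hek
      have hT : Ext ((rep q).T h1.choose t e k) (rep g) := hek.trans (Ext.of_res _ _)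
      rcases h4 e k with h8 | ⟨a, h8, h9⟩
      · exact absurd ⟨rep g, rep_mem g, hpq.trans hqg, hT⟩ h8
      · rw [h9]
        congr 1
        unfold psum
        apply Finset.sum_congr rfl
        intro j' hj'
        rw [Finset.mem_range] at hj'
        obtain ⟨hTm, hTF⟩ := h8 j' hj'
        have h10 : rep g ∈ FRc R (pn j') (a j') := FRc_open R (pn j') (a j') _ hTm _ (rep_mem g) ⟨hTm, hTF⟩ hT
        obtain ⟨h11, h12⟩ := h10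
        rw [cl_rep] at h12
        rw [hFR j' (a j') g hg h12]
    have h8 := key _ n h6
    have h9 := key _ m h7
    simp only [Nat.unpair_pair] at h8 h9
    rw [← h8, ← h9, h5]

/-- an undominated Cohen real in the extension -/
theorem Ge.undominated (hD : ∀ F : D → W, (∀ k, F k ∉ D) → ∃ ξ, ¬ {k | F k = ξ}.Countable)
    {R : Set (Po D × Pt W × Pt W)} (hR : Ob.r2 R ∈ 𝓜) :
    ∃ k, Ob.x (pw k) ∈ 𝓜 ∧ ∀ ξ, ξ ∉ D → Ob.x (pw ξ) ∈ 𝓜 → ∀ h : ℕ → ℕ,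
      (∀ n m, (∃ s ∈ G, (s, pp ξ n, pn m) ∈ R) ↔ h n = m) → ∀ N0 : ℕ, ∃ i ≥ N0, ∃ x y : ℕ, ∃ g ∈ G,
        ((rep g).s k)[i]? = some (x, y) ∧ h i < x := by
  have h0 := exists_UnbK hD R
  have h1 := A.clo1 (14, 0) hR
  have h2 : Fc D (14, 0) [.r2 R] = .x (pw h0.choose) := by
    simp only [Fc]
    rw [dif_pos h0]
  rw [h2] at h1
  refine ⟨h0.choose, h1, fun ξ hξ hξM h hh N0 => ?_⟩
  obtain ⟨q, hq, i, hi, x, y, h3, h4⟩ := A.gen (EUnb R h0.choose ξ N0) (A.clo3 (10, N0) hR h1 hξM)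
    (EUnb_dense h0.choose_spec hξ N0)
  refine ⟨i, hi, x, y, q, hq, h3, ?_⟩
  by_contra hcon
  obtain ⟨p, hp, hpF⟩ := A.uni hR (A.pp_mem hξM i) ((hh i (h i)).2 rfl) (fun m' h' => ((hh i m').1 h').symm)
  obtain ⟨r, -, h5, h6⟩ := A.dir q hq p hp
  refine h4 (rep r) (rep_mem r) (le_iff.1 h5) (h i) (not_lt.1 hcon) ⟨rep_mem r, ?_⟩
  rw [cl_rep]
  exact ⟨fun q' hq' => hpF.1 q' (hq'.trans h6), fun m' hm' q' hq' => hpF.2 m' hm' q' (hq'.trans h6)⟩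

end Pool.Agent.SSN
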