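import Mathlib

/-!
# The index set
-/

namespace Pool.Agent.SSN

open Set Cardinal Ordinal

/-- a well-ordered index set: `aleph_2` Cohen coordinates followed by `omega_1` coordinates -/
theorem exists_idx : ∃ (W : Type) (_ : LinearOrder W) (_ : WellFoundedLT W) (D : Set W),
    (∀ F : D → W, (∀ k, F k ∉ D) → ∃ ξ, ¬ {k | F k = ξ}.Countable) ∧
    (∀ A : Set W, A.Countable → ∃ ξ, ξ ∉ D ∧ ∀ a ∈ A, a < ξ) := by
  let K : Type := (ℵ_ 2).ord.ToType
  let L : Type := (ℵ_ 1).ord.ToType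
  have hK : #K = ℵ_ 2 := by simp [K]
  have hL : #L = ℵ_ 1 := by simp [L]
  have hwf : WellFoundedLT (K ⊕ₗ L) := ⟨Sum.lex_wf wellFounded_lt wellFounded_lt⟩
  refine ⟨K ⊕ₗ L, inferInstance, hwf, {w | ∃ k : K, w = Sum.inlₗ k}, ?_, ?_⟩
  · intro F hF
    have h1 : ∀ k : K, ∃ b : L, F ⟨Sum.inlₗ k, k, rfl⟩ = Sum.inrₗ b := by
      intro k
      have h := hF ⟨Sum.inlₗ k, k, rfl⟩
      rcases h2 : ofLex (F ⟨Sum.inlₗ k, k, rfl⟩) with a | b
      · exact absurd ⟨a, by rw [← toLex_ofLex (F _), h2]⟩ h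
      · exact ⟨b, by rw [← toLex_ofLex (F _), h2]⟩
    choose f hf using h1
    have h2 : (ℵ_ 2 : Cardinal.{0}).IsRegular := by
      have := isRegular_aleph_add_one (1 : Ordinal.{0})
      rwa [one_add_one_eq_two] at this
    obtain ⟨a, ha⟩ := Cardinal.infinite_pigeonhole_card f (ℵ_ 2) (by rw [hK]) h2.aleph0_le (by
      rw [h2.cof_ord, hL]
      exact aleph_lt_aleph.2 (by norm_num))
    refine ⟨Sum.inrₗ a, fun hc => ?_⟩
    have h3 : (f ⁻¹' {a}).Countable := by
      have hinj : Function.Injective (fun k : f ⁻¹' {a} => (⟨⟨Sum.inlₗ k.1, k.1, rfl⟩, by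
          show F ⟨Sum.inlₗ k.1, k.1, rfl⟩ = Sum.inrₗ a
          rw [hf, k.2]⟩ : {k | F k = Sum.inrₗ a})) := by
        intro k k' h
        have h4 := congrArg (fun x => x.1.1) h
        exact Subtype.ext (Sum.inl_injective h4)
      have := hc.to_subtype
      exact hinj.countable.to_set
    have h4 : ℵ_ 2 ≤ ℵ₀ := ha.trans (Cardinal.le_aleph0_iff_set_countable.2 h3)
    have h5 : (ℵ₀ : Cardinal.{0}) < ℵ_ 2 := by
      rw [← aleph_zero]; exact aleph_lt_aleph.2 (by norm_num)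
    exact absurd h4 (not_le.2 h5)
  · intro A hA
    have h1 : {b : L | (Sum.inrₗ b : K ⊕ₗ L) ∈ A}.Countable := hA.preimage Sum.inr_injective
    obtain ⟨b, hb⟩ : ∃ b : L, ∀ c ∈ {b : L | (Sum.inrₗ b : K ⊕ₗ L) ∈ A}, c < b := by
      by_contra hcon
      push Not at hcon
      have h2 : IsCofinal {b : L | (Sum.inrₗ b : K ⊕ₗ L) ∈ A} := hcon
      have h3 := Order.cof_le h2
      have h4 : (ℵ_ 1 : Cardinal.{0}).IsRegular := isRegular_aleph_one
      have h5 : Order.cof L = ℵ_ 1 := by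
        rw [cof_toType, h4.cof_ord]
      rw [h5] at h3
      have h6 := h3.trans (Cardinal.le_aleph0_iff_set_countable.2 h1)
      have h7 : (ℵ₀ : Cardinal.{0}) < ℵ_ 1 := by
        rw [← aleph_zero]; exact aleph_lt_aleph.2 (by norm_num)
      exact absurd h6 (not_le.2 h7)
    refine ⟨Sum.inrₗ b, ?_, ?_⟩
    · rintro ⟨k, hk⟩
      exact absurd (congrArg ofLex hk) (by intro h; cases h)
    · intro a ha
      rcases h2 : ofLex a with k | c
      · have : a = Sum.inlₗ k := by rw [← toLex_ofLex a, h2]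
        rw [this]
        exact Sum.Lex.inl_lt_inr _ _
      · have : a = Sum.inrₗ c := by rw [← toLex_ofLex a, h2]
        subst this
        exact Sum.Lex.inr_lt_inr_iff.2 (hb c ha)

end Pool.Agent.SSN
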