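import Pool.Agent.SSN.Ccc
import Pool.Agent.SSN.Step

/-!
# Limits of sequences of conditions
-/

namespace Pool.Agent.SSN

open Set

variable {W : Type} [LinearOrder W] [WellFoundedLT W] {D : Set W}

/-- all but finitely many members of a `Δ`-system are almost disjoint from a given condition -/
private theorem ssnlim_far {R : Finset W} {q : ℕ → Cond W} {σ : W → List (ℕ × ℕ)} {lam : W → ℕ}
    (h : Delt D R q σ lam) {r : Cond W} (hr : (supp r).Finite) :
    ∃ n1, ∀ n ≥ n1, supp (q n) ∩ supp r ⊆ R := by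
  have hfin : (⋃ η ∈ (supp r \ (R : Set W)), {n | η ∈ supp (q n)}).Finite := by
    apply Set.Finite.biUnion hr.sdiff
    intro η hη
    apply Set.Subsingleton.finite
    intro n hn m hm
    by_contra hne
    exact hη.2 (h.dis n m hne ⟨hn, hm⟩)
  obtain ⟨N, hN⟩ := hfin.bddAbove
  refine ⟨N + 1, fun n hn η hη => ?_⟩
  by_contra hR
  have : n ≤ N := hN (by
    simp only [mem_iUnion]
    exact ⟨η, ⟨hη.2, hR⟩, hη.1⟩)
  omega

section Table

variable (P : Set (Cond W)) {K : ℕ} (G : ℕ → (ℕ → Fin K → ℕ) → ℕ → Cond W → Prop)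

/-- `G k w n` is met for infinitely many `n` -/
private def FF (k : ℕ) (w : ℕ → Fin K → ℕ) : Set (Cond W) :=
  {r | r ∈ P ∧ ∀ r1 ∈ P, Ext r r1 → ∀ n0 : ℕ, ∃ n ≥ n0, ∃ r2 ∈ P, Ext r1 r2 ∧ G k w n r2}

/-- the table `w` up to `k` is the lexicographically least possible one -/
private def Dec (u : Cond W) : ℕ → (ℕ → Fin K → ℕ) → Set (Cond W)
  | 0, _ => {r | r ∈ P ∧ Ext u r}
  | k + 1, w => {r | r ∈ Dec u k w ∧ r ∈ FF P G (k + 1) w ∧
      ∀ ρ : Fin K → ℕ, Encodable.encode ρ < Encodable.encode (w k) →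
        ∀ r' ∈ P, Ext r r' → r' ∉ FF P G (k + 1) (Function.update w k ρ)}

variable {P G} {u : Cond W}

omit [WellFoundedLT W] in
private theorem FF_open {k : ℕ} {w : ℕ → Fin K → ℕ} {r r' : Cond W} (h : r ∈ FF P G k w)
    (hr' : r' ∈ P) (hrr' : Ext r r') : r' ∈ FF P G k w :=
  ⟨hr', fun r1 hr1 h1 n0 => h.2 r1 hr1 (hrr'.trans h1) n0⟩

omit [WellFoundedLT W] in
private theorem FF_congr (hG : ∀ k w w' n r, (∀ e < k, w e = w' e) → G k w n r → G k w' n r)
    {k : ℕ} {w w' : ℕ → Fin K → ℕ} {r : Cond W} (h : ∀ e < k, w e = w' e) (hr : r ∈ FF P G k w) :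
    r ∈ FF P G k w' := by
  refine ⟨hr.1, fun r1 hr1 h1 n0 => ?_⟩
  obtain ⟨n, hn, r2, hr2, h2, h3⟩ := hr.2 r1 hr1 h1 n0
  exact ⟨n, hn, r2, hr2, h2, hG k w w' n r2 h h3⟩

omit [WellFoundedLT W] in
private theorem Dec_mem {k : ℕ} {w : ℕ → Fin K → ℕ} {r : Cond W} (h : r ∈ Dec P G u k w) :
    r ∈ P ∧ Ext u r := by
  induction k with
  | zero => exact h
  | succ k ih => exact ih h.1

omit [WellFoundedLT W] in
private theorem Dec_open {k : ℕ} {w : ℕ → Fin K → ℕ} {r r' : Cond W} (h : r ∈ Dec P G u k w)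
    (hr' : r' ∈ P) (hrr' : Ext r r') : r' ∈ Dec P G u k w := by
  induction k with
  | zero => exact ⟨hr', h.2.trans hrr'⟩
  | succ k ih =>
    exact ⟨ih h.1, FF_open h.2.1 hr' hrr', fun ρ hρ r'' hr'' h'' => h.2.2 ρ hρ r'' hr'' (hrr'.trans h'')⟩

omit [WellFoundedLT W] in
private theorem Dec_congr (hG : ∀ k w w' n r, (∀ e < k, w e = w' e) → G k w n r → G k w' n r)
    {k : ℕ} {w w' : ℕ → Fin K → ℕ} {r : Cond W} (h : ∀ e < k, w e = w' e)
    (hr : r ∈ Dec P G u k w) : r ∈ Dec P G u k w' := by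
  induction k with
  | zero => exact hr
  | succ k ih =>
    refine ⟨ih (fun e he => h e (by omega)) hr.1, FF_congr hG h hr.2.1, fun ρ hρ r' hr' h' hF => ?_⟩
    rw [← h k (by omega)] at hρ
    apply hr.2.2 ρ hρ r' hr' h'
    apply FF_congr hG _ hF
    intro e he
    by_cases hek : e = k
    · subst hek; simp
    · rw [Function.update_of_ne hek, Function.update_of_ne hek, h e he]

omit [WellFoundedLT W] in
private theorem Dec_unique (hG : ∀ k w w' n r, (∀ e < k, w e = w' e) → G k w n r → G k w' n r)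
    {k : ℕ} {w w' : ℕ → Fin K → ℕ} {r : Cond W} (hr : r ∈ Dec P G u k w)
    (hr' : r ∈ Dec P G u k w') : ∀ e < k, w e = w' e := by
  induction k with
  | zero => intro e he; omega
  | succ k ih =>
    have h1 := ih hr.1 hr'.1
    have key : ∀ w w' : ℕ → Fin K → ℕ, (∀ e < k, w e = w' e) → r ∈ Dec P G u (k + 1) w →
        r ∈ Dec P G u (k + 1) w' → ¬ Encodable.encode (w k) < Encodable.encode (w' k) := by
      intro w w' hw h2 h3 hlt
      apply h3.2.2 (w k) hlt r (Dec_mem hr).1 (Ext.refl r)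
      apply FF_congr hG _ h2.2.1
      intro e he
      by_cases hek : e = k
      · subst hek; simp
      · rw [Function.update_of_ne hek, hw e (by omega)]
    intro e he
    by_cases hek : e = k
    · subst hek
      apply Encodable.encode_injective
      apply le_antisymm
      · exact not_lt.1 (key w' w (fun e he => (h1 e he).symm) hr' hr)
      · exact not_lt.1 (key w w' h1 hr hr')
    · exact h1 e (by omega)

omit [WellFoundedLT W] in
private theorem Dec_anti {j k : ℕ} (hjk : j ≤ k) {w : ℕ → Fin K → ℕ} {r : Cond W}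
    (hr : r ∈ Dec P G u k w) : r ∈ Dec P G u j w := by
  induction k with
  | zero =>
    obtain rfl : j = 0 := by omega
    exact hr
  | succ k ih =>
    rcases Nat.eq_or_lt_of_le hjk with h | h
    · subst h; exact hr
    · exact ih (by omega) hr.1

omit [WellFoundedLT W] in
private theorem Dec_FF (h0 : ∀ r ∈ P, Ext u r → ∀ w, r ∈ FF P G 0 w) {k : ℕ}
    {w : ℕ → Fin K → ℕ} {r : Cond W} (hr : r ∈ Dec P G u k w) : r ∈ FF P G k w := by
  cases k with
  | zero => exact h0 r hr.1 hr.2 w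
  | succ k => exact hr.2.1

omit [WellFoundedLT W] in
private theorem FF_step (B : ℕ → ℕ)
    (h3 : ∀ k w n, ∀ r ∈ P, G k w n r → ∃ r' ∈ P, Ext r r' ∧ ∃ ρ : Fin K → Fin (B k),
      G (k + 1) (Function.update w k (fun t => (ρ t : ℕ))) n r')
    {k : ℕ} {w : ℕ → Fin K → ℕ} {r : Cond W} (hr : r ∈ FF P G k w) :
    ∃ r' ∈ P, Ext r r' ∧ ∃ ρ : Fin K → ℕ, r' ∈ FF P G (k + 1) (Function.update w k ρ) := by
  classical
  by_contra hcon
  push Not at hcon
  have key : ∀ S : Finset (Fin K → Fin (B k)), ∃ r1 ∈ P, Ext r r1 ∧ ∃ n1 : ℕ, ∀ ρ ∈ S, ∀ n ≥ n1,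
      ∀ r2 ∈ P, Ext r1 r2 → ¬ G (k + 1) (Function.update w k (fun t => (ρ t : ℕ))) n r2 := by
    intro S
    induction S using Finset.induction_on with
    | empty => exact ⟨r, hr.1, Ext.refl r, 0, by simp⟩
    | insert ρ S _ ih =>
      obtain ⟨r1, hr1, h1, n1, hn1⟩ := ih
      have h4 := hcon r1 hr1 h1 (fun t => (ρ t : ℕ))
      simp only [FF, mem_ofPred_eq, not_and] at h4
      have h5 := h4 hr1
      push Not at h5
      obtain ⟨r2, hr2, h2, n2, hn2⟩ := h5
      refine ⟨r2, hr2, h1.trans h2, max n1 n2, ?_⟩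
      intro ρ' hρ' n hn r3 hr3 h6
      rw [Finset.mem_insert] at hρ'
      rcases hρ' with rfl | hρ'
      · exact hn2 n (le_trans (le_max_right _ _) hn) r3 hr3 h6
      · exact hn1 ρ' hρ' n (le_trans (le_max_left _ _) hn) r3 hr3 (h2.trans h6)
  obtain ⟨r1, hr1, h1, n1, hn1⟩ := key Finset.univ
  obtain ⟨n, hn, r2, hr2, h2, hg⟩ := hr.2 r1 hr1 h1 n1
  obtain ⟨r3, hr3, h4, ρ, hρ⟩ := h3 k w n r2 hr2 hg
  exact hn1 ρ (Finset.mem_univ _) n hn r3 hr3 (h2.trans h4) hρ

omit [WellFoundedLT W] in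
private theorem Dec_dense (hG : ∀ k w w' n r, (∀ e < k, w e = w' e) → G k w n r → G k w' n r)
    (h0 : ∀ r ∈ P, Ext u r → ∀ w, r ∈ FF P G 0 w) (B : ℕ → ℕ)
    (h3 : ∀ k w n, ∀ r ∈ P, G k w n r → ∃ r' ∈ P, Ext r r' ∧ ∃ ρ : Fin K → Fin (B k),
      G (k + 1) (Function.update w k (fun t => (ρ t : ℕ))) n r') {r : Cond W} (hr : r ∈ P)
    (hur : Ext u r) (k : ℕ) : ∃ r' ∈ P, Ext r r' ∧ ∃ w, r' ∈ Dec P G u k w := by
  classical
  induction k with
  | zero => exact ⟨r, hr, Ext.refl r, fun _ _ => 0, hr, hur⟩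
  | succ k ih =>
    obtain ⟨r1, hr1, h1, w, hw⟩ := ih
    have h4 : ∃ c : ℕ, ∃ ρ : Fin K → ℕ, Encodable.encode ρ = c ∧ ∃ r' ∈ P, Ext r1 r' ∧
        r' ∈ FF P G (k + 1) (Function.update w k ρ) := by
      obtain ⟨r', hr', h5, ρ, hρ⟩ := FF_step B h3 (Dec_FF h0 hw)
      exact ⟨_, ρ, rfl, r', hr', h5, hρ⟩
    obtain ⟨ρ, hρ, r2, hr2, h2, h5⟩ := Nat.find_spec h4
    refine ⟨r2, hr2, h1.trans h2, Function.update w k ρ, ?_, h5, ?_⟩
    · apply Dec_congr hG _ (Dec_open hw hr2 h2)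
      intro e he
      rw [Function.update_of_ne (by omega)]
    · intro ρ' hρ' r' hr' h' hF
      rw [Function.update_self, hρ] at hρ'
      rw [Function.update_idem] at hF
      exact Nat.find_min h4 hρ' ⟨ρ', rfl, r', hr', h2.trans h', hF⟩

end Table

/-- some condition forces that infinitely many members of the sequence are in the generic filter -/
theorem exists_limit {R : Finset W} {q : ℕ → Cond W} {σ : W → List (ℕ × ℕ)} {lam : W → ℕ}
    (h : Delt D R q σ lam) :
    ∃ u ∈ PP D, ∀ r ∈ PP D, Ext u r → ∀ n0, ∃ n ≥ n0, Compat (PP D) r (q n) := by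
  classical
  induction R using Finset.induction_on_max generalizing q with
  | empty =>
    refine ⟨.z, z_mem, fun r hr _ n0 => ?_⟩
    obtain ⟨n1, hn1⟩ := ssnlim_far h hr.1.fin
    refine ⟨max n0 n1, le_max_left _ _, Agree.compat hr (h.mem _) fun η => ?_⟩
    have h2 := hn1 (max n0 n1) (le_max_right _ _)
    by_cases hη : η ∈ supp r
    · right; right
      have h3 : η ∉ supp (q (max n0 n1)) := fun h4 => by simpa using h2 ⟨h4, hη⟩
      simp only [supp, mem_ofPred_eq, not_or, not_not] at h3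
      exact h3
    · right; left
      simp only [supp, mem_ofPred_eq, not_or, not_not] at hη
      exact hη
  | insert ξ R' hmax ih =>
    have hξR' : ξ ∉ R' := fun hξ => lt_irrefl _ (hmax ξ hξ)
    have hD' : Delt D R' (fun n => (q n).res ξ) σ lam := by
      refine ⟨fun n => Val.pp (res_mem (h.mem n) ξ), fun n m hnm η hη => ?_, fun n η hη => ?_,
        fun n η hη => ?_⟩
      · simp only [supp_res] at hη
        have h1 := h.dis n m hnm ⟨hη.1.1, hη.2.1⟩
        rw [Finset.mem_coe, Finset.mem_insert] at h1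
        rcases h1 with h1 | h1
        · exact absurd hη.1.2 (by rw [h1]; exact lt_irrefl _)
        · exact h1
      · rw [res_s, if_pos (hmax η hη)]
        exact h.s n η (Finset.mem_insert_of_mem hη)
      · rw [res_l, if_pos (hmax η hη)]
        exact h.l n η (Finset.mem_insert_of_mem hη)
    obtain ⟨u', hu', hlim'⟩ := ih hD'
    set P : Set (Cond W) := Val D ξ with hP
    have hu1 : u'.res ξ ∈ P := res_mem hu' ξ
    set u1 := u'.res ξ with hu1def
    have hlim : ∀ r ∈ P, Ext u1 r → ∀ n0 : ℕ, ∃ n ≥ n0, ∃ r2 ∈ P, Ext r r2 ∧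
        Ext ((q n).res ξ) r2 := by
      intro r hr hur n0
      obtain ⟨n, hn, c, hc, h1, h2⟩ := hlim' (glue u' ξ r) (glue_mem hu' hr) (glue_ext hur) n0
      obtain ⟨c', hc', h3, h4⟩ := Compat.val (D := D) hr (res_mem (h.mem n) ξ)
        ⟨c, hc, (glue_ext' hr).trans h1, h2⟩
      exact ⟨n, hn, c', hc', h3, h4⟩
    set K := lam ξ with hK
    have hlξ : ∀ n, (q n).l ξ = K := fun n => h.l n ξ (Finset.mem_insert_self _ _)
    have hsξ : ∀ n, (q n).s ξ = σ ξ := fun n => h.s n ξ (Finset.mem_insert_self _ _)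
    have hleg : ∀ n, ∀ t < K, Legit P ((q n).T ξ t) ((q n).v ξ t) := fun n t ht =>
      PP.leg (h.mem n) (by rw [hlξ n]; exact ht)
    let G : ℕ → (ℕ → Fin K → ℕ) → ℕ → Cond W → Prop := fun k w n r2 =>
      Ext ((q n).res ξ) r2 ∧ ∀ t : Fin K, ∀ e < k, ∃ m, (q n).v ξ t e m = w e t ∧
        Ext ((q n).T ξ t e m) r2
    have hG : ∀ k w w' n r, (∀ e < k, w e = w' e) → G k w n r → G k w' n r := by
      intro k w w' n r hw hg
      refine ⟨hg.1, fun t e he => ?_⟩
      obtain ⟨m, hm, hm'⟩ := hg.2 t e he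
      exact ⟨m, by rw [hm, hw e he], hm'⟩
    have h0 : ∀ r ∈ P, Ext u1 r → ∀ w, r ∈ FF P G 0 w := by
      intro r hr hur w
      refine ⟨hr, fun r1 hr1 h1 n0 => ?_⟩
      obtain ⟨n, hn, r2, hr2, h2, h3⟩ := hlim r1 hr1 (hur.trans h1) n0
      exact ⟨n, hn, r2, hr2, h2, h3, fun t e he => absurd he (Nat.not_lt_zero _)⟩
    have h3 : ∀ k w n, ∀ r ∈ P, G k w n r → ∃ r' ∈ P, Ext r r' ∧ ∃ ρ : Fin K → Fin (bnd k),
        G (k + 1) (Function.update w k (fun t => (ρ t : ℕ))) n r' := by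
      intro k w n r hr hg
      obtain ⟨r', hr', h1, h2⟩ := exists_decide (h.mem n) ξ hr hg.1 (k + 1)
      have h4 : ∀ t : Fin K, ∃ m, Ext ((q n).T ξ t k m) r' := fun t =>
        h2 t (by rw [hlξ n]; exact t.2) k (Nat.lt_succ_self k)
      choose m hm using h4
      refine ⟨r', hr', h1, fun t => ⟨(q n).v ξ t k (m t), (hleg n t t.2).lt k (m t)⟩,
        hg.1.trans h1, fun t e he => ?_⟩
      by_cases hek : e = k
      · subst hek
        exact ⟨m t, by rw [Function.update_self], hm t⟩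
      · rw [Function.update_of_ne hek]
        obtain ⟨m', hm1, hm2⟩ := hg.2 t e (by omega)
        exact ⟨m', hm1, hm2.trans h1⟩
    have hdense : ∀ r ∈ P, Ext u1 r → ∀ k, ∃ r' ∈ P, Ext r r' ∧ ∃ w, r' ∈ Dec P G u1 k w :=
      fun r hr hur k => Dec_dense hG h0 bnd h3 hr hur k
    -- the open sets deciding the limits of the names
    let O : Fin K → ℕ → ℕ → Set (Cond W) := fun t e c =>
      {r | (∃ w, r ∈ Dec P G u1 (e + 1) w ∧ w e t = c) ∨
        (r ∈ P ∧ (∀ r' ∈ P, Ext r r' → ¬ Ext u1 r') ∧ c = 0)}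
    have hOP : ∀ t e c, O t e c ⊆ P := by
      rintro t e c r (⟨w, hw, -⟩ | ⟨hr, -⟩)
      · exact (Dec_mem hw).1
      · exact hr
    have hOop : ∀ t e c, ∀ r ∈ O t e c, ∀ r' ∈ P, Ext r r' → r' ∈ O t e c := by
      rintro t e c r (⟨w, hw, hc⟩ | ⟨hr, h1, hc⟩) r' hr' h2
      · exact Or.inl ⟨w, Dec_open hw hr' h2, hc⟩
      · exact Or.inr ⟨hr', fun r'' hr'' h4 => h1 r'' hr'' (h2.trans h4), hc⟩
    have hOd : ∀ t e, ∀ r ∈ P, ∃ r' ∈ P, Ext r r' ∧ ∃ c < bnd e, r' ∈ O t e c := by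
      intro t e r hr
      by_cases h1 : ∃ r' ∈ P, Ext r r' ∧ Ext u1 r'
      · obtain ⟨r', hr', h2, h4⟩ := h1
        obtain ⟨r'', hr'', h5, w, hw⟩ := hdense r' hr' h4 (e + 1)
        refine ⟨r'', hr'', h2.trans h5, w e t, ?_, Or.inl ⟨w, hw, rfl⟩⟩
        obtain ⟨n, -, r2, -, -, hg⟩ := hw.2.1.2 r'' hr'' (Ext.refl _) 0
        obtain ⟨m, hm, -⟩ := hg.2 t e (Nat.lt_succ_self e)
        rw [← hm]
        exact (hleg n t t.2).lt e m
      · push Not at h1
        exact ⟨r, hr, Ext.refl r, 0, by unfold bnd; positivity, Or.inr ⟨hr, h1, rfl⟩⟩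
    have hOdis : ∀ t e c c' r, r ∈ O t e c → r ∈ O t e c' → c = c' := by
      rintro t e c c' r (⟨w, hw, hc⟩ | ⟨hr, h1, hc⟩) (⟨w', hw', hc'⟩ | ⟨hr', h1', hc'⟩)
      · rw [← hc, ← hc', Dec_unique hG hw hw' e (Nat.lt_succ_self e)]
      · exact absurd (Dec_mem hw).2 (h1' r hr' (Ext.refl r))
      · exact absurd (Dec_mem hw').2 (h1 r hr (Ext.refl r))
      · rw [hc, hc']
    have hnice : ∀ t : Fin K, ∃ T v, Legit P T v ∧ ∀ e n, T e n ∈ O t e (v e n) := fun t =>
      exists_nice ξ (O t) (hOP t) (hOop t) (hOd t) (hOdis t)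
    choose LT Lv hLleg hLO using hnice
    -- the limit condition
    let base : Cond W := .mk (fun η => if η = ξ then σ ξ else []) (fun η => if η = ξ then K else 0)
      (fun _ t => if ht : t < K then LT ⟨t, ht⟩ else fun _ _ => .z)
      (fun _ t => if ht : t < K then Lv ⟨t, ht⟩ else fun _ _ => 0)
    have hbase : base ∈ PP D := by
      refine ⟨⟨?_, fun η => ?_, fun η hη => ?_⟩, fun η t ht => ?_⟩
      · apply (Set.finite_singleton ξ).subset
        intro η hη
        by_contra hne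
        simp only [mem_singleton_iff] at hne
        simp [supp, base, Cond.s, Cond.l, hne] at hη
      · change Inc (if η = ξ then σ ξ else [])
        split_ifs
        · rw [← hsξ 0]; exact (h.mem 0).1.inc ξ
        · exact ⟨by simp, by simp⟩
      · change (if η = ξ then K else 0) = 0
        split_ifs with h1
        · rw [← hlξ 0]; exact (h.mem 0).1.nD ξ (h1 ▸ hη)
        · rfl
      · change t < (if η = ξ then K else 0) at ht
        split_ifs at ht with h1
        · subst h1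
          have e1 : base.T η t = LT ⟨t, ht⟩ := by
            change (if ht : t < K then LT ⟨t, ht⟩ else fun _ _ => .z) = _
            rw [dif_pos ht]
          have e2 : base.v η t = Lv ⟨t, ht⟩ := by
            change (if ht : t < K then Lv ⟨t, ht⟩ else fun _ _ => 0) = _
            rw [dif_pos ht]
          rw [e1, e2]
          exact hLleg ⟨t, ht⟩
        · omega
    refine ⟨glue base ξ u1, glue_mem hbase hu1, fun r hr hur n0 => ?_⟩
    have hus : (glue base ξ u1).s ξ = σ ξ := by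
      rw [glue_s, if_neg (lt_irrefl _)]
      change (if ξ = ξ then σ ξ else []) = _
      rw [if_pos rfl]
    have hul : (glue base ξ u1).l ξ = K := by
      rw [glue_l, if_neg (lt_irrefl _)]
      change (if ξ = ξ then K else 0) = _
      rw [if_pos rfl]
    have huT : ∀ t (ht : t < K), (glue base ξ u1).T ξ t = LT ⟨t, ht⟩ := by
      intro t ht
      rw [glue_T, if_neg (lt_irrefl _)]
      change (if ht : t < K then LT ⟨t, ht⟩ else fun _ _ => .z) = _
      rw [dif_pos ht]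
    have huv : ∀ t (ht : t < K), (glue base ξ u1).v ξ t = Lv ⟨t, ht⟩ := by
      intro t ht
      rw [glue_v, if_neg (lt_irrefl _)]
      change (if ht : t < K then Lv ⟨t, ht⟩ else fun _ _ => 0) = _
      rw [dif_pos ht]
    have hr0 : r.res ξ ∈ P := res_mem hr ξ
    have hur0 : Ext u1 (r.res ξ) := by
      refine (Val.ext_res hu1).trans ?_
      have := hur.res ξ
      rwa [glue_res _ _ _ le_rfl] at this
    obtain ⟨k, hk⟩ : ∃ k, ∀ i x y, (r.s ξ)[i]? = some (x, y) →
        Nat.pair i x < k ∧ Nat.pair i y < k := by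
      have hfin : {e : ℕ | ∃ i x y, (r.s ξ)[i]? = some (x, y) ∧
          (e = Nat.pair i x ∨ e = Nat.pair i y)}.Finite := by
        have : {e : ℕ | ∃ i x y, (r.s ξ)[i]? = some (x, y) ∧
            (e = Nat.pair i x ∨ e = Nat.pair i y)} ⊆ ⋃ i ∈ Set.Iio (r.s ξ).length,
            {e : ℕ | e = Nat.pair i ((r.s ξ)[i]?.getD (0, 0)).1 ∨
              e = Nat.pair i ((r.s ξ)[i]?.getD (0, 0)).2} := by
          rintro e ⟨i, x, y, hxy, he⟩
          simp only [mem_iUnion]
          obtain ⟨hi, -⟩ := List.getElem?_eq_some_iff.1 hxy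
          refine ⟨i, hi, ?_⟩
          simp only [mem_ofPred_eq, hxy, Option.getD_some]
          exact he
        refine Set.Finite.subset (Set.Finite.biUnion (Set.finite_Iio _) fun i _ => ?_) this
        have h2 : {e : ℕ | e = Nat.pair i ((r.s ξ)[i]?.getD (0, 0)).1 ∨
              e = Nat.pair i ((r.s ξ)[i]?.getD (0, 0)).2} =
            {Nat.pair i ((r.s ξ)[i]?.getD (0, 0)).1, Nat.pair i ((r.s ξ)[i]?.getD (0, 0)).2} := by
          ext e; simp
        rw [h2]
        exact Set.toFinite _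
      obtain ⟨N, hN⟩ := hfin.bddAbove
      refine ⟨N + 1, fun i x y hxy => ⟨?_, ?_⟩⟩
      · exact Nat.lt_succ_of_le (hN ⟨i, x, y, hxy, Or.inl rfl⟩)
      · exact Nat.lt_succ_of_le (hN ⟨i, x, y, hxy, Or.inr rfl⟩)
    obtain ⟨r1, hr1, h1, w, hw⟩ := hdense (r.res ξ) hr0 hur0 k
    -- the values of the limits of names
    have hval : ∀ t : Fin K, ∀ e < k, ∀ n, Ext (LT t e n) r1 → Lv t e n = w e t := by
      intro t e he n hn
      have h4 : r1 ∈ O t e (Lv t e n) := hOop t e _ _ (hLO t e n) r1 hr1 hn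
      have h5 : r1 ∈ O t e (w e t) := Or.inl ⟨w, Dec_anti (by omega) hw, rfl⟩
      exact hOdis t e _ _ r1 h4 h5
    obtain ⟨n1, hn1⟩ := ssnlim_far h hr.1.fin
    obtain ⟨n, hn, r2, hr2, h2, hg⟩ := (Dec_FF h0 hw).2 r1 hr1 (Ext.refl _) (max n0 n1)
    refine ⟨n, le_trans (le_max_left _ _) hn, ?_⟩
    have hfar := hn1 n (le_trans (le_max_right _ _) hn)
    obtain ⟨L, hL⟩ := hur.s_pre ξ
    rw [hus] at hL
    -- the two conditions
    have ha : glue r ξ r2 ∈ PP D := glue_mem hr hr2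
    have hra : Ext r (glue r ξ r2) := glue_ext (h1.trans h2)
    have hgm : glue (q n) ξ r2 ∈ PP D := glue_mem (h.mem n) hr2
    have hqg : Ext (q n) (glue (q n) ξ r2) := glue_ext hg.1
    have hgs : (glue (q n) ξ r2).s ξ = σ ξ := by
      rw [glue_s, if_neg (lt_irrefl _), hsξ]
    have hb : apnd (glue (q n) ξ r2) ξ L ∈ PP D := by
      apply apnd_mem hgm
      rw [hgs, hL]
      exact hr.1.inc ξ
    have hgb : Ext (glue (q n) ξ r2) (apnd (glue (q n) ξ r2) ξ L) := by
      apply apnd_ext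
      intro t ht i x y hi hxy
      rw [hgs] at hi hxy
      rw [hL] at hxy
      rw [glue_l, if_neg (lt_irrefl _), hlξ] at ht
      rw [glue_T, glue_v, if_neg (lt_irrefl _), if_neg (lt_irrefl _), glue_res _ _ _ le_rfl]
      obtain ⟨n', m', e1, e2, e3⟩ := hur.new ξ t (by rw [hul]; exact ht) i x y
        (by rw [hus]; exact hi) hxy
      rw [huT t ht] at e2 e3
      rw [huv t ht] at e1
      have e4 := hval ⟨t, ht⟩ _ (hk i x y hxy).1 n' (e2.trans h1)
      have e5 := hval ⟨t, ht⟩ _ (hk i x y hxy).2 m' (e3.trans h1)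
      obtain ⟨m1, f1, f2⟩ := hg.2 ⟨t, ht⟩ _ (hk i x y hxy).1
      obtain ⟨m2, f3, f4⟩ := hg.2 ⟨t, ht⟩ _ (hk i x y hxy).2
      refine ⟨m1, m2, ?_, ?_, ?_⟩
      · rw [f1, f3, ← e4, ← e5, e1]
      · exact f2.res_of_val ((hleg n t ht).mem _ _)
      · exact f4.res_of_val ((hleg n t ht).mem _ _)
    have hagree : Agree (glue r ξ r2) (apnd (glue (q n) ξ r2) ξ L) := by
      intro η
      have hbs : (apnd (glue (q n) ξ r2) ξ L).s η =
          if η = ξ then (glue (q n) ξ r2).s η ++ L else (glue (q n) ξ r2).s η := rfl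
      rcases lt_trichotomy η ξ with h4 | h4 | h4
      · left
        rw [hbs, if_neg h4.ne, glue_s, glue_s, if_pos h4, if_pos h4]
      · left
        subst h4
        rw [hbs, if_pos rfl, hgs, hL, glue_s, if_neg (lt_irrefl _)]
      · right
        have h5 : η ∉ (insert ξ R' : Finset W) := by
          rw [Finset.mem_insert]
          rintro (h6 | h6)
          · exact h4.ne' h6
          · exact absurd (hmax η h6) (not_lt.2 h4.le)
        by_cases h6 : η ∈ supp r
        · right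
          have h7 : η ∉ supp (q n) := fun h8 => h5 (by
            have := hfar ⟨h8, h6⟩
            exact_mod_cast this)
          simp only [supp, mem_ofPred_eq, not_or, not_not] at h7
          constructor
          · rw [hbs, if_neg h4.ne', glue_s, if_neg (not_lt.2 h4.le)]
            exact h7.1
          · change (glue (q n) ξ r2).l η = 0
            rw [glue_l, if_neg (not_lt.2 h4.le)]
            exact h7.2
        · left
          simp only [supp, mem_ofPred_eq, not_or, not_not] at h6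
          constructor
          · rw [glue_s, if_neg (not_lt.2 h4.le)]
            exact h6.1
          · rw [glue_l, if_neg (not_lt.2 h4.le)]
            exact h6.2
    obtain ⟨c, hc, g1, g2⟩ := Agree.compat ha hb hagree
    exact ⟨c, hc, hra.trans g1, (hqg.trans hgb).trans g2⟩

end Pool.Agent.SSN
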