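import Pool.Agent.SSN.MDefs

/-!
# Meagre sets and the inequality cov(M) < ss_c in an omega-model of ZFC
-/

namespace Pool.Agent.SSN

open Set Filter Pool.Agent.Helper79.ZF Pool.Agent.Helper79.Kurepa Pool.Agent.Helper79.Ssc

section
variable {N : Type} [Membership N N]

/-- the finite sequence `σ` is an initial segment of `f` -/
def Pre (σ : List ℕ) (f : ℕ → ℕ) : Prop := ∀ (i : ℕ) (h : i < σ.length), f i = σ[i]

/-- the set of those functions `f : ω → ω` of the model that satisfy `D f` is nowhere dense in the
Baire space `ω^ω` of the model: every finite sequence has an extension which is not an initial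
segment of any member of the set -/
def MNwd (D : N → Prop) : Prop :=
  ∀ σ : List ℕ, ∃ ρ : List ℕ, ∀ f : N, MFn f → D f → ¬ Pre (σ ++ ρ) (decF f)

/-- the set `A` of the model is a meagre set of functions from `ω` to `ω`: some set `S` of the model
is such that for every `n` the set of all `f` with `(n, f) ∈ S` is nowhere dense, and the union of
these sets contains `A` -/
def MMeagre (A : N) : Prop := (∀ f : N, f ∈ A → MFn f) ∧ ∃ S : N,
  (∀ n : ℕ, MNwd (fun f : N => ∃ z p : N, Num n z ∧ p ∈ S ∧ IsPair p z f)) ∧
  ∀ f : N, f ∈ A → ∃ (n : ℕ) (z p : N), Num n z ∧ p ∈ S ∧ IsPair p z f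

/-- the set `C` of the model is a family of meagre subsets of `ω^ω` whose union is `ω^ω` -/
def MCovM (C : N) : Prop :=
  (∀ A : N, A ∈ C → MMeagre A) ∧ ∀ f : N, MFn f → ∃ A : N, A ∈ C ∧ f ∈ A

end

/-- `cov(M) < ss_c` holds in the `ω`-model `N`: some family of meagre sets which covers `ω^ω` is
strictly smaller than every family of the kind used in the definition of `ss_c` -/
def CovMLtSsc (N : Type) [Membership N N] : Prop := ∃ C : N, MCovM C ∧ ∀ F : N, MWit F → ¬ Le F C

end Pool.Agent.SSN
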