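import Pool.Agent.SSN.Defs

/-!
# The order
-/

namespace Pool.Agent.SSN

open Set

variable {W : Type} [LinearOrder W]

theorem Ext_iff {p q : Cond W} : Ext p q ↔ (∀ ξ, p.s ξ <+: q.s ξ) ∧
    (∀ ξ, ∀ t < p.l ξ, ∃ t' < q.l ξ, p.T ξ t = q.T ξ t' ∧ p.v ξ t = q.v ξ t') ∧
    ∀ ξ, ∀ t < p.l ξ, ∀ i x y, (p.s ξ).length ≤ i → (q.s ξ)[i]? = some (x, y) →
      ∃ n m, p.v ξ t (Nat.pair i x) n = p.v ξ t (Nat.pair i y) m ∧
        Ext (p.T ξ t (Nat.pair i x) n) (q.res ξ) ∧ Ext (p.T ξ t (Nat.pair i y) m) (q.res ξ) := by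
  cases p with
  | z => simp [Ext, Cond.s, Cond.l]
  | mk s l T v => rw [Ext]; rfl

@[simp] theorem res_s (p : Cond W) (ξ η : W) : (p.res ξ).s η = if η < ξ then p.s η else [] := rfl
@[simp] theorem res_l (p : Cond W) (ξ η : W) : (p.res ξ).l η = if η < ξ then p.l η else 0 := rfl
theorem res_T (p : Cond W) (ξ η : W) : (p.res ξ).T η = if η < ξ then p.T η else fun _ _ _ => .z := rfl
theorem res_v (p : Cond W) (ξ η : W) : (p.res ξ).v η = if η < ξ then p.v η else fun _ _ _ => 0 := rfl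

theorem res_res (p : Cond W) {ξ η : W} (h : η ≤ ξ) : (p.res ξ).res η = p.res η := by
  have key : ∀ ζ, ζ < η → ζ < ξ := fun ζ hζ => hζ.trans_le h
  unfold Cond.res
  congr 1 <;> funext ζ <;> by_cases hζ : ζ < η <;> simp [hζ, key, Cond.s, Cond.l, Cond.T, Cond.v]

theorem Ext.s_pre {p q : Cond W} (h : Ext p q) (ξ : W) : p.s ξ <+: q.s ξ := (Ext_iff.1 h).1 ξ

theorem Ext.l_le {p q : Cond W} (h : Ext p q) (ξ : W) (t : ℕ) (ht : t < p.l ξ) :
    ∃ t' < q.l ξ, p.T ξ t = q.T ξ t' ∧ p.v ξ t = q.v ξ t' := (Ext_iff.1 h).2.1 ξ t ht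

theorem Ext.new {p q : Cond W} (h : Ext p q) (ξ : W) (t : ℕ) (ht : t < p.l ξ) (i x y : ℕ)
    (hi : (p.s ξ).length ≤ i) (hxy : (q.s ξ)[i]? = some (x, y)) :
    ∃ n m, p.v ξ t (Nat.pair i x) n = p.v ξ t (Nat.pair i y) m ∧
      Ext (p.T ξ t (Nat.pair i x) n) (q.res ξ) ∧ Ext (p.T ξ t (Nat.pair i y) m) (q.res ξ) :=
  (Ext_iff.1 h).2.2 ξ t ht i x y hi hxy

theorem Ext.refl (p : Cond W) : Ext p p := by
  rw [Ext_iff]
  refine ⟨fun ξ => List.prefix_refl _, fun ξ t ht => ⟨t, ht, rfl, rfl⟩, fun ξ t ht i x y hi hxy => ?_⟩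
  obtain ⟨h, -⟩ := List.getElem?_eq_some_iff.1 hxy
  omega

theorem Ext.res {p q : Cond W} (h : Ext p q) (ξ : W) : Ext (p.res ξ) (q.res ξ) := by
  rw [Ext_iff]
  refine ⟨fun η => ?_, fun η t ht => ?_, fun η t ht i x y hi hxy => ?_⟩
  · simp only [res_s]
    split_ifs
    · exact h.s_pre η
    · exact List.prefix_refl _
  · rw [res_l] at ht
    split_ifs at ht with hη
    · obtain ⟨t', ht', h1, h2⟩ := h.l_le η t ht
      refine ⟨t', by simpa [hη] using ht', ?_, ?_⟩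
      · simpa [res_T, hη] using h1
      · simpa [res_v, hη] using h2
    · omega
  · rw [res_l] at ht
    split_ifs at ht with hη
    · simp only [res_s, hη, if_true] at hi hxy
      obtain ⟨n, m, h1, h2, h3⟩ := h.new η t ht i x y hi hxy
      rw [res_res q hη.le]
      simp only [res_T, res_v, hη, if_true]
      exact ⟨n, m, h1, h2, h3⟩
    · omega

theorem Ext.of_res (p : Cond W) (ξ : W) : Ext (p.res ξ) p := by
  rw [Ext_iff]
  refine ⟨fun η => ?_, fun η t ht => ?_, fun η t ht i x y hi hxy => ?_⟩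
  · simp only [res_s]
    split_ifs
    · exact List.prefix_refl _
    · exact List.nil_prefix
  · rw [res_l] at ht
    split_ifs at ht with hη
    · exact ⟨t, ht, by simp [res_T, hη], by simp [res_v, hη]⟩
    · omega
  · rw [res_l] at ht
    split_ifs at ht with hη
    · simp only [res_s, hη, if_true] at hi
      obtain ⟨h, -⟩ := List.getElem?_eq_some_iff.1 hxy
      omega
    · omega

theorem Ext.trans {p q r : Cond W} (h : Ext p q) (h' : Ext q r) : Ext p r := by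
  induction p generalizing q r with
  | z => simp [Ext]
  | mk s l T v ih =>
    rw [Ext_iff]
    refine ⟨fun ξ => (h.s_pre ξ).trans (h'.s_pre ξ), fun ξ t ht => ?_, fun ξ t ht i x y hi hxy => ?_⟩
    · obtain ⟨t', ht', h1, h2⟩ := h.l_le ξ t ht
      obtain ⟨t'', ht'', h3, h4⟩ := h'.l_le ξ t' ht'
      exact ⟨t'', ht'', h1.trans h3, h2.trans h4⟩
    · by_cases hiq : i < (q.s ξ).length
      · have hq : (q.s ξ)[i]? = some (x, y) := by
          rw [← hxy]
          obtain ⟨L, hL⟩ := h'.s_pre ξ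
          rw [← hL, List.getElem?_append_left hiq]
        obtain ⟨n, m, h1, h2, h3⟩ := h.new ξ t ht i x y hi hq
        exact ⟨n, m, h1, ih ξ t _ n h2 (h'.res ξ), ih ξ t _ m h3 (h'.res ξ)⟩
      · obtain ⟨t', ht', h1, h2⟩ := h.l_le ξ t ht
        obtain ⟨n, m, h3, h4, h5⟩ := h'.new ξ t' ht' i x y (not_lt.1 hiq) hxy
        refine ⟨n, m, ?_, ?_, ?_⟩
        · rw [h2]; exact h3
        · rw [h1]; exact h4
        · rw [h1]; exact h5

end Pool.Agent.SSN
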