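import Pool.Agent.SSN.Valid

/-!
# The partial order of conditions
-/

namespace Pool.Agent.SSN

open Set

variable {W : Type} [LinearOrder W] [WellFoundedLT W]

/-- the preorder of conditions, stronger conditions are smaller -/
def Q0 (D : Set W) : Type := {p : Cond W // p ∈ PP D}

instance (D : Set W) : Preorder (Q0 D) where
  le q p := Ext p.1 q.1
  le_refl p := Ext.refl p.1
  le_trans _ _ _ h h' := h'.trans h

/-- the partial order of conditions -/
def Po (D : Set W) : Type 1 := ULift.{1} (Antisymmetrization (Q0 D) (· ≤ ·))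

noncomputable instance (D : Set W) : PartialOrder (Po D) :=
  inferInstanceAs (PartialOrder (ULift.{1} (Antisymmetrization (Q0 D) (· ≤ ·))))

variable {D : Set W}

/-- the class of a condition -/
def cl (p : Cond W) (h : p ∈ PP D) : Po D := ⟨toAntisymmetrization (· ≤ ·) (⟨p, h⟩ : Q0 D)⟩

theorem cl_le {p q : Cond W} {hp : p ∈ PP D} {hq : q ∈ PP D} : cl q hq ≤ cl p hp ↔ Ext p q :=
  toAntisymmetrization_le_toAntisymmetrization_iff

/-- a representative -/
noncomputable def rep (a : Po D) : Cond W := (ofAntisymmetrization (· ≤ ·) a.down : Q0 D).1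

theorem rep_mem (a : Po D) : rep a ∈ PP D := (ofAntisymmetrization (· ≤ ·) a.down : Q0 D).2

theorem cl_rep (a : Po D) : cl (rep a) (rep_mem a) = a := by
  unfold cl rep
  have h : toAntisymmetrization (· ≤ ·) (ofAntisymmetrization (· ≤ ·) a.down : Q0 D) = a.down :=
    toAntisymmetrization_ofAntisymmetrization _ _
  cases a
  exact congrArg ULift.up h

theorem le_iff {a b : Po D} : a ≤ b ↔ Ext (rep b) (rep a) := by
  rw [← cl_rep a, ← cl_rep b, cl_le, cl_rep, cl_rep]

theorem cl_le_iff {p : Cond W} {hp : p ∈ PP D} {b : Po D} : cl p hp ≤ b ↔ Ext (rep b) p := by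
  rw [← cl_rep b, cl_le, cl_rep]

theorem le_cl_iff {p : Cond W} {hp : p ∈ PP D} {b : Po D} : b ≤ cl p hp ↔ Ext p (rep b) := by
  rw [← cl_rep b, cl_le, cl_rep]

instance : Nonempty (Po D) := ⟨cl .z z_mem⟩

end Pool.Agent.SSN
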