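import Pool.Agent.SSN.Q2S
import Pool.Agent.SSN.GenY
import Pool.Agent.SSN.Fam

/-!
# The generic extension for `cov(M) < ss_c`: closure of the submodel
-/

namespace Pool.Agent.SSN.Q2

open Set Cardinal Pool.Agent.SSM Pool.Agent.SSL Pool.Agent.Helper79.ZF Pool.Agent.Helper79.Kurepa

section
variable {I Ω : Type} [LinearOrder Ω] [WellFoundedLT Ω]

variable (I Ω) in
/-- names of relations -/
abbrev RT : Type 1 := Set (PT I Ω × XT I Ω × XT I Ω)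

variable (I Ω) in
/-- the objects -/
abbrev OB : Type 1 := Ob (PT I Ω) (XT I Ω)

/-- the name of the family of all stems -/
def RG : RT I Ω := {z | ∃ (β : Ω) (k : ℕ), z.2 = (wp β, nn k) ∧ k.unpair.1 < ((un z.1).σ β).length ∧
  ((un z.1).σ β).getD k.unpair.1 0 = k.unpair.2}

/-- the name of the series coded by the `i`-th Cohen function -/
def RS (i : I) : RT I Ω := {z | ∃ (n : ℕ) (c : ℕ → ℕ), z.2 = (nn n, nn (cdr (ser c n))) ∧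
  ∀ k ≤ n, (i, k, c k) ∈ (un z.1).c}

/-- the data of choices -/
structure Ch (I Ω : Type) [LinearOrder Ω] [WellFoundedLT Ω] where
  b : RT I Ω → Ω
  φ : RT I Ω → Pro I Ω
  i : RT I Ω → I
  hφ : ∀ R, IsPr R (b R) (φ R)
  hi : ∀ R β, i R ∉ Bad (FX R β)

theorem exists_Ch (hΩ : #Ω ≤ ℵ₁) (hb : ∀ C : Set Ω, C.Countable → ∃ β, ∀ γ ∈ C, γ < β)
    (hI : ∀ B : Ω → Set I, (∀ β, #(B β) ≤ ℵ₁) → ∃ i, ∀ β, i ∉ B β) : Nonempty (Ch I Ω) := by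
  choose b φ h1 h2 using exists_promise (I := I) hb
  choose i h3 using exists_good (I := I) hΩ hI
  exact ⟨⟨b, φ, i, fun R => ⟨h1 R, h2 R⟩, h3⟩⟩

variable (ch : Ch I Ω)

open Classical in
noncomputable def f4 : List (OB I Ω) → OB I Ω
  | [Ob.p p, Ob.r2 R, Ob.x x, Ob.x y] => if h : Fo R p x y then Ob.p h.choose else Ob.dx ∅
  | _ => Ob.dx ∅

def f5 (n : ℕ) : List (OB I Ω) → OB I Ω
  | [Ob.x (Sum.inr (Sum.inl β))] => Ob.dp (DLen β n)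
  | _ => Ob.dx ∅

def f6 (n : ℕ) : List (OB I Ω) → OB I Ω
  | [Ob.r2 R] => Ob.dp (DLst R n)
  | _ => Ob.dx ∅

def f7 : List (OB I Ω) → OB I Ω
  | [Ob.r2 R] => Ob.x (wp (ch.b R))
  | _ => Ob.dx ∅

def f8 : List (OB I Ω) → OB I Ω
  | [Ob.r2 R] => Ob.dp (DAdd (ch.b R) (ch.φ R))
  | _ => Ob.dx ∅

def f9 (n : ℕ) : List (OB I Ω) → OB I Ω
  | [Ob.r2 R] => Ob.dp (DDec R (ch.b R) (ch.φ R) n)
  | _ => Ob.dx ∅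

def f10 : List (OB I Ω) → OB I Ω
  | [Ob.r2 R] => Ob.x (ip (ch.i R))
  | _ => Ob.dx ∅

def f11 : List (OB I Ω) → OB I Ω
  | [Ob.x (Sum.inr (Sum.inr i))] => Ob.r2 (RS i)
  | _ => Ob.dx ∅

def f12 (n : ℕ) : List (OB I Ω) → OB I Ω
  | [Ob.x (Sum.inr (Sum.inr i))] => Ob.dp (DC i n)
  | _ => Ob.dx ∅

def f13 (n : ℕ) : List (OB I Ω) → OB I Ω
  | [Ob.x (Sum.inr (Sum.inr i))] => Ob.dp (DFlg i n)
  | _ => Ob.dx ∅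

def f14 (n : ℕ) : List (OB I Ω) → OB I Ω
  | [Ob.x (Sum.inr (Sum.inr i))] => Ob.dp (DSum i n)
  | _ => Ob.dx ∅

def f15 (b : ℕ) : List (OB I Ω) → OB I Ω
  | [Ob.r2 R, Ob.x (Sum.inr (Sum.inl β))] => Ob.dp (DInf R β b)
  | _ => Ob.dx ∅

def f16 (n : ℕ) : List (OB I Ω) → OB I Ω
  | [Ob.r2 R, Ob.x (Sum.inr (Sum.inl β)), Ob.x (Sum.inr (Sum.inr i))] => Ob.dp (DBd R β i n)
  | _ => Ob.dx ∅

def f17 (n : ℕ) : List (OB I Ω) → OB I Ω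
  | [Ob.r2 R, Ob.x (Sum.inr (Sum.inl β))] => Ob.dp (DTot R β n)
  | _ => Ob.dx ∅

/-- the list of all closure functions -/
noncomputable def FL : List (ℕ → List (OB I Ω) → OB I Ω) :=
  [fun _ _ => Ob.dx (range wp), fun _ _ => Ob.r2 {z | ∃ n, z.2 = (nn n, nn n.unpair.1)},
    fun _ _ => Ob.r2 {z | ∃ n, z.2 = (nn n, nn n.unpair.2)}, fun _ _ => Ob.r2 RG, fun _ => f4, f5, f6,
    fun _ => f7 ch, fun _ => f8 ch, f9 ch, fun _ => f10 ch, fun _ => f11, f12, f13, f14, f15, f16, f17]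

/-- all closure functions -/
noncomputable def FF (k : ℕ × ℕ) (l : List (OB I Ω)) : OB I Ω := (FL ch).getD k.1 (fun _ _ => Ob.dx ∅) k.2 l

/-- the closure properties -/
structure Cl (𝓜 : Set (OB I Ω)) : Prop where
  wps : Ob.dx (range wp) ∈ 𝓜
  k1 : Ob.r2 {z | ∃ n, z.2 = (nn n, nn n.unpair.1)} ∈ 𝓜
  k2 : Ob.r2 {z | ∃ n, z.2 = (nn n, nn n.unpair.2)} ∈ 𝓜
  rg : Ob.r2 RG ∈ 𝓜
  up : ∀ {p R x y}, Ob.p p ∈ 𝓜 → Ob.r2 R ∈ 𝓜 → Ob.x x ∈ 𝓜 → Ob.x y ∈ 𝓜 → Fo R p x y →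
    ∃ p', p ≤ p' ∧ (p', x, y) ∈ R ∧ Ob.p p' ∈ 𝓜
  len : ∀ {β}, Ob.x (wp β) ∈ 𝓜 → ∀ n, Ob.dp (DLen β n) ∈ 𝓜
  lst : ∀ {R}, Ob.r2 R ∈ 𝓜 → ∀ n, Ob.dp (DLst R n) ∈ 𝓜
  b : ∀ {R}, Ob.r2 R ∈ 𝓜 → Ob.x (wp (ch.b R)) ∈ 𝓜
  add : ∀ {R}, Ob.r2 R ∈ 𝓜 → Ob.dp (DAdd (ch.b R) (ch.φ R)) ∈ 𝓜
  dec : ∀ {R}, Ob.r2 R ∈ 𝓜 → ∀ n, Ob.dp (DDec R (ch.b R) (ch.φ R) n) ∈ 𝓜
  i : ∀ {R}, Ob.r2 R ∈ 𝓜 → Ob.x (ip (ch.i R)) ∈ 𝓜
  rs : ∀ {i}, Ob.x (ip i) ∈ 𝓜 → Ob.r2 (RS i) ∈ 𝓜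
  dc : ∀ {i}, Ob.x (ip i) ∈ 𝓜 → ∀ n, Ob.dp (DC i n) ∈ 𝓜
  dflg : ∀ {i}, Ob.x (ip i) ∈ 𝓜 → ∀ n, Ob.dp (DFlg i n) ∈ 𝓜
  dsum : ∀ {i}, Ob.x (ip i) ∈ 𝓜 → ∀ n, Ob.dp (DSum i n) ∈ 𝓜
  inf : ∀ {R β}, Ob.r2 R ∈ 𝓜 → Ob.x (wp β) ∈ 𝓜 → ∀ b, Ob.dp (DInf R β b) ∈ 𝓜
  bd : ∀ {R β i}, Ob.r2 R ∈ 𝓜 → Ob.x (wp β) ∈ 𝓜 → Ob.x (ip i) ∈ 𝓜 → ∀ n, Ob.dp (DBd R β i n) ∈ 𝓜
  tot : ∀ {R β}, Ob.r2 R ∈ 𝓜 → Ob.x (wp β) ∈ 𝓜 → ∀ n, Ob.dp (DTot R β n) ∈ 𝓜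

open Classical in
theorem Cl.of {𝓜 : Set (OB I Ω)} (h : ∀ k l, (∀ u ∈ l, u ∈ 𝓜) → FF ch k l ∈ 𝓜) : Cl ch 𝓜 where
  wps := h (0, 0) [] (by simp)
  k1 := h (1, 0) [] (by simp)
  k2 := h (2, 0) [] (by simp)
  rg := h (3, 0) [] (by simp)
  up := by
    intro p R x y hp hR hx hy hF
    have h1 := h (4, 0) [Ob.p p, Ob.r2 R, Ob.x x, Ob.x y] (by simp [hp, hR, hx, hy])
    have h2 : FF ch (4, 0) [Ob.p p, Ob.r2 R, Ob.x x, Ob.x y] = Ob.p hF.choose := by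
      show (if h : Fo R p x y then Ob.p h.choose else Ob.dx ∅) = _
      rw [dif_pos hF]
    rw [h2] at h1
    exact ⟨hF.choose, hF.choose_spec.1, hF.choose_spec.2, h1⟩
  len := fun {β} hβ n => h (5, n) [Ob.x (wp β)] (by simp [hβ])
  lst := fun {R} hR n => h (6, n) [Ob.r2 R] (by simp [hR])
  b := fun {R} hR => h (7, 0) [Ob.r2 R] (by simp [hR])
  add := fun {R} hR => h (8, 0) [Ob.r2 R] (by simp [hR])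
  dec := fun {R} hR n => h (9, n) [Ob.r2 R] (by simp [hR])
  i := fun {R} hR => h (10, 0) [Ob.r2 R] (by simp [hR])
  rs := fun {i} hi => h (11, 0) [Ob.x (ip i)] (by simp [hi])
  dc := fun {i} hi n => h (12, n) [Ob.x (ip i)] (by simp [hi])
  dflg := fun {i} hi n => h (13, n) [Ob.x (ip i)] (by simp [hi])
  dsum := fun {i} hi n => h (14, n) [Ob.x (ip i)] (by simp [hi])
  inf := fun {R β} hR hβ b => h (15, b) [Ob.r2 R, Ob.x (wp β)] (by simp [hR, hβ])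
  bd := fun {R β i} hR hβ hi n => h (16, n) [Ob.r2 R, Ob.x (wp β), Ob.x (ip i)] (by simp [hR, hβ, hi])
  tot := fun {R β} hR hβ n => h (17, n) [Ob.r2 R, Ob.x (wp β)] (by simp [hR, hβ])

omit [LinearOrder Ω] [WellFoundedLT Ω] in
theorem nn_inj {m n : ℕ} (h : (nn m : XT I Ω) = nn n) : m = n := Sum.inl_injective h

omit [LinearOrder Ω] [WellFoundedLT Ω] in
theorem wp_inj {β γ : Ω} (h : (wp β : XT I Ω) = wp γ) : β = γ := Sum.inl_injective (Sum.inr_injective h)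

/-- a generic extension of a closed submodel -/
structure GG (𝓜 : Set (OB I Ω)) (N : Type) [Membership N N] [ZFModel N] (j : XT I Ω → N) (G : Set (PT I Ω)) :
    Prop where
  g : GenY (PT I Ω) (XT I Ω) nn (FF ch) 𝓜 N j G
  c : Cl ch 𝓜

theorem exists_GG [Nonempty (PT I Ω)] : ∃ (𝓜 : Set (OB I Ω)) (N : Type) (_ : Membership N N) (_ : ZFModel N)
    (j : XT I Ω → N) (G : Set (PT I Ω)), GG ch 𝓜 N j G := by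
  obtain ⟨𝓜, N, m, z, j, G, h⟩ := exists_genY (PT I Ω) (XT I Ω) nn (fun _ _ => nn_inj) (FF ch)
  exact ⟨𝓜, N, m, z, j, G, h, Cl.of ch h.closed⟩

end

end Pool.Agent.SSN.Q2
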