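import Pool.Agent.SSM.BadE
import Pool.Agent.SSL.GenX
import Pool.Agent.SSN.MDefs

/-!
# Names and dense sets for the model of `cov(M) < ss_c`
-/

namespace Pool.Agent.SSN.Q2

open Set Cardinal Pool.Agent.SSM Pool.Agent.SSL

section
variable {I Ω : Type} [LinearOrder Ω] [WellFoundedLT Ω]

variable (I Ω) in
/-- the type of conditions -/
abbrev PT : Type 1 := ULift.{1} (CT itdE I Ω)

variable (I Ω) in
/-- the type of points -/
abbrev XT : Type := ℕ ⊕ Ω ⊕ I

/-- the point of a natural number -/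
def nn (n : ℕ) : XT I Ω := Sum.inl n

/-- the point of a coordinate -/
def wp (β : Ω) : XT I Ω := Sum.inr (Sum.inl β)

/-- the point of an index of a Cohen function -/
def ip (i : I) : XT I Ω := Sum.inr (Sum.inr i)

/-- a condition as element of the partial order -/
def mk (q : Pre itdE I Ω) (hq : q ∈ PP itdE I Ω) : PT I Ω := ⟨⟨q, hq⟩⟩

/-- the underlying condition -/
abbrev un (p : PT I Ω) : Pre itdE I Ω := p.down.1

theorem un_mem (p : PT I Ω) : un p ∈ PP itdE I Ω := p.down.2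

@[simp] theorem un_mk (q : Pre itdE I Ω) (hq : q ∈ PP itdE I Ω) : un (mk q hq) = q := rfl

@[simp] theorem mk_un (p : PT I Ω) : mk (un p) (un_mem p) = p := rfl

theorem le_iff {p q : PT I Ω} : q ≤ p ↔ (un q).LE (un p) := Iff.rfl

/-- the condition is below a member of the relation -/
def Fo (R : Set (PT I Ω × XT I Ω × XT I Ω)) (p : PT I Ω) (x y : XT I Ω) : Prop := ∃ p', p ≤ p' ∧ (p', x, y) ∈ R

theorem Fo.mono {R : Set (PT I Ω × XT I Ω × XT I Ω)} {p q : PT I Ω} (h : q ≤ p) {x y : XT I Ω} (hp : Fo R p x y) :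
    Fo R q x y := by
  obtain ⟨p', h1, h2⟩ := hp
  exact ⟨p', h.trans h1, h2⟩

/-! ### the least value of a relation between natural numbers -/

/-- `b` is forced to be the least value at `l` -/
def Lst (R : Set (PT I Ω × XT I Ω × XT I Ω)) (p : PT I Ω) (l b : ℕ) : Prop :=
  Fo R p (nn l) (nn b) ∧ ∀ b' < b, ∀ q ≤ p, ¬ Fo R q (nn l) (nn b')

theorem Lst.mono {R : Set (PT I Ω × XT I Ω × XT I Ω)} {p q : PT I Ω} (h : q ≤ p) {l b : ℕ} (hp : Lst R p l b) :
    Lst R q l b := ⟨hp.1.mono h, fun b' hb' q' hq' => hp.2 b' hb' q' (hq'.trans h)⟩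

theorem Lst.unique {R : Set (PT I Ω × XT I Ω × XT I Ω)} {p q r : PT I Ω} (hp : r ≤ p) (hq : r ≤ q) {l b b' : ℕ}
    (h : Lst R p l b) (h' : Lst R q l b') : b = b' := by
  rcases lt_trichotomy b b' with h1 | h1 | h1
  · exact absurd (h.1.mono hp) (h'.2 b h1 r hq)
  · exact h1
  · exact absurd (h'.1.mono hq) (h.2 b' h1 r hp)

/-- the dense set of conditions deciding the least value at `l` -/
def DLst (R : Set (PT I Ω × XT I Ω × XT I Ω)) (l : ℕ) : Set (PT I Ω) :=
  {p | (∃ b, Lst R p l b) ∨ ∀ b, ∀ q ≤ p, ¬ Fo R q (nn l) (nn b)}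

theorem DLst_dense (R : Set (PT I Ω × XT I Ω × XT I Ω)) (l : ℕ) (p : PT I Ω) : ∃ q ≤ p, q ∈ DLst R l := by
  classical
  by_cases h : ∃ b, ∃ q ≤ p, Fo R q (nn l) (nn b)
  · obtain ⟨q, hq, h1⟩ := Nat.find_spec h
    refine ⟨q, hq, Or.inl ⟨Nat.find h, h1, fun b' hb' q' hq' h2 => ?_⟩⟩
    exact Nat.find_min h hb' ⟨q', hq'.trans hq, h2⟩
  · push Not at h
    exact ⟨p, le_rfl, Or.inr h⟩

/-! ### the name of the promise -/

/-- the tree of decisions for the least values -/
def SR (R : Set (PT I Ω × XT I Ω × XT I Ω)) : Set (Pre itdE I Ω × List (Finset ℕ)) :=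
  {z | ∀ l v, z.2[l]? = some v → v.card ≤ 1 ∧ ∀ q : PT I Ω, (un q).LE z.1 → ∀ b, Lst R q l b → b ∈ v}

theorem exists_promise (hb : ∀ C : Set Ω, C.Countable → ∃ β, ∀ γ ∈ C, γ < β)
    (R : Set (PT I Ω × XT I Ω × XT I Ω)) :
    ∃ β, ∃ φ ∈ Nm itdE I β, ∀ q ∈ PP itdE I Ω, ∀ L, ∃ q' ∈ PP itdE I Ω, q'.LE q ∧ ∃ u, u.length = L ∧
      (q', u) ∈ SR R ∧ ∀ z, q'.satB β z → ∀ l < L, φ z l = u.getD l ∅ := by
  classical
  obtain ⟨β, φ, h1, -, h3⟩ := exists_name_glob (A := itdE) (I := I) hb (S := SR R) (M := 1)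
    (fun q _ l v h => by simp at h)
    (fun q u hu q' _ hq' l v h => ⟨(hu l v h).1, fun q'' hq'' b hl => (hu l v h).2 q'' (hq''.trans hq') b hl⟩)
    (fun q u hq hu => by
      by_cases h : ∃ q' : PT I Ω, (un q').LE q ∧ ∃ b, Lst R q' u.length b
      · obtain ⟨q', hq', b, hl⟩ := h
        refine ⟨un q', un_mem q', hq', {b}, fun l v h => ?_⟩
        rcases lt_or_ge l u.length with h4 | h4
        · rw [show (u ++ [{b}])[l]? = u[l]? from List.getElem?_append_left h4] at h
          exact ⟨(hu l v h).1, fun q'' hq'' b hl => (hu l v h).2 q'' (hq''.trans hq') b hl⟩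
        · have h5 : (u ++ [{b}])[l]? = some v := h
          rw [List.getElem?_append_right h4] at h5
          have h6 : l - u.length = 0 := by
            by_contra hc
            rw [List.getElem?_eq_none (by simp; omega)] at h5
            exact absurd h5 (by simp)
          rw [h6] at h5
          simp only [List.getElem?_cons_zero, Option.some.injEq] at h5
          subst h5
          have h7 : l = u.length := by omega
          subst h7
          refine ⟨by simp, fun q'' hq'' b' hl' => ?_⟩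
          rw [Finset.mem_singleton]
          exact hl'.unique (r := q'') le_rfl hq'' hl
      · push Not at h
        refine ⟨q, hq, Pre.LE.refl q, ∅, fun l v h' => ?_⟩
        rcases lt_or_ge l u.length with h4 | h4
        · rw [show (u ++ [∅])[l]? = u[l]? from List.getElem?_append_left h4] at h'
          exact hu l v h'
        · have h5 : (u ++ [∅])[l]? = some v := h'
          rw [List.getElem?_append_right h4] at h5
          have h6 : l - u.length = 0 := by
            by_contra hc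
            rw [List.getElem?_eq_none (by simp; omega)] at h5
            exact absurd h5 (by simp)
          rw [h6] at h5
          simp only [List.getElem?_cons_zero, Option.some.injEq] at h5
          subst h5
          have h7 : l = u.length := by omega
          subst h7
          exact ⟨by simp, fun q'' hq'' b' hl' => absurd hl' (h q'' hq'' b')⟩)
    (fun q u hu l v h => by
      have h4 := (hu l v h).1
      show v.card < 2 ^ (1 * (l + 1))
      calc v.card ≤ 1 := h4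
        _ < 2 ^ (1 * (l + 1)) := Nat.one_lt_two_pow (by omega))
  exact ⟨β, φ, h1, h3⟩

/-- a promise for the relation `R` -/
structure IsPr (R : Set (PT I Ω × XT I Ω × XT I Ω)) (β : Ω) (φ : Pro I Ω) : Prop where
  nm : φ ∈ Nm itdE I β
  dec : ∀ q ∈ PP itdE I Ω, ∀ L, ∃ q' ∈ PP itdE I Ω, q'.LE q ∧ ∃ u, u.length = L ∧
      (q', u) ∈ SR R ∧ ∀ z, q'.satB β z → ∀ l < L, φ z l = u.getD l ∅

/-- the conditions whose promise at `β` contains `φ` -/
def DAdd (β : Ω) (φ : Pro I Ω) : Set (PT I Ω) := {p | ∀ z l, φ z l ⊆ (un p).φ β z l}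

theorem DAdd_dense {R : Set (PT I Ω × XT I Ω × XT I Ω)} {β : Ω} {φ : Pro I Ω} (h : IsPr R β φ) (p : PT I Ω) :
    ∃ q ≤ p, q ∈ DAdd β φ := by
  obtain ⟨q, h1, h2, h3, -⟩ := exists_addPro (un_mem p) h.nm
  exact ⟨mk q h1, h2, h3⟩

/-- the conditions with long stem at `β` -/
def DLen (β : Ω) (n : ℕ) : Set (PT I Ω) := {p | n < ((un p).σ β).length}

theorem DLen_dense (β : Ω) (n : ℕ) (p : PT I Ω) : ∃ q ≤ p, q ∈ DLen β n := by
  obtain ⟨q, h1, h2, h3, -⟩ := exists_long (un_mem p) β (n + 1)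
  exact ⟨mk q h1, h2, h3⟩

/-- the conditions deciding the promise up to `n` -/
def DDec (R : Set (PT I Ω × XT I Ω × XT I Ω)) (β : Ω) (φ : Pro I Ω) (n : ℕ) : Set (PT I Ω) :=
  {p | n < ((un p).σ β).length ∧ ∃ u, u.length = n + 1 ∧ (un p, u) ∈ SR R ∧
    ∀ z, (un p).satB β z → ∀ l < n + 1, φ z l = u.getD l ∅}

theorem DDec_dense {R : Set (PT I Ω × XT I Ω × XT I Ω)} {β : Ω} {φ : Pro I Ω} (h : IsPr R β φ) (n : ℕ)
    (p : PT I Ω) : ∃ q ≤ p, q ∈ DDec R β φ n := by
  obtain ⟨q, h1, h2⟩ := DLen_dense β n p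
  obtain ⟨q', h3, h4, h5⟩ := h.dec (un q) (un_mem q) (n + 1)
  refine ⟨mk q' h3, le_trans (b := q) h4 h1, lt_of_lt_of_le h2 (h4.σ β).length_le, h5⟩

/-- **The stem avoids the promise.** -/
theorem stem_ne {R : Set (PT I Ω × XT I Ω × XT I Ω)} {β : Ω} {φ : Pro I Ω} {p1 p2 r : PT I Ω} {n b : ℕ}
    (h1 : p1 ∈ DAdd β φ) (hn : ((un p1).σ β).length ≤ n) (h2 : p2 ∈ DDec R β φ n) (hr1 : r ≤ p1)
    (hr2 : r ≤ p2) (hb : Lst R r n b) : ((un r).σ β).getD n 0 ≠ b := by
  obtain ⟨z, hz⟩ := exists_satB (un_mem r) β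
  obtain ⟨h3, u, h4, h5, h6⟩ := h2
  have h7 : n < ((un r).σ β).length := lt_of_lt_of_le h3 (hr2.σ β).length_le
  have h8 := hr1.new β z hz n hn h7
  have h9 : ((un r).σ β).getD n 0 ∉ (un p1).φ β z (((un r).σ β).take n).length := h8
  rw [List.length_take, min_eq_left h7.le] at h9
  intro hc
  apply h9
  apply h1 z n
  rw [h6 z (Pre.LE.satB hr2 hz) n (by omega), hc]
  have h10 : u[n]? = some (u.getD n ∅) := by
    rw [List.getD_eq_getElem?_getD, List.getElem?_eq_getElem (by omega)]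
    rfl
  exact (h5 n _ h10).2 r hr2 b hb

end

end Pool.Agent.SSN.Q2
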