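import Pool.Agent.SSN.Q2N

/-!
# Names of subsets of `ω`, the series coded by a Cohen function
-/

namespace Pool.Agent.SSN.Q2

open Set Cardinal Pool.Agent.SSM Pool.Agent.SSL

/-! ### a right inverse of the enumeration of the rational numbers -/

/-- a number of the rational number -/
def cdr (q : ℚ) : ℕ := Nat.pair (Nat.pair q.num.toNat (-q.num).toNat) (q.den - 1)

theorem rat_cdr (q : ℚ) : rat (cdr q) = q := by
  unfold rat cdr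
  simp only [Nat.unpair_pair]
  have h1 : ((q.num.toNat : ℕ) : ℚ) - (((-q.num).toNat : ℕ) : ℚ) = (q.num : ℚ) := by
    have h : ((q.num.toNat : ℕ) : ℤ) - (((-q.num).toNat : ℕ) : ℤ) = q.num := by omega
    have h' := congrArg (fun z : ℤ => (z : ℚ)) h
    push_cast at h'
    exact h'
  have h2 : (((q.den - 1 : ℕ) : ℚ) + 1) = (q.den : ℚ) := by
    have h := q.den_pos
    rw [← Nat.cast_add_one, Nat.sub_add_cancel h]
  rw [h1, h2]
  exact Rat.num_div_den q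

section
variable {I Ω : Type} [LinearOrder Ω] [WellFoundedLT Ω]

theorem un_inj {p q : PT I Ω} (h : un p = un q) : p = q :=
  ULift.down_injective (Subtype.ext h)

/-- the forcing relation for the characteristic function of the set named by the row `β` -/
def FX (R : Set (PT I Ω × XT I Ω × XT I Ω)) (β : Ω) (q : Pre itdE I Ω) (n b : ℕ) : Prop :=
  ∃ p : PT I Ω, un p = q ∧ ((b = 1 ∧ Fo R p (wp β) (nn n)) ∨ (b = 0 ∧ ∀ q' ≤ p, ¬ Fo R q' (wp β) (nn n)))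

variable {R : Set (PT I Ω × XT I Ω × XT I Ω)} {β : Ω}

theorem FX_iff {p : PT I Ω} {n b : ℕ} : FX R β (un p) n b ↔
    ((b = 1 ∧ Fo R p (wp β) (nn n)) ∨ (b = 0 ∧ ∀ q' ≤ p, ¬ Fo R q' (wp β) (nn n))) := by
  constructor
  · rintro ⟨p', h, h'⟩
    rw [un_inj h] at h'
    exact h'
  · intro h
    exact ⟨p, rfl, h⟩

theorem FX_mono' {p q : PT I Ω} (h : q ≤ p) {n b : ℕ} (hp : FX R β (un p) n b) : FX R β (un q) n b := by
  rw [FX_iff] at hp ⊢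
  rcases hp with ⟨h1, h2⟩ | ⟨h1, h2⟩
  · exact Or.inl ⟨h1, h2.mono h⟩
  · exact Or.inr ⟨h1, fun q' hq' => h2 q' (hq'.trans h)⟩

theorem FX_Mono : Mono (FX R β) := by
  intro q hq q' hq' h m n hF
  exact FX_mono' (p := mk q hq) (q := mk q' hq') h hF

theorem FX_unique {p : PT I Ω} {n b b' : ℕ} (h : FX R β (un p) n b) (h' : FX R β (un p) n b') : b = b' := by
  rw [FX_iff] at h h'
  rcases h with ⟨h1, h2⟩ | ⟨h1, h2⟩ <;> rcases h' with ⟨h3, h4⟩ | ⟨h3, h4⟩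
  · rw [h1, h3]
  · exact absurd h2 (h4 p le_rfl)
  · exact absurd h4 (h2 p le_rfl)
  · rw [h1, h3]

/-- the conditions deciding whether `n` belongs to the set -/
def DTot (R : Set (PT I Ω × XT I Ω × XT I Ω)) (β : Ω) (n : ℕ) : Set (PT I Ω) :=
  {p | ∃ b, FX R β (un p) n b}

theorem DTot_dense (n : ℕ) (p : PT I Ω) : ∃ q ≤ p, q ∈ DTot R β n := by
  by_cases h : ∃ q ≤ p, Fo R q (wp β) (nn n)
  · obtain ⟨q, hq, h1⟩ := h
    exact ⟨q, hq, 1, FX_iff.2 (Or.inl ⟨rfl, h1⟩)⟩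
  · push Not at h
    exact ⟨p, le_rfl, 0, FX_iff.2 (Or.inr ⟨rfl, h⟩)⟩

/-- the dense set for the infinity of the set (`b = 1`) or of its complement (`b = 0`) -/
def DInf (R : Set (PT I Ω × XT I Ω × XT I Ω)) (β : Ω) (b : ℕ) : Set (PT I Ω) :=
  {p | (∀ M, ∀ q ≤ p, ∃ q' ≤ q, ∃ n ≥ M, FX R β (un q') n b) ∨
    ∃ M, ∀ q ≤ p, ∀ n ≥ M, ¬ FX R β (un q) n b}

theorem DInf_dense (b : ℕ) (p : PT I Ω) : ∃ q ≤ p, q ∈ DInf R β b := by
  by_cases h : ∀ M, ∀ q ≤ p, ∃ q' ≤ q, ∃ n ≥ M, FX R β (un q') n b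
  · exact ⟨p, le_rfl, Or.inl h⟩
  · push Not at h
    obtain ⟨M, q, hq, h1⟩ := h
    exact ⟨q, hq, Or.inr ⟨M, h1⟩⟩

/-- the transition sums decided by `q` are small -/
def Ok (R : Set (PT I Ω × XT I Ω × XT I Ω)) (β : Ω) (i : I) (N0 : ℕ) (q : PT I Ω) : Prop :=
  ∀ u v, N0 ≤ u → u ≤ v → ∀ x c : ℕ → ℕ, (∀ n ≤ v, FX R β (un q) n (x n)) →
    (∀ n < v, (i, n, c n) ∈ (un q).c) → |∑ n ∈ Finset.Ico u v, eps c n * sgn (c n) * eta x n| ≤ 1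

/-- the dense set for the boundedness of the transition sums -/
def DBd (R : Set (PT I Ω × XT I Ω × XT I Ω)) (β : Ω) (i : I) (N0 : ℕ) : Set (PT I Ω) :=
  {p | (∀ q ≤ p, Ok R β i N0 q) ∨ ¬ Ok R β i N0 p}

theorem DBd_dense (i : I) (N0 : ℕ) (p : PT I Ω) : ∃ q ≤ p, q ∈ DBd R β i N0 := by
  by_cases h : ∀ q ≤ p, Ok R β i N0 q
  · exact ⟨p, le_rfl, Or.inl h⟩
  · push Not at h
    obtain ⟨q, hq, h1⟩ := h
    exact ⟨q, hq, Or.inr h1⟩

/-- the indices for which the subseries may converge -/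
def Bad (F : Pre itdE I Ω → ℕ → ℕ → Prop) : Set I :=
  {i : I | ∃ p ∈ PP itdE I Ω, ∃ N, Tot F p ∧
      (∀ q ∈ PP itdE I Ω, q.LE p → ∀ m n n', F q m n → F q m n' → n = n') ∧
      (∀ q ∈ PP itdE I Ω, q.LE p → ∀ M, ∃ q' ∈ PP itdE I Ω, q'.LE q ∧ ∃ n ≥ M, F q' n 1) ∧
      (∀ q ∈ PP itdE I Ω, q.LE p → ∀ M, ∃ q' ∈ PP itdE I Ω, q'.LE q ∧ ∃ n ≥ M, ∃ b, b ≠ 1 ∧ F q' n b) ∧
      ∀ q ∈ PP itdE I Ω, q.LE p → ∀ u v, N ≤ u → u ≤ v → ∀ x c : ℕ → ℕ, (∀ n ≤ v, F q n (x n)) →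
        (∀ n < v, (i, n, c n) ∈ q.c) →
        |∑ n ∈ Finset.Ico u v, eps c n * sgn (c n) * eta x n| ≤ 1}

theorem exists_good (hΩ : #Ω ≤ ℵ₁) (hI : ∀ B : Ω → Set I, (∀ β, #(B β) ≤ ℵ₁) → ∃ i, ∀ β, i ∉ B β)
    (R : Set (PT I Ω × XT I Ω × XT I Ω)) : ∃ i, ∀ β, i ∉ Bad (FX R β) :=
  hI (fun β => Bad (FX R β)) (fun β => badE_small hΩ (FX_Mono (R := R) (β := β)))

theorem mem_Bad {i : I} {N0 : ℕ} {p : PT I Ω}
    (h1 : ∀ M, ∀ q ≤ p, ∃ q' ≤ q, ∃ n ≥ M, FX R β (un q') n 1)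
    (h0 : ∀ M, ∀ q ≤ p, ∃ q' ≤ q, ∃ n ≥ M, FX R β (un q') n 0)
    (h : ∀ q ≤ p, Ok R β i N0 q) : i ∈ Bad (FX R β) := by
  refine ⟨un p, un_mem p, N0, ?_, ?_, ?_, ?_, ?_⟩
  · intro q hq _ m
    obtain ⟨q', h2, b, h3⟩ := DTot_dense (R := R) (β := β) m (mk q hq)
    exact ⟨un q', un_mem q', h2, b, h3⟩
  · intro q hq _ m n n' h2 h3
    exact FX_unique (p := mk q hq) h2 h3
  · intro q hq hqp M
    obtain ⟨q', h2, n, h3, h4⟩ := h1 M (mk q hq) hqp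
    exact ⟨un q', un_mem q', h2, n, h3, h4⟩
  · intro q hq hqp M
    obtain ⟨q', h2, n, h3, h4⟩ := h0 M (mk q hq) hqp
    exact ⟨un q', un_mem q', h2, n, h3, 0, by norm_num, h4⟩
  · intro q hq hqp u v hu huv x c hx hc
    exact h (mk q hq) hqp u v hu huv x c hx hc

/-! ### Cohen functions -/

/-- the conditions deciding the `i`-th Cohen function up to `n` -/
def DC (i : I) (n : ℕ) : Set (PT I Ω) := {p | ∃ c : ℕ → ℕ, ∀ k ≤ n, (i, k, c k) ∈ (un p).c}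

theorem DC_dense (i : I) (n : ℕ) (p : PT I Ω) : ∃ q ≤ p, q ∈ DC i n := by
  obtain ⟨q, h1, h2, -, τ, h3, h4⟩ := exists_cohen (un_mem p) i (n + 1)
  exact ⟨mk q h1, h2, fun k => τ.getD k 0, fun k hk => (h4 _ _).2 ⟨by omega, rfl⟩⟩

/-- the conditions forcing many flags -/
def DFlg (i : I) (M : ℕ) : Set (PT I Ω) :=
  {p | ∃ (n : ℕ) (c : ℕ → ℕ), (∀ k ≤ n, (i, k, c k) ∈ (un p).c) ∧ M ≤ flg c n}

theorem DFlg_dense (i : I) (M : ℕ) (p : PT I Ω) : ∃ q ≤ p, q ∈ DFlg i M := by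
  obtain ⟨q, h1, h2, -, τ, h3, h4⟩ := exists_cohen (un_mem p) i 0
  obtain ⟨q', h5, h6, -, h7⟩ := exists_cohen' h1 i h4 (List.replicate (M + 1) 2)
  refine ⟨mk q' h5, le_trans (b := mk q h1) h6 h2, τ.length + M,
    fun k => (τ ++ List.replicate (M + 1) 2).getD k 0, fun k hk => (h7 _ _).2 ⟨?_, rfl⟩, ?_⟩
  · rw [List.length_append, List.length_replicate]
    omega
  · unfold flg
    beta_reduce
    have h8 : Finset.Icc τ.length (τ.length + M) ⊆ (Finset.range (τ.length + M + 1)).filter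
        (fun m => 2 ≤ (τ ++ List.replicate (M + 1) 2).getD m 0) := by
      intro k hk
      rw [Finset.mem_Icc] at hk
      rw [Finset.mem_filter, Finset.mem_range]
      refine ⟨by omega, ?_⟩
      rw [List.getD_append_right _ _ _ _ hk.1, List.getD_eq_getElem?_getD,
        List.getElem?_replicate_of_lt (by omega)]
      exact le_rfl
    have h9 := Finset.card_le_card h8
    rw [Nat.card_Icc] at h9
    omega

/-- the conditions forcing large sums of absolute values -/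
def DSum (i : I) (M : ℕ) : Set (PT I Ω) :=
  {p | ∃ (n : ℕ) (c : ℕ → ℕ), (∀ k < n, (i, k, c k) ∈ (un p).c) ∧ (M : ℚ) ≤ ∑ k ∈ Finset.range n, |ser c k|}

theorem DSum_dense (i : I) (M : ℕ) (p : PT I Ω) : ∃ q ≤ p, q ∈ DSum i M := by
  obtain ⟨q, h1, h2, -, τ, h3, h4⟩ := exists_cohen (un_mem p) i 0
  obtain ⟨ρ, hρ⟩ := exists_alt τ M
  obtain ⟨q', h5, h6, -, h7⟩ := exists_cohen' h1 i h4 ρ
  exact ⟨mk q' h5, le_trans (b := mk q h1) h6 h2, (τ ++ ρ).length, fun k => (τ ++ ρ).getD k 0,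
    fun k hk => (h7 _ _).2 ⟨hk, rfl⟩, hρ _ (fun k _ => rfl)⟩

end

end Pool.Agent.SSN.Q2
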