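import Pool.Agent.SSN.Order

/-!
# Conditions: restriction, gluing, joining
-/

namespace Pool.Agent.SSN

open Set

variable {W : Type} [LinearOrder W] [WellFoundedLT W] {D : Set W}

theorem mem_Val {ξ : W} {p : Cond W} : p ∈ Val D ξ ↔ Bas D p ∧ (∀ η, ξ ≤ η → p.s η = [] ∧ p.l η = 0) ∧
    ∀ η < ξ, ∀ t < p.l η, Legit (Val D η) (p.T η t) (p.v η t) := by
  rw [Val]; rfl

theorem mem_Val_iff {ξ : W} {p : Cond W} :
    p ∈ Val D ξ ↔ p ∈ PP D ∧ ∀ η, ξ ≤ η → p.s η = [] ∧ p.l η = 0 := by
  rw [mem_Val]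
  constructor
  · rintro ⟨h1, h2, h3⟩
    refine ⟨⟨h1, fun η t ht => ?_⟩, h2⟩
    rcases lt_or_ge η ξ with h | h
    · exact h3 η h t ht
    · rw [(h2 η h).2] at ht; omega
  · rintro ⟨⟨h1, h2⟩, h3⟩
    exact ⟨h1, h3, fun η _ t ht => h2 η t ht⟩

theorem PP.bas {p : Cond W} (h : p ∈ PP D) : Bas D p := h.1
theorem PP.leg {p : Cond W} (h : p ∈ PP D) {η : W} {t : ℕ} (ht : t < p.l η) :
    Legit (Val D η) (p.T η t) (p.v η t) := h.2 η t ht
theorem Val.pp {ξ : W} {p : Cond W} (h : p ∈ Val D ξ) : p ∈ PP D := (mem_Val_iff.1 h).1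

theorem Val.mono {ξ η : W} (h : ξ ≤ η) : Val D ξ ⊆ Val D η := fun p hp => by
  rw [mem_Val_iff] at hp ⊢
  exact ⟨hp.1, fun ζ hζ => hp.2 ζ (h.trans hζ)⟩

omit [WellFoundedLT W] in
theorem supp_res (p : Cond W) (ξ : W) : supp (p.res ξ) = supp p ∩ Iio ξ := by
  ext η
  simp only [supp, mem_ofPred_eq, res_s, res_l, mem_inter_iff, mem_Iio]
  by_cases h : η < ξ <;> simp [h]

theorem res_mem {p : Cond W} (hp : p ∈ PP D) (ξ : W) : p.res ξ ∈ Val D ξ := by
  rw [mem_Val_iff]
  refine ⟨⟨⟨?_, fun η => ?_, fun η hη => ?_⟩, fun η t ht => ?_⟩, fun η hη => ?_⟩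
  · rw [supp_res]; exact hp.1.fin.inter_of_left _
  · simp only [res_s]
    split_ifs
    · exact hp.1.inc η
    · exact ⟨by simp, by simp⟩
  · simp only [res_l]
    split_ifs
    · exact hp.1.nD η hη
    · rfl
  · rw [res_l] at ht
    split_ifs at ht with h
    · simp only [res_T, res_v, h, if_true]
      exact hp.2 η t ht
    · omega
  · simp [not_lt.2 hη]

/-- a condition in `Val D ξ` and its restriction are equivalent -/
theorem Val.ext_res {ξ : W} {p : Cond W} (h : p ∈ Val D ξ) : Ext p (p.res ξ) := by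
  have h2 := (mem_Val_iff.1 h).2
  rw [Ext_iff]
  refine ⟨fun η => ?_, fun η t ht => ?_, fun η t ht i x y hi hxy => ?_⟩
  · rw [res_s]
    split_ifs with h3
    · exact List.prefix_refl _
    · rw [(h2 η (not_lt.1 h3)).1]
  · have h3 : η < ξ := by
      by_contra h3
      rw [(h2 η (not_lt.1 h3)).2] at ht; omega
    exact ⟨t, by simpa [h3] using ht, by simp [res_T, h3], by simp [res_v, h3]⟩
  · rw [res_s] at hxy
    split_ifs at hxy with h3
    · obtain ⟨h4, -⟩ := List.getElem?_eq_some_iff.1 hxy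
      omega
    · simp at hxy

/-- if `q` extends `p` in `Val D ξ` then so does its restriction to `ξ` -/
theorem Ext.res_of_val {ξ : W} {p q : Cond W} (hp : p ∈ Val D ξ) (h : Ext p q) : Ext p (q.res ξ) :=
  (Val.ext_res hp).trans (h.res ξ)

/-- `r` below `ξ`, `p` from `ξ` on -/
def glue (p : Cond W) (ξ : W) (r : Cond W) : Cond W :=
  .mk (fun η => if η < ξ then r.s η else p.s η) (fun η => if η < ξ then r.l η else p.l η)
    (fun η => if η < ξ then r.T η else p.T η) (fun η => if η < ξ then r.v η else p.v η)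

section
variable {W : Type} [LinearOrder W]
theorem glue_s (p r : Cond W) (ξ η : W) : (glue p ξ r).s η = if η < ξ then r.s η else p.s η := rfl
theorem glue_l (p r : Cond W) (ξ η : W) : (glue p ξ r).l η = if η < ξ then r.l η else p.l η := rfl
theorem glue_T (p r : Cond W) (ξ η : W) : (glue p ξ r).T η = if η < ξ then r.T η else p.T η := rfl
theorem glue_v (p r : Cond W) (ξ η : W) : (glue p ξ r).v η = if η < ξ then r.v η else p.v η := rfl

theorem glue_res (p r : Cond W) (ξ : W) {η : W} (h : η ≤ ξ) : (glue p ξ r).res η = r.res η := by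
  have key : ∀ ζ, ζ < η → ζ < ξ := fun ζ hζ => hζ.trans_le h
  unfold Cond.res
  congr 1 <;> funext ζ <;> by_cases hζ : ζ < η <;> simp [hζ, key, glue_s, glue_l, glue_T, glue_v]
end

theorem glue_mem {p r : Cond W} {ξ : W} (hp : p ∈ PP D) (hr : r ∈ Val D ξ) : glue p ξ r ∈ PP D := by
  have hr' := (mem_Val_iff.1 hr).1
  refine ⟨⟨?_, fun η => ?_, fun η hη => ?_⟩, fun η t ht => ?_⟩
  · apply (hp.1.fin.union hr'.1.fin).subset
    intro η hη
    simp only [supp, mem_ofPred_eq, glue_s, glue_l] at hη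
    by_cases h : η < ξ
    · simp only [h, if_true] at hη; exact Or.inr hη
    · simp only [h, if_false] at hη; exact Or.inl hη
  · rw [glue_s]; split_ifs
    · exact hr'.1.inc η
    · exact hp.1.inc η
  · rw [glue_l]; split_ifs
    · exact hr'.1.nD η hη
    · exact hp.1.nD η hη
  · rw [glue_l] at ht
    rw [glue_T, glue_v]
    split_ifs at ht ⊢ with h
    · exact hr'.2 η t ht
    · exact hp.2 η t ht

omit [WellFoundedLT W] in
theorem glue_ext {p r : Cond W} {ξ : W} (h : Ext (p.res ξ) r) : Ext p (glue p ξ r) := by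
  rw [Ext_iff]
  refine ⟨fun η => ?_, fun η t ht => ?_, fun η t ht i x y hi hxy => ?_⟩
  · rw [glue_s]
    split_ifs with h3
    · have := h.s_pre η
      simpa [h3] using this
    · exact List.prefix_refl _
  · rw [glue_l, glue_T, glue_v]
    split_ifs with h3
    · obtain ⟨t', ht', h4, h5⟩ := h.l_le η t (by simpa [h3] using ht)
      exact ⟨t', ht', by simpa [res_T, h3] using h4, by simpa [res_v, h3] using h5⟩
    · exact ⟨t, ht, rfl, rfl⟩
  · rw [glue_s] at hxy
    split_ifs at hxy with h3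
    · obtain ⟨n, m, h4, h5, h6⟩ := h.new η t (by simpa [h3] using ht) i x y (by simpa [h3] using hi) hxy
      rw [glue_res _ _ _ h3.le]
      simp only [res_T, res_v, h3, if_true] at h4 h5 h6
      exact ⟨n, m, h4, h5, h6⟩
    · obtain ⟨h4, -⟩ := List.getElem?_eq_some_iff.1 hxy
      omega

theorem glue_ext' {p r : Cond W} {ξ : W} (hr : r ∈ Val D ξ) : Ext r (glue p ξ r) := by
  apply (Val.ext_res hr).trans
  rw [← glue_res p r ξ le_rfl]
  exact Ext.of_res _ _

/-- nothing happens in `p` at `ξ` -/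
def Triv (p : Cond W) (ξ : W) : Prop := p.s ξ = [] ∧ p.l ξ = 0

open Classical in
/-- the common extension of two conditions with the same sequences of pairs -/
noncomputable def join (p q : Cond W) : Cond W :=
  .mk (fun η => if Triv p η then q.s η else p.s η) (fun η => p.l η + q.l η)
    (fun η t => if t < p.l η then p.T η t else q.T η (t - p.l η))
    (fun η t => if t < p.l η then p.v η t else q.v η (t - p.l η))

omit [WellFoundedLT W] in
open Classical in
theorem join_s (p q : Cond W) (η : W) : (join p q).s η = if Triv p η then q.s η else p.s η := rfl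
omit [WellFoundedLT W] in
theorem join_l (p q : Cond W) (η : W) : (join p q).l η = p.l η + q.l η := rfl
omit [WellFoundedLT W] in
theorem join_T (p q : Cond W) (η : W) (t : ℕ) :
    (join p q).T η t = if t < p.l η then p.T η t else q.T η (t - p.l η) := rfl
omit [WellFoundedLT W] in
theorem join_v (p q : Cond W) (η : W) (t : ℕ) :
    (join p q).v η t = if t < p.l η then p.v η t else q.v η (t - p.l η) := rfl

/-- the sequences of pairs of `p` and `q` agree as far as possible -/
def Agree (p q : Cond W) : Prop := ∀ ξ, p.s ξ = q.s ξ ∨ Triv p ξ ∨ Triv q ξ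

theorem join_mem {p q : Cond W} (hp : p ∈ PP D) (hq : q ∈ PP D) : join p q ∈ PP D := by
  refine ⟨⟨?_, fun η => ?_, fun η hη => ?_⟩, fun η t ht => ?_⟩
  · apply (hp.1.fin.union hq.1.fin).subset
    intro η hη
    by_contra hcon
    simp only [mem_union, supp, mem_ofPred_eq, not_or, not_not] at hcon
    simp only [supp, mem_ofPred_eq, join_s, join_l, hcon.1.1, hcon.1.2, hcon.2.1, hcon.2.2] at hη
    simp at hη
  · rw [join_s]
    split_ifs
    · exact hq.1.inc η
    · exact hp.1.inc η
  · show p.l η + q.l η = 0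
    rw [hp.1.nD η hη, hq.1.nD η hη]
  · change t < p.l η + q.l η at ht
    by_cases h : t < p.l η
    · have h1 : (join p q).T η t = p.T η t := by rw [join_T, if_pos h]
      have h2 : (join p q).v η t = p.v η t := by rw [join_v, if_pos h]
      rw [h1, h2]
      exact hp.2 η t h
    · have h1 : (join p q).T η t = q.T η (t - p.l η) := by rw [join_T, if_neg h]
      have h2 : (join p q).v η t = q.v η (t - p.l η) := by rw [join_v, if_neg h]
      rw [h1, h2]
      exact hq.2 η _ (by omega)

omit [WellFoundedLT W] in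
theorem join_left {p q : Cond W} : Ext p (join p q) := by
  rw [Ext_iff]
  refine ⟨fun η => ?_, fun η t ht => ?_, fun η t ht i x y hi hxy => ?_⟩
  · rw [join_s]
    split_ifs with h
    · rw [h.1]; exact List.nil_prefix
    · exact List.prefix_refl _
  · exact ⟨t, Nat.lt_add_right _ ht, by rw [join_T, if_pos ht], by rw [join_v, if_pos ht]⟩
  · have h : ¬ Triv p η := fun h => by rw [h.2] at ht; omega
    rw [join_s, if_neg h] at hxy
    obtain ⟨h4, -⟩ := List.getElem?_eq_some_iff.1 hxy
    omega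

omit [WellFoundedLT W] in
theorem join_right {p q : Cond W} (h : Agree p q) : Ext q (join p q) := by
  have hs : ∀ η, ¬ Triv q η → (join p q).s η = q.s η := by
    intro η hη
    rw [join_s]
    split_ifs with h1
    · rfl
    · rcases h η with h2 | h2 | h2
      · exact h2
      · exact absurd h2 h1
      · exact absurd h2 hη
  rw [Ext_iff]
  refine ⟨fun η => ?_, fun η t ht => ?_, fun η t ht i x y hi hxy => ?_⟩
  · by_cases hη : Triv q η
    · rw [hη.1]; exact List.nil_prefix
    · rw [hs η hη]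
  · refine ⟨p.l η + t, Nat.add_lt_add_left ht _, ?_, ?_⟩
    · simp [join_T]
    · simp [join_v]
  · have hη : ¬ Triv q η := fun h => by rw [h.2] at ht; omega
    rw [hs η hη] at hxy
    obtain ⟨h4, -⟩ := List.getElem?_eq_some_iff.1 hxy
    omega

/-- two conditions are compatible in `V` -/
def Compat (V : Set (Cond W)) (p q : Cond W) : Prop := ∃ r ∈ V, Ext p r ∧ Ext q r

theorem Agree.compat {p q : Cond W} (hp : p ∈ PP D) (hq : q ∈ PP D) (h : Agree p q) : Compat (PP D) p q :=
  ⟨join p q, join_mem hp hq, join_left, join_right h⟩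

theorem Compat.val {p q : Cond W} {ξ : W} (hp : p ∈ Val D ξ) (hq : q ∈ Val D ξ) (h : Compat (PP D) p q) :
    Compat (Val D ξ) p q := by
  obtain ⟨r, hr, h1, h2⟩ := h
  exact ⟨r.res ξ, res_mem hr ξ, h1.res_of_val hp, h2.res_of_val hq⟩

/-- the trivial condition -/
theorem z_mem : (.z : Cond W) ∈ PP D := by
  refine ⟨⟨?_, fun ξ => ⟨by simp [Cond.s], by simp [Cond.s]⟩, fun ξ _ => rfl⟩, fun η t ht => ?_⟩
  · have : supp (.z : Cond W) = ∅ := by
      ext ξ; simp [supp, Cond.s, Cond.l]
    rw [this]; exact finite_empty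
  · simp [Cond.l] at ht

theorem z_mem_val (ξ : W) : (.z : Cond W) ∈ Val D ξ := mem_Val_iff.2 ⟨z_mem, fun _ _ => ⟨rfl, rfl⟩⟩

end Pool.Agent.SSN
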